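import Pool.Agent.MCC.Defs

/-!
# MCC.Basic: sizes and measurability

PROOF. `chain_congr`: induction on `i`. `chain_meas`: induction on `i`: `x ↦ ext x n` is measurable
(a coordinate or a constant), `Nat.floor` is measurable (`Nat.measurable_floor`), composition with the
measurable map `ℕ → ℝ` (`measurable_from_top` or `Measurable.of_discrete`). `starts_meas`: a countable
(finite) intersection of preimages of sets of naturals. `chain_size`: induction on `i`: if
`κ1 X ≤ c ≤ κ2 X` and `0 < a ≤ α ≤ b` then `α c + β ∈ [a κ1 X - |β|, b κ2 X + |β|]` and the floor is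
`≥ a κ1 X - |β| - 1 ≥ (a κ1/2) X` for large `X` and `≤ (b κ2 + 1) X`. `ne_step`: if
`|u m - v m'| ≥ X^(1-4η)` for `u, v ≤ X^η` then `|u c_i - v c'_i| ≥ (∏_{j<i} a_j) X^(1-4η) - C X^η` by
induction on `i` (`c_(i+1) = α c_i + β - θ`, `0 ≤ θ < 1`, for large `X`), which is `≥ X^(1-5η)` for large
`X` (`η ≤ 1/20`).
-/

namespace MCC

open MeasureTheory Filter

theorem chain_congr {α α' β β' : ℕ → ℝ} {p n : ℕ} (h : ∀ i < n, α i = α' i)
    (h' : ∀ i < n, β i = β' i) {i : ℕ} (hi : i ≤ n) :
    chain α β p i = chain α' β' p i := by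
  induction i with
  | zero => rfl
  | succ i ih =>
    show ⌊α i * (chain α β p i : ℝ) + β i⌋₊ = ⌊α' i * (chain α' β' p i : ℝ) + β' i⌋₊
    rw [ih (by omega), h i (by omega), h' i (by omega)]

theorem starts_congr {α α' β β' : ℕ → ℝ} {p n : ℕ} (h : ∀ i < n, α i = α' i)
    (h' : ∀ i < n, β i = β' i) : StartsExact α β p n ↔ StartsExact α' β' p n := by
  unfold StartsExact
  rw [chain_congr h h' le_rfl]
  refine and_congr_left fun _ => ?_
  refine forall_congr' fun i => forall_congr' fun hi => ?_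
  rw [chain_congr h h' hi.le]

private theorem Basic_ext_meas {k : ℕ} (n : ℕ) : Measurable fun x : Fin k → ℝ => ext x n := by
  unfold ext
  split_ifs with h
  · exact measurable_pi_apply _
  · exact measurable_const

theorem chain_meas {k : ℕ} (β : ℕ → ℝ) (p i : ℕ) :
    Measurable fun x : Fin k → ℝ => chain (ext x) β p i := by
  induction i with
  | zero => exact measurable_const
  | succ i ih =>
    show Measurable fun x : Fin k → ℝ => ⌊ext x i * (chain (ext x) β p i : ℝ) + β i⌋₊
    apply Measurable.nat_floor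
    apply Measurable.add_const
    apply (Basic_ext_meas i).mul
    exact (Measurable.of_discrete (f := fun n : ℕ => (n : ℝ))).comp ih

theorem starts_meas {k : ℕ} (β : ℕ → ℝ) (p : ℕ) :
    MeasurableSet {x : Fin k → ℝ | StartsExact (ext x) β p k} := by
  have h1 : {x : Fin k → ℝ | StartsExact (ext x) β p k} =
      (⋂ i ∈ Finset.range k, {x : Fin k → ℝ | (chain (ext x) β p i).Prime}) ∩
      ({x : Fin k → ℝ | 1 < chain (ext x) β p k} ∩
        {x : Fin k → ℝ | ¬ (chain (ext x) β p k).Prime}) := by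
    ext x
    simp only [Set.mem_ofPred_eq, Set.mem_inter_iff, Set.mem_iInter, Finset.mem_range]
    rfl
  rw [h1]
  refine MeasurableSet.inter ?_ (MeasurableSet.inter ?_ ?_)
  · refine Finset.measurableSet_biInter _ fun i _ => ?_
    exact chain_meas β p i (MeasurableSet.of_discrete (s := {n : ℕ | n.Prime}))
  · exact chain_meas β p k (MeasurableSet.of_discrete (s := {n : ℕ | 1 < n}))
  · exact chain_meas β p k (MeasurableSet.of_discrete (s := {n : ℕ | ¬ n.Prime}))

theorem NS_meas {k : ℕ} (β : ℕ → ℝ) (r : ℕ) : Measurable fun x : Fin k → ℝ => NS β r x := by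
  classical
  unfold NS
  simp only [Finset.card_filter]
  refine Finset.measurable_sum _ fun p _ => ?_
  exact Measurable.ite (starts_meas β p) measurable_const measurable_const

/-- Adding a coordinate does not change the first members. -/
theorem chain_snoc {k : ℕ} (x : Fin (k + 1) → ℝ) (β : ℕ → ℝ) (p : ℕ) {i : ℕ} (hi : i ≤ k) :
    chain (ext x) β p i = chain (ext fun j : Fin k => x j.castSucc) β p i := by
  refine chain_congr (n := k) ?_ (fun _ _ => rfl) hi
  intro j hj
  unfold ext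
  rw [dif_pos (by omega), dif_pos hj]
  rfl

theorem chain_last {k : ℕ} (x : Fin (k + 1) → ℝ) (β : ℕ → ℝ) (p : ℕ) :
    chain (ext x) β p (k + 1) =
      ⌊x (Fin.last k) * (chain (ext fun j : Fin k => x j.castSucc) β p k : ℝ) + β k⌋₊ := by
  show ⌊ext x k * (chain (ext x) β p k : ℝ) + β k⌋₊ = _
  rw [chain_snoc x β p le_rfl]
  have : ext x k = x (Fin.last k) := by
    unfold ext
    rw [dif_pos (by omega)]
    rfl
  rw [this]

private theorem Basic_ext_mem {k : ℕ} {a b x : Fin k → ℝ} (hx : x ∈ Set.Icc a b) {m : ℕ}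
    (hm : m < k) : a ⟨m, hm⟩ ≤ ext x m ∧ ext x m ≤ b ⟨m, hm⟩ := by
  unfold ext
  rw [dif_pos hm]
  exact ⟨hx.1 _, hx.2 _⟩

theorem chain_size {k : ℕ} (β : ℕ → ℝ) {a b : Fin k → ℝ} (ha : ∀ i, 0 < a i) (hab : ∀ i, a i ≤ b i) :
    ∃ κ1 κ2 X0 : ℝ, 0 < κ1 ∧ κ1 ≤ κ2 ∧ ∀ X : ℝ, X0 ≤ X → ∀ x ∈ Set.Icc a b, ∀ p : ℕ,
      X < (p : ℝ) → (p : ℝ) ≤ 2 * X → ∀ i : ℕ, i ≤ k →
        κ1 * X ≤ (chain (ext x) β p i : ℝ) ∧ (chain (ext x) β p i : ℝ) ≤ κ2 * X := by
  have key : ∀ m : ℕ, m ≤ k → ∃ κ1 κ2 X0 : ℝ, 0 < κ1 ∧ κ1 ≤ κ2 ∧ 1 ≤ X0 ∧ ∀ X : ℝ, X0 ≤ X →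
      ∀ x ∈ Set.Icc a b, ∀ p : ℕ, X < (p : ℝ) → (p : ℝ) ≤ 2 * X → ∀ i : ℕ, i ≤ m →
        κ1 * X ≤ (chain (ext x) β p i : ℝ) ∧ (chain (ext x) β p i : ℝ) ≤ κ2 * X := by
    intro m
    induction m with
    | zero =>
      intro _
      refine ⟨1, 2, 1, one_pos, by norm_num, le_rfl, ?_⟩
      intro X hX x _ p h1 h2 i hi
      obtain rfl : i = 0 := by omega
      show 1 * X ≤ (p : ℝ) ∧ (p : ℝ) ≤ 2 * X
      exact ⟨by linarith, h2⟩
    | succ m ih =>
      intro hm
      obtain ⟨κ1, κ2, X0, h1, h2, h3, h4⟩ := ih (by omega)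
      have hmk : m < k := by omega
      set A := a ⟨m, hmk⟩ with hA
      set B := b ⟨m, hmk⟩ with hB
      have hApos : 0 < A := ha _
      have hAB : A ≤ B := hab _
      have hκ2 : 0 < κ2 := lt_of_lt_of_le h1 h2
      refine ⟨min κ1 (A * κ1 / 2), max κ2 (B * κ2 + 1),
        max X0 (max ((|β m| + 1) / (A * κ1 / 2)) (|β m|)), ?_, ?_, ?_, ?_⟩
      · exact lt_min h1 (by positivity)
      · exact (min_le_left _ _).trans (h2.trans (le_max_left _ _))
      · exact h3.trans (le_max_left _ _)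
      · intro X hX x hx p hp1 hp2 i hi
        have hX0 : X0 ≤ X := (le_max_left _ _).trans hX
        have hXp : 0 < X := by linarith
        have hX1 : (|β m| + 1) / (A * κ1 / 2) ≤ X :=
          (le_max_left _ _).trans ((le_max_right _ _).trans hX)
        have hX2 : |β m| ≤ X := (le_max_right _ _).trans ((le_max_right _ _).trans hX)
        rcases Nat.lt_or_ge m i with him | him
        · obtain rfl : i = m + 1 := by omega
          obtain ⟨h5, h6⟩ := h4 X hX0 x hx p hp1 hp2 m le_rfl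
          obtain ⟨h7, h8⟩ := Basic_ext_mem hx hmk
          have h9 : |β m| + 1 ≤ (A * κ1 / 2) * X := by
            rw [div_le_iff₀ (by positivity)] at hX1
            linarith
          have hb1 := neg_abs_le (β m)
          have hb2 := le_abs_self (β m)
          have h10 : A * (κ1 * X) ≤ ext x m * (chain (ext x) β p m : ℝ) := by
            apply mul_le_mul h7 h5 (by positivity) (by linarith)
          have h11 : ext x m * (chain (ext x) β p m : ℝ) ≤ B * (κ2 * X) := by
            apply mul_le_mul h8 h6 (Nat.cast_nonneg _) (by linarith)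
          have hc : (chain (ext x) β p (m + 1)) =
              ⌊ext x m * (chain (ext x) β p m : ℝ) + β m⌋₊ := rfl
          have h12 := Nat.sub_one_lt_floor (ext x m * (chain (ext x) β p m : ℝ) + β m)
          have h13 : (⌊ext x m * (chain (ext x) β p m : ℝ) + β m⌋₊ : ℝ) ≤
              ext x m * (chain (ext x) β p m : ℝ) + β m := by
            apply Nat.floor_le
            nlinarith
          rw [hc]
          constructor
          · have : min κ1 (A * κ1 / 2) * X ≤ (A * κ1 / 2) * X :=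
              mul_le_mul_of_nonneg_right (min_le_right _ _) hXp.le
            nlinarith
          · have : (B * κ2 + 1) * X ≤ max κ2 (B * κ2 + 1) * X :=
              mul_le_mul_of_nonneg_right (le_max_right _ _) hXp.le
            nlinarith
        · obtain ⟨h5, h6⟩ := h4 X hX0 x hx p hp1 hp2 i him
          constructor
          · exact (mul_le_mul_of_nonneg_right (min_le_left _ _) hXp.le).trans h5
          · exact h6.trans (mul_le_mul_of_nonneg_right (le_max_left _ _) hXp.le)
  obtain ⟨κ1, κ2, X0, h1, h2, _, h4⟩ := key k le_rfl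
  exact ⟨κ1, κ2, X0, h1, h2, h4⟩

theorem ne_step {k : ℕ} (β : ℕ → ℝ) {a b : Fin k → ℝ} (ha : ∀ i, 0 < a i) (hab : ∀ i, a i ≤ b i)
    {η : ℝ} (hη : 0 < η) (hη1 : η ≤ 1 / 20) :
    ∃ X0 : ℝ, ∀ X : ℝ, X0 ≤ X → ∀ x ∈ Set.Icc a b, ∀ p p' : ℕ,
      X < (p : ℝ) → (p : ℝ) ≤ 2 * X → X < (p' : ℝ) → (p' : ℝ) ≤ 2 * X → NE4 X η p p' →
      ∀ i : ℕ, i ≤ k → NE X η (chain (ext x) β p i) (chain (ext x) β p' i) := by
  obtain ⟨κ1, κ2, Xs, hs1, hs2, hs⟩ := chain_size β ha hab
  have key : ∀ m : ℕ, m ≤ k → ∃ A C X0 : ℝ, 0 < A ∧ 0 ≤ C ∧ 1 ≤ X0 ∧ Xs ≤ X0 ∧ ∀ X : ℝ, X0 ≤ X →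
      ∀ x ∈ Set.Icc a b, ∀ p p' : ℕ,
      X < (p : ℝ) → (p : ℝ) ≤ 2 * X → X < (p' : ℝ) → (p' : ℝ) ≤ 2 * X → NE4 X η p p' →
      ∀ i : ℕ, i ≤ m → ∀ u v : ℕ, 1 ≤ u → 1 ≤ v → (u : ℝ) ≤ X ^ η → (v : ℝ) ≤ X ^ η →
        A * X ^ (1 - 4 * η) - C * X ^ η ≤
          |(u : ℝ) * (chain (ext x) β p i : ℝ) - (v : ℝ) * (chain (ext x) β p' i : ℝ)| := by
    intro m
    induction m with
    | zero =>
      intro _
      refine ⟨1, 0, max 1 Xs, one_pos, le_rfl, le_max_left _ _, le_max_right _ _, ?_⟩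
      intro X hX x _ p p' _ _ _ _ hne i hi u v hu hv hu2 hv2
      obtain rfl : i = 0 := by omega
      have := hne u v hu hv hu2 hv2
      show 1 * X ^ (1 - 4 * η) - 0 * X ^ η ≤ |(u : ℝ) * (p : ℝ) - (v : ℝ) * (p' : ℝ)|
      linarith
    | succ m ih =>
      intro hm
      obtain ⟨A, C, X0, h1, h2, h3, h3', h4⟩ := ih (by omega)
      have hmk : m < k := by omega
      set α0 := a ⟨m, hmk⟩ with hα0
      have hα : 0 < α0 := ha _
      refine ⟨min A (α0 * A), C + α0 * C + 2 * (|β m| + 1), max X0 (|β m| / (α0 * κ1)), ?_, ?_, ?_, ?_, ?_⟩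
      · exact lt_min h1 (by positivity)
      · positivity
      · exact h3.trans (le_max_left _ _)
      · exact h3'.trans (le_max_left _ _)
      · intro X hX x hx p p' hp1 hp2 hp3 hp4 hne i hi u v hu hv hu2 hv2
        have hX0 : X0 ≤ X := (le_max_left _ _).trans hX
        have hXp : 0 < X := by linarith
        have hXη : 0 < X ^ η := Real.rpow_pos_of_pos hXp _
        have hX4 : 0 < X ^ (1 - 4 * η) := Real.rpow_pos_of_pos hXp _
        have hm1 : min A (α0 * A) * X ^ (1 - 4 * η) ≤ A * X ^ (1 - 4 * η) :=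
          mul_le_mul_of_nonneg_right (min_le_left _ _) hX4.le
        have hm2 : min A (α0 * A) * X ^ (1 - 4 * η) ≤ (α0 * A) * X ^ (1 - 4 * η) :=
          mul_le_mul_of_nonneg_right (min_le_right _ _) hX4.le
        have hab0 := abs_nonneg (β m)
        rcases Nat.lt_or_ge m i with him | him
        · obtain rfl : i = m + 1 := by omega
          have h5 := h4 X hX0 x hx p p' hp1 hp2 hp3 hp4 hne m le_rfl u v hu hv hu2 hv2
          obtain ⟨h7, h8⟩ := Basic_ext_mem hx hmk
          have hX1 : |β m| ≤ (α0 * κ1) * X := by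
            have := (le_max_right _ _).trans hX
            rw [div_le_iff₀ (by positivity)] at this
            linarith
          have hfl : ∀ q : ℕ, X < (q : ℝ) → (q : ℝ) ≤ 2 * X → ∃ θ : ℝ, 0 ≤ θ ∧ θ ≤ 1 ∧
              (chain (ext x) β q (m + 1) : ℝ) = ext x m * (chain (ext x) β q m : ℝ) + β m - θ := by
            intro q hq1 hq2
            obtain ⟨h9, _⟩ := hs X (h3'.trans hX0) x hx q hq1 hq2 m (by omega)
            have h10 : α0 * (κ1 * X) ≤ ext x m * (chain (ext x) β q m : ℝ) :=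
              mul_le_mul h7 h9 (by positivity) (by linarith)
            have hb1 := neg_abs_le (β m)
            have hc : (chain (ext x) β q (m + 1)) =
              ⌊ext x m * (chain (ext x) β q m : ℝ) + β m⌋₊ := rfl
            have h12 := Nat.sub_one_lt_floor (ext x m * (chain (ext x) β q m : ℝ) + β m)
            have h13 : (⌊ext x m * (chain (ext x) β q m : ℝ) + β m⌋₊ : ℝ) ≤
                ext x m * (chain (ext x) β q m : ℝ) + β m := by
              apply Nat.floor_le
              nlinarith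
            refine ⟨ext x m * (chain (ext x) β q m : ℝ) + β m -
              (⌊ext x m * (chain (ext x) β q m : ℝ) + β m⌋₊ : ℝ), by linarith, by linarith, ?_⟩
            rw [hc]
            ring
          obtain ⟨θ, hθ0, hθ1, hθ⟩ := hfl p hp1 hp2
          obtain ⟨θ', hθ0', hθ1', hθ'⟩ := hfl p' hp3 hp4
          rw [hθ, hθ']
          set c : ℝ := (chain (ext x) β p m : ℝ)
          set c' : ℝ := (chain (ext x) β p' m : ℝ)
          have hu0 : (0 : ℝ) ≤ u := Nat.cast_nonneg _
          have hv0 : (0 : ℝ) ≤ v := Nat.cast_nonneg _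
          have e : (u : ℝ) * (ext x m * c + β m - θ) - v * (ext x m * c' + β m - θ') =
              ext x m * (u * c - v * c') + (u * (β m - θ) - v * (β m - θ')) := by ring
          rw [e]
          have h14 : |u * (β m - θ) - v * (β m - θ')| ≤ 2 * (|β m| + 1) * X ^ η := by
            have h15 : |(u : ℝ) * (β m - θ)| ≤ X ^ η * (|β m| + 1) := by
              rw [abs_mul, abs_of_nonneg hu0]
              apply mul_le_mul hu2 _ (abs_nonneg _) hXη.le
              refine (abs_sub _ _).trans ?_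
              rw [abs_of_nonneg hθ0]
              linarith
            have h16 : |(v : ℝ) * (β m - θ')| ≤ X ^ η * (|β m| + 1) := by
              rw [abs_mul, abs_of_nonneg hv0]
              apply mul_le_mul hv2 _ (abs_nonneg _) hXη.le
              refine (abs_sub _ _).trans ?_
              rw [abs_of_nonneg hθ0']
              linarith
            have := abs_sub ((u : ℝ) * (β m - θ)) ((v : ℝ) * (β m - θ'))
            linarith
          have h17 : α0 * |u * c - v * c'| ≤ |ext x m * (u * c - v * c')| := by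
            rw [abs_mul, abs_of_nonneg (by linarith : 0 ≤ ext x m)]
            exact mul_le_mul_of_nonneg_right h7 (abs_nonneg _)
          have h18 : |ext x m * (u * c - v * c')| - |u * (β m - θ) - v * (β m - θ')| ≤
              |ext x m * (u * c - v * c') + (u * (β m - θ) - v * (β m - θ'))| := by
            have := abs_sub_abs_le_abs_sub (ext x m * (u * c - v * c'))
              (-(u * (β m - θ) - v * (β m - θ')))
            rw [abs_neg, sub_neg_eq_add] at this
            exact this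
          have h19 : α0 * (A * X ^ (1 - 4 * η) - C * X ^ η) ≤ α0 * |u * c - v * c'| :=
            mul_le_mul_of_nonneg_left h5 hα.le
          have h20 : 0 ≤ C * X ^ η := by positivity
          nlinarith
        · have h5 := h4 X hX0 x hx p p' hp1 hp2 hp3 hp4 hne i him u v hu hv hu2 hv2
          have h6 : 0 ≤ (α0 * C + 2 * (|β m| + 1)) * X ^ η := by positivity
          nlinarith
  obtain ⟨A, C, X0, h1, h2, h3, _, h4⟩ := key k le_rfl
  have t1 : ∀ᶠ X : ℝ in atTop, X ^ (-η) < A / 2 :=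
    (tendsto_rpow_neg_atTop hη).eventually (gt_mem_nhds (by positivity))
  have t2 : ∀ᶠ X : ℝ in atTop, X ^ (-(1 - 5 * η)) < A / (2 * (C + 1)) :=
    (tendsto_rpow_neg_atTop (by linarith)).eventually (gt_mem_nhds (by positivity))
  obtain ⟨X1, hX1⟩ := eventually_atTop.1 (t1.and t2)
  refine ⟨max X0 X1, ?_⟩
  intro X hX x hx p p' hp1 hp2 hp3 hp4 hne i hi u v hu hv hu2 hv2
  have h5 := h4 X ((le_max_left _ _).trans hX) x hx p p' hp1 hp2 hp3 hp4 hne i hi u v hu hv hu2 hv2
  obtain ⟨t3, t4⟩ := hX1 X ((le_max_right _ _).trans hX)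
  have hXp : 0 < X := by linarith [(le_max_left X0 X1).trans hX]
  have hX4 : 0 < X ^ (1 - 4 * η) := Real.rpow_pos_of_pos hXp _
  have e1 : X ^ (1 - 5 * η) = X ^ (-η) * X ^ (1 - 4 * η) := by
    rw [← Real.rpow_add hXp]; ring_nf
  have e2 : X ^ η = X ^ (-(1 - 5 * η)) * X ^ (1 - 4 * η) := by
    rw [← Real.rpow_add hXp]; ring_nf
  have h6 : X ^ (1 - 5 * η) ≤ A / 2 * X ^ (1 - 4 * η) := by
    rw [e1]; exact mul_le_mul_of_nonneg_right t3.le hX4.le
  have h7 : C * X ^ η ≤ A / 2 * X ^ (1 - 4 * η) := by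
    rw [e2, ← mul_assoc]
    apply mul_le_mul_of_nonneg_right _ hX4.le
    have h8 : C * X ^ (-(1 - 5 * η)) ≤ C * (A / (2 * (C + 1))) :=
      mul_le_mul_of_nonneg_left t4.le h2
    have h9 : C * (A / (2 * (C + 1))) ≤ A / 2 := by
      have : C * (A / (2 * (C + 1))) = A / 2 * (C / (C + 1)) := by
        field_simp
      rw [this]
      have h10 : C / (C + 1) ≤ 1 := by
        rw [div_le_one (by linarith)]; linarith
      nlinarith
    linarith
  linarith

end MCC
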