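import Pool.Agent.MCC.Moments

/-!
# MCC.BoxP: in every box a positive proportion of the multipliers

PROOF. Paley-Zygmund. `V = ∏ (b i - a i)`, `L = 2^r/(log 2^r)^k`, `c1 = 2^(-k-1)`, `C` from `second_moment`. Let
`A = {x ∈ box : c1 L/2 ≤ NS β r x}`. Then `c1 V L ≤ ∫ NS ≤ (c1 L/2) V + ∫_A NS` and
`∫_A NS ≤ (∫ NS²)^(1/2) |A|^(1/2) ≤ (C V L²)^(1/2) |A|^(1/2)` (Cauchy-Schwarz;
`ENNReal.lintegral_mul_le_Lp_mul_Lq`), so `|A| ≥ (c1/2)² V/C`.
-/

namespace MCC

open MeasureTheory Filter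

private theorem BoxP_real {c2 C V L m : ℝ} (hc2 : 0 < c2) (hC : 0 < C) (hV : 0 < V) (hL : 0 < L)
    (hm : 0 ≤ m)
    (h : 2 * c2 * V * L ≤ c2 * L * V + m ^ (1 / 2 : ℝ) * (C * V * L ^ 2) ^ (1 / 2 : ℝ)) :
    c2 ^ 2 / C * V ≤ m := by
  rw [← Real.sqrt_eq_rpow, ← Real.sqrt_eq_rpow, ← Real.sqrt_mul hm] at h
  have h1 : c2 * V * L ≤ Real.sqrt (m * (C * V * L ^ 2)) := by nlinarith
  have h0 : 0 ≤ m * (C * V * L ^ 2) := by positivity
  have h2 : (c2 * V * L) ^ 2 ≤ m * (C * V * L ^ 2) := by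
    calc (c2 * V * L) ^ 2 ≤ Real.sqrt (m * (C * V * L ^ 2)) ^ 2 := by
          apply pow_le_pow_left₀ (by positivity) h1
      _ = _ := Real.sq_sqrt h0
  have h3 : c2 ^ 2 * V * (V * L ^ 2) ≤ m * C * (V * L ^ 2) := by nlinarith
  have h4 : c2 ^ 2 * V ≤ m * C := le_of_mul_le_mul_right h3 (by positivity)
  rw [div_mul_eq_mul_div, div_le_iff₀ hC]
  exact h4

theorem box_pos {k : ℕ} (hk : 1 ≤ k) : ∃ c : ℝ, 0 < c ∧ ∀ (β : ℕ → ℝ) (a b : Fin k → ℝ),
    (∀ i, 0 < a i) → (∀ i, a i < b i) → ∃ r0 : ℕ, ∀ r : ℕ, r0 ≤ r →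
    ENNReal.ofReal (c * ∏ i, (b i - a i)) ≤
      volume {x : Fin k → ℝ | x ∈ Set.Icc a b ∧
        (1 / 2) ^ (k + 2) * (2 ^ r / Real.log (2 ^ r) ^ k) ≤ (NS β r x : ℝ)} := by
  obtain ⟨C, hC, hCs⟩ := second_moment (k := k) hk
  refine ⟨((1 / 2) ^ (k + 2)) ^ 2 / C, by positivity, ?_⟩
  intro β a b ha hab
  obtain ⟨r1, hr1⟩ := first_moment hk β ha hab
  obtain ⟨r2, hr2⟩ := hCs β a b ha hab
  refine ⟨max 1 (max r1 r2), ?_⟩
  intro r hr
  have hr0 : 1 ≤ r := le_trans (le_max_left _ _) hr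
  have h1 := hr1 r (le_trans (le_trans (le_max_left _ _) (le_max_right _ _)) hr)
  have h2 := hr2 r (le_trans (le_trans (le_max_right _ _) (le_max_right _ _)) hr)
  have hV : 0 < ∏ i, (b i - a i) := Finset.prod_pos fun i _ => sub_pos.mpr (hab i)
  have hL : 0 < (2 : ℝ) ^ r / Real.log (2 ^ r) ^ k := by
    have : 0 < Real.log ((2 : ℝ) ^ r) := by
      apply Real.log_pos
      exact one_lt_pow₀ (by norm_num) (by omega)
    positivity
  have hvol : volume (Set.Icc a b) = ENNReal.ofReal (∏ i, (b i - a i)) := by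
    rw [Real.volume_Icc_pi, ENNReal.ofReal_prod_of_nonneg]
    intro i _
    exact (sub_pos.mpr (hab i)).le
  generalize hVd : ∏ i, (b i - a i) = V at h1 h2 hV hvol ⊢
  generalize hLd : (2 : ℝ) ^ r / Real.log (2 ^ r) ^ k = L at h1 h2 hL ⊢
  have hc2 : (0 : ℝ) < (1 / 2) ^ (k + 2) := by positivity
  have hc1 : ((1 : ℝ) / 2) ^ (k + 1) = 2 * (1 / 2) ^ (k + 2) := by
    rw [pow_succ _ (k + 1)]
    ring
  rw [hc1] at h1
  generalize (1 / 2 : ℝ) ^ (k + 2) = c2 at h1 hc2 ⊢
  set A : Set (Fin k → ℝ) := {x : Fin k → ℝ | x ∈ Set.Icc a b ∧ c2 * L ≤ (NS β r x : ℝ)} with hA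
  have hmeasN : Measurable fun x : Fin k → ℝ => (NS β r x : ENNReal) :=
    (Measurable.of_discrete (f := fun n : ℕ => (n : ENNReal))).comp (NS_meas β r)
  have hmeasR : Measurable fun x : Fin k → ℝ => (NS β r x : ℝ) :=
    (Measurable.of_discrete (f := fun n : ℕ => (n : ℝ))).comp (NS_meas β r)
  have hmeasA : MeasurableSet A := by
    apply MeasurableSet.inter measurableSet_Icc
    exact measurableSet_le measurable_const hmeasR
  have hAle : volume A ≤ ENNReal.ofReal V := by
    rw [← hvol]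
    apply measure_mono
    intro x hx
    exact hx.1
  have hAfin : volume A ≠ ⊤ := ne_top_of_le_ne_top ENNReal.ofReal_ne_top hAle
  -- split
  have h3 : (∫⁻ x in Set.Icc a b, (NS β r x : ENNReal)) ≤
      ENNReal.ofReal (c2 * L) * ENNReal.ofReal V +
        ∫⁻ x in Set.Icc a b, (A.indicator (fun _ => (1 : ENNReal)) x) * (NS β r x : ENNReal) := by
    calc (∫⁻ x in Set.Icc a b, (NS β r x : ENNReal))
        ≤ ∫⁻ x in Set.Icc a b, (ENNReal.ofReal (c2 * L) +
            (A.indicator (fun _ => (1 : ENNReal)) x) * (NS β r x : ENNReal)) := by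
          apply setLIntegral_mono_ae
          · apply Measurable.aemeasurable
            apply Measurable.const_add
            exact (measurable_const.indicator hmeasA).mul hmeasN
          · refine Filter.Eventually.of_forall ?_
            intro x hx
            by_cases hxA : x ∈ A
            · rw [Set.indicator_of_mem hxA, one_mul]
              exact le_add_self
            · rw [Set.indicator_of_notMem hxA, zero_mul, add_zero]
              have : ¬ c2 * L ≤ (NS β r x : ℝ) := fun h => hxA ⟨hx, h⟩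
              rw [← ENNReal.ofReal_natCast]
              exact ENNReal.ofReal_le_ofReal (le_of_lt (not_le.mp this))
      _ = _ := by
          rw [lintegral_add_left measurable_const, setLIntegral_const, hvol]
  have h4 : (∫⁻ x in Set.Icc a b,
      (A.indicator (fun _ => (1 : ENNReal)) x) * (NS β r x : ENNReal)) ≤
      volume A ^ (1 / 2 : ℝ) * (ENNReal.ofReal (C * V * L ^ 2)) ^ (1 / 2 : ℝ) := by
    have hh := ENNReal.lintegral_mul_le_Lp_mul_Lq (μ := volume.restrict (Set.Icc a b))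
      (p := 2) (q := 2) (Real.HolderConjugate.two_two)
      (f := A.indicator (fun _ => (1 : ENNReal))) (g := fun x => (NS β r x : ENNReal))
      (measurable_const.indicator hmeasA).aemeasurable hmeasN.aemeasurable
    refine hh.trans ?_
    apply mul_le_mul'
    · apply ENNReal.rpow_le_rpow _ (by norm_num)
      calc (∫⁻ x in Set.Icc a b, (A.indicator (fun _ => (1 : ENNReal)) x) ^ (2 : ℝ))
          = ∫⁻ x in Set.Icc a b, A.indicator (fun _ => (1 : ENNReal)) x := by
            apply lintegral_congr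
            intro x
            by_cases hxA : x ∈ A
            · rw [Set.indicator_of_mem hxA, ENNReal.one_rpow]
            · rw [Set.indicator_of_notMem hxA]
              exact ENNReal.zero_rpow_of_pos (by norm_num)
        _ ≤ ∫⁻ x, A.indicator (fun _ => (1 : ENNReal)) x := setLIntegral_le_lintegral _ _
        _ = volume A := by
            rw [lintegral_indicator hmeasA]
            simp
    · apply ENNReal.rpow_le_rpow _ (by norm_num)
      refine le_trans (le_of_eq ?_) h2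
      apply lintegral_congr
      intro x
      rw [ENNReal.rpow_ofNat]
  have h5 := h1.trans (h3.trans (add_le_add_right h4 _))
  have h6 : 2 * c2 * V * L ≤ c2 * L * V + (volume A).toReal ^ (1 / 2 : ℝ) *
      (C * V * L ^ 2) ^ (1 / 2 : ℝ) := by
    rw [← ENNReal.ofReal_toReal hAfin, ENNReal.ofReal_rpow_of_nonneg ENNReal.toReal_nonneg
      (by norm_num), ENNReal.ofReal_rpow_of_nonneg (by positivity) (by norm_num),
      ← ENNReal.ofReal_mul (by positivity), ← ENNReal.ofReal_mul (by positivity),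
      ← ENNReal.ofReal_add (by positivity) (by positivity)] at h5
    exact (ENNReal.ofReal_le_ofReal_iff (by positivity)).mp h5
  have h7 := BoxP_real hc2 hC hV hL ENNReal.toReal_nonneg h6
  rw [← ENNReal.ofReal_toReal hAfin]
  exact ENNReal.ofReal_le_ofReal h7

end MCC
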