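import Mathlib

/-!
# MCC: Cunningham chains for almost every sequence of multipliers.  Definitions

For sequences `α`, `β` of reals the chain of a natural number `p` is `c 0 = p`,
`c (n+1) = ⌊α n * c n + β n⌋` (`α n = 2`, `β n = 1` is the Cunningham chain of the first kind). We prove
that for almost every `α` and every `k ≥ 1` infinitely many primes `p` start a chain of exact length `k`.
Method: the measure of the `α` in a box for which there is such a `p` in `(X, 2X]` is at least `c` times
the volume of the box, with an absolute `c` (second moment; the second moment is bounded with Selberg's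
majorant of the primes for the pairs of chains; the first one with the prime number theorem), and
Lebesgue's density theorem.
-/

namespace MCC

open MeasureTheory

/-- The chain `c 0 = p`, `c (n+1) = ⌊α n * c n + β n⌋`. -/
noncomputable def chain (α β : ℕ → ℝ) (p : ℕ) : ℕ → ℕ
  | 0 => p
  | n + 1 => ⌊α n * (chain α β p n : ℝ) + β n⌋₊

/-- `p` starts a chain of exact length `k`. -/
def StartsExact (α β : ℕ → ℝ) (p k : ℕ) : Prop :=
  (∀ i < k, (chain α β p i).Prime) ∧ 1 < chain α β p k ∧ ¬ (chain α β p k).Prime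

/-- A finite sequence extended by `1`. -/
def ext {k : ℕ} (x : Fin k → ℝ) (n : ℕ) : ℝ := if h : n < k then x ⟨n, h⟩ else 1

open Classical in
/-- The number of `p ∈ (2^r, 2^(r+1)]` which start a chain of exact length `k`. -/
noncomputable def NS {k : ℕ} (β : ℕ → ℝ) (r : ℕ) (x : Fin k → ℝ) : ℕ :=
  ((Finset.Ioc (2 ^ r) (2 ^ (r + 1))).filter fun p => StartsExact (ext x) β p k).card

/-- The pair `m`, `m'` is in general position: `|u m - v m'| ≥ X ^ (1 - 5 η)` for `1 ≤ u, v ≤ X ^ η`. -/
def NE (X η : ℝ) (m m' : ℕ) : Prop :=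
  ∀ u v : ℕ, 1 ≤ u → 1 ≤ v → (u : ℝ) ≤ X ^ η → (v : ℝ) ≤ X ^ η →
    X ^ (1 - 5 * η) ≤ |(u : ℝ) * m - (v : ℝ) * m'|

/-- The same with `X ^ (1 - 4 η)`. -/
def NE4 (X η : ℝ) (m m' : ℕ) : Prop :=
  ∀ u v : ℕ, 1 ≤ u → 1 ≤ v → (u : ℝ) ≤ X ^ η → (v : ℝ) ≤ X ^ η →
    X ^ (1 - 4 * η) ≤ |(u : ℝ) * m - (v : ℝ) * m'|

end MCC
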