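import Mathlib

/-!
# MCC.Dens: a set of positive proportion in every box has full measure

PROOF. By Lebesgue's density theorem
(`Besicovitch.ae_tendsto_measure_inter_div_of_measurableSet` for `volume` on `Fin k → ℝ`; the closed balls of
the sup norm are the cubes `Set.Icc (x - r) (x + r)`, `Real.closedBall_eq_Icc`/`closedBall_pi`) for almost every
`x` the ratio `vol (S ∩ closedBall x r)/vol (closedBall x r)` tends to the indicator of `S` at `x` as `r → 0+`.
For small `r` the cube lies in the positive orthant and `vol (S ∩ cube) ≥ c vol cube`, so that the limit is not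
`0` and `x ∈ S`.
-/

namespace MCC

open MeasureTheory Filter

private theorem Dens_ball {k : ℕ} (x : Fin k → ℝ) {r : ℝ} (hr : 0 < r) :
    Metric.closedBall x r = Set.Icc (fun i => x i - r) (fun i => x i + r) := by
  rw [closedBall_pi x hr.le, ← Set.pi_univ_Icc]
  simp only [Real.closedBall_eq_Icc]

theorem dens {k : ℕ} {S : Set (Fin k → ℝ)} (hS : MeasurableSet S) {c : ℝ} (hc : 0 < c)
    (h : ∀ a b : Fin k → ℝ, (∀ i, 0 < a i) → (∀ i, a i < b i) →
      ENNReal.ofReal (c * ∏ i, (b i - a i)) ≤ volume (S ∩ Set.Icc a b)) :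
    ∀ᵐ x : Fin k → ℝ, (∀ i, 0 < x i) → x ∈ S := by
  filter_upwards [Besicovitch.ae_tendsto_measure_inter_div_of_measurableSet
    (volume : Measure (Fin k → ℝ)) hS] with x hx hpos
  by_contra hxS
  rw [Set.indicator_of_notMem hxS] at hx
  have hev : ∀ᶠ r : ℝ in nhdsWithin 0 (Set.Ioi 0), ENNReal.ofReal c ≤
      volume (S ∩ Metric.closedBall x r) / volume (Metric.closedBall x r) := by
    have h1 : ∀ᶠ r : ℝ in nhdsWithin 0 (Set.Ioi 0), ∀ i, r < x i := by
      rw [eventually_all]
      intro i
      exact nhdsWithin_le_nhds (Iio_mem_nhds (hpos i))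
    filter_upwards [h1, self_mem_nhdsWithin] with r hr hr0
    have hr0' : 0 < r := hr0
    rw [Dens_ball x hr0']
    have hh := h (fun i => x i - r) (fun i => x i + r) (fun i => sub_pos.2 (hr i))
      (fun i => by linarith)
    have hprod : (0 : ℝ) < ∏ i : Fin k, ((x i + r) - (x i - r)) :=
      Finset.prod_pos (fun i _ => by linarith)
    have hvol : volume (Set.Icc (fun i => x i - r) (fun i => x i + r)) =
        ENNReal.ofReal (∏ i : Fin k, ((x i + r) - (x i - r))) := by
      rw [Real.volume_Icc_pi, ENNReal.ofReal_prod_of_nonneg (fun i _ => by linarith)]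
    rw [hvol]
    rw [ENNReal.ofReal_mul hc.le] at hh
    rw [ENNReal.le_div_iff_mul_le]
    · exact hh
    · left
      exact (ENNReal.ofReal_pos.2 hprod).ne'
    · left
      exact ENNReal.ofReal_ne_top
  have hle : ENNReal.ofReal c ≤ 0 := ge_of_tendsto hx hev
  exact absurd hle (not_le.2 (ENNReal.ofReal_pos.2 hc))

end MCC
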