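import Pool.Agent.MCC.Defs

/-!
# MCC.Equi: joint distribution of `⌊t m + β⌋` and `⌊t m' + β⌋` modulo small numbers

PROOF. Put `D = X^(η/16)`, `ε = X^(-η/4)`, `H = X^(3η/4)`. For large `X` and `t ≥ a` we have
`t m + β > 0`, and for a natural `d ≥ 1` and real `y > 0`: `d ∣ ⌊y⌋₊ ↔ Int.fract (y/d) < 1/d`. Let
`φ⁺_d`, `φ⁻_d` be the 1-periodic trapezoids with `0 ≤ φ⁻_d ≤ 1[fract < 1/d] ≤ φ⁺_d ≤ 1`,
`∫_0^1 φ^±_d = 1/d ± ε` (convolution of the indicator of an interval of length `1/d ± ε` with `1/ε` times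
the indicator of an interval of length `ε`): its Fourier coefficients satisfy
`|φ̂ h| ≤ min 1 (1/(ε h²))`, so `∑_h |φ̂ h| ≤ C/ε` and `∑_{|h|>H} |φ̂ h| ≤ C/(ε H)`, and `φ` is the sum of
its Fourier series (absolutely convergent, continuous function). Then
`∫_a^b φ_d((tm+β)/d) φ_e((tm'+β)/e) dt = ∑_{h,h'} φ̂_d h φ̂_e h' e(..) ∫_a^b e(t (h m/d + h' m'/e)) dt`.
The term `(0,0)` is `(b-a)(1/d ± ε)(1/e ± ε)`. For `(h,h') ≠ 0`, `|h|, |h'| ≤ H`, the integral is at most
`1/(π |h m/d + h' m'/e|) = d e/(π |h e m + h' d m'|)`, and `|h e m + h' d m'| ≥ X^(1-5η)`: if `h`, `h'` have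
opposite signs use `NE` with `u = |h| e`, `v = |h'| d` (`≤ H D ≤ X^η`); otherwise it is `≥ κ1 X`. So these terms
contribute at most `(C/ε)² D² X^(5η-1) ≤ X^(-1/2)`, and the tails at most `2 (b-a) (C/ε) (C/(εH)) ≤
C' (b-a) X^(-η/4)`. Altogether the error is `≤ C'' (1 + b - a) X^(-η/4) ≤ X^(-η/5)` for large `X`.
(One may also use trigonometric majorants and minorants already in the tree.)

The proof below is a different one, without Fourier series: let `f t = 1[d ∣ ⌊t m + β⌋]` (period `d/m`) and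
`g t = 1[e ∣ ⌊t m' + β⌋]`. For each `q` the integral of `f g` changes by at most `q d/m` when `f(t) g(t)` is
replaced by the average over `j < q` of `f(t) g(t + j d/m)`. With `θ = d m'/(e m)` and a Dirichlet
approximation `|θ - r/q| ≤ 1/((n+1) q)`, `q ≤ n = ⌊X^(6η)⌋`, the average over `j < q` of `g(t + j d/m)` is
`1/e + O(1/q)`, because the fractional parts of `z + j θ` are well distributed (`Equi_count`). The
condition `NE` gives `q ≥ X^(η/2)`. Finally the integral of `f` is `(b - a)/d + O(d/m)`.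
-/

namespace MCC

open MeasureTheory Filter

private theorem Equi_upper {θ : ℝ} {q : ℕ} (hq : 0 < q) {r : ℤ} (hc : IsCoprime (q : ℤ) r)
    (hθ : |θ - r / q| ≤ 1 / (q : ℝ) ^ 2) (z lam : ℝ) (h0 : 0 ≤ lam) :
    (((Finset.range q).filter fun j : ℕ => Int.fract (z + j * θ) < lam).card : ℝ) ≤
      q * lam + 3 := by
  have hq' : (0 : ℝ) < q := by exact_mod_cast hq
  set A := (Finset.range q).filter fun j : ℕ => Int.fract (z + j * θ) < lam with hA
  have hinj : Set.InjOn (fun j : ℕ => (j : ℤ) * r - q * ⌊z + j * θ⌋) (A : Set ℕ) := by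
    intro i hi j hj hij
    have hi' : i < q := Finset.mem_range.1 (Finset.mem_filter.1 (Finset.mem_coe.1 hi)).1
    have hj' : j < q := Finset.mem_range.1 (Finset.mem_filter.1 (Finset.mem_coe.1 hj)).1
    have hij' : (i : ℤ) * r - q * ⌊z + i * θ⌋ = (j : ℤ) * r - q * ⌊z + j * θ⌋ := hij
    have h1 : (q : ℤ) ∣ ((i : ℤ) - j) * r :=
      ⟨⌊z + i * θ⌋ - ⌊z + j * θ⌋, by linear_combination hij'⟩
    have h2 : (q : ℤ) ∣ (i : ℤ) - j := hc.dvd_of_dvd_mul_right h1
    have h3 : |(i : ℤ) - j| < q := by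
      rw [abs_lt]
      constructor <;> omega
    have h4 := Int.eq_zero_of_abs_lt_dvd h2 h3
    omega
  have hsub : A.image (fun j : ℕ => (j : ℤ) * r - q * ⌊z + j * θ⌋) ⊆
      Finset.Icc (⌊-(q * z) - 1⌋ + 1) (⌈q * lam - q * z + 1⌉ - 1) := by
    intro n hn
    obtain ⟨j, hj, rfl⟩ := Finset.mem_image.1 hn
    have hj1 : j < q := Finset.mem_range.1 (Finset.mem_filter.1 hj).1
    have hj2 : Int.fract (z + j * θ) < lam := (Finset.mem_filter.1 hj).2
    have hj3 : 0 ≤ Int.fract (z + j * θ) := Int.fract_nonneg _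
    have hjr : (j : ℝ) < q := by exact_mod_cast hj1
    have hj0 : (0 : ℝ) ≤ j := Nat.cast_nonneg j
    have e1 : (((j : ℤ) * r - q * ⌊z + j * θ⌋ : ℤ) : ℝ) =
        q * Int.fract (z + j * θ) - q * z - q * j * (θ - r / q) := by
      push_cast
      rw [← Int.self_sub_floor (z + j * θ)]
      field_simp
      ring
    have e2 : |q * j * (θ - r / q)| < 1 := by
      rw [abs_mul, abs_of_nonneg (by positivity)]
      calc (q : ℝ) * j * |θ - r / q| ≤ q * j * (1 / (q : ℝ) ^ 2) :=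
            mul_le_mul_of_nonneg_left hθ (by positivity)
        _ = j / q := by field_simp
        _ < 1 := (div_lt_one hq').2 hjr
    rw [abs_lt] at e2
    have e3 : (q : ℝ) * Int.fract (z + j * θ) < q * lam := mul_lt_mul_of_pos_left hj2 hq'
    have e4 : 0 ≤ (q : ℝ) * Int.fract (z + j * θ) := by positivity
    rw [Finset.mem_Icc]
    constructor
    · have : ⌊-(q * z) - 1⌋ < (j : ℤ) * r - q * ⌊z + j * θ⌋ := by
        rw [Int.floor_lt, e1]
        linarith [e2.2]
      omega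
    · have : (j : ℤ) * r - q * ⌊z + j * θ⌋ < ⌈q * lam - q * z + 1⌉ := by
        rw [Int.lt_ceil, e1]
        linarith [e2.1]
      omega
  have hcard : A.card ≤ (Finset.Icc (⌊-(q * z) - 1⌋ + 1) (⌈q * lam - q * z + 1⌉ - 1)).card := by
    rw [← Finset.card_image_of_injOn hinj]
    exact Finset.card_le_card hsub
  rw [Int.card_Icc] at hcard
  have h1 : (A.card : ℝ) ≤
      (((⌈q * lam - q * z + 1⌉ - 1 + 1 - (⌊-(q * z) - 1⌋ + 1)).toNat : ℕ) : ℝ) := by
    exact_mod_cast hcard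
  refine h1.trans ?_
  have h2 := Int.ceil_lt_add_one (q * lam - q * z + 1)
  have h3 := Int.sub_one_lt_floor (-(q * z) - 1)
  have h4 : (0 : ℝ) ≤ q * lam + 3 := by positivity
  rcases le_total 0 (⌈q * lam - q * z + 1⌉ - 1 + 1 - (⌊-(q * z) - 1⌋ + 1)) with h5 | h5
  · have h6 : (((⌈q * lam - q * z + 1⌉ - 1 + 1 - (⌊-(q * z) - 1⌋ + 1)).toNat : ℕ) : ℝ) =
        ((⌈q * lam - q * z + 1⌉ - 1 + 1 - (⌊-(q * z) - 1⌋ + 1) : ℤ) : ℝ) := by
      have := Int.toNat_of_nonneg h5
      exact_mod_cast congrArg (fun x : ℤ => (x : ℝ)) this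
    rw [h6]
    push_cast
    linarith
  · rw [Int.toNat_of_nonpos h5]
    simpa using h4

private theorem Equi_count {θ : ℝ} {q : ℕ} (hq : 0 < q) {r : ℤ} (hc : IsCoprime (q : ℤ) r)
    (hθ : |θ - r / q| ≤ 1 / (q : ℝ) ^ 2) (z lam : ℝ) (h0 : 0 ≤ lam) (h1 : lam ≤ 1) :
    |(((Finset.range q).filter fun j : ℕ => Int.fract (z + j * θ) < lam).card : ℝ) -
      q * lam| ≤ 3 := by
  have hu := Equi_upper hq hc hθ z lam h0
  have hl := Equi_upper hq hc hθ (z - lam) (1 - lam) (by linarith)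
  have hsum := Finset.card_filter_add_card_filter_not (s := Finset.range q)
    (fun j : ℕ => Int.fract (z + j * θ) < lam)
  have hsub : ((Finset.range q).filter fun j : ℕ => ¬ Int.fract (z + j * θ) < lam).card ≤
      ((Finset.range q).filter fun j : ℕ => Int.fract (z - lam + j * θ) < 1 - lam).card := by
    refine Finset.card_le_card ?_
    intro j hj
    rw [Finset.mem_filter] at hj ⊢
    refine ⟨hj.1, ?_⟩
    have h2 := not_lt.1 hj.2
    have h3 := Int.fract_lt_one (z + j * θ)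
    have h4 : Int.fract (z - lam + j * θ) = Int.fract (z + j * θ) - lam := by
      rw [Int.fract_eq_iff]
      refine ⟨by linarith, by linarith, ⌊z + j * θ⌋, ?_⟩
      rw [← Int.self_sub_floor (z + j * θ)]
      ring
    rw [h4]
    linarith
  rw [Finset.card_range] at hsum
  have hsum' : (((Finset.range q).filter fun j : ℕ => Int.fract (z + j * θ) < lam).card : ℝ) +
      (((Finset.range q).filter fun j : ℕ => ¬ Int.fract (z + j * θ) < lam).card : ℝ) = q := by
    exact_mod_cast hsum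
  have hsub' : (((Finset.range q).filter fun j : ℕ => ¬ Int.fract (z + j * θ) < lam).card : ℝ) ≤
      (((Finset.range q).filter fun j : ℕ => Int.fract (z - lam + j * θ) < 1 - lam).card : ℝ) := by
    exact_mod_cast hsub
  rw [abs_le]
  constructor
  · have : (q : ℝ) * (1 - lam) = q - q * lam := by ring
    linarith
  · linarith

private theorem Equi_dvd {e : ℕ} (he : 1 ≤ e) (y : ℝ) :
    (e : ℤ) ∣ ⌊y⌋ ↔ Int.fract (y / e) < 1 / e := by
  have he' : (0 : ℝ) < e := by exact_mod_cast he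
  have he1 : (1 : ℝ) ≤ e := by exact_mod_cast he
  constructor
  · rintro ⟨k, hk⟩
    have h1 : (⌊y⌋ : ℝ) = e * k := by rw [hk]; push_cast; ring
    have h2 := Int.floor_le y
    have h3 := Int.lt_floor_add_one y
    rw [h1] at h2 h3
    have h4 : Int.fract (y / e) = y / e - k := by
      rw [Int.fract_eq_iff]
      refine ⟨?_, ?_, k, by ring⟩
      · rw [sub_nonneg, le_div_iff₀ he']
        linarith
      · rw [sub_lt_iff_lt_add, div_lt_iff₀ he']
        nlinarith
    rw [h4, sub_lt_iff_lt_add, div_lt_iff₀ he', add_mul, one_div_mul_cancel he'.ne']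
    linarith
  · intro h
    refine ⟨⌊y / e⌋, ?_⟩
    rw [← Int.self_sub_floor, sub_lt_iff_lt_add, div_lt_iff₀ he', add_mul,
      one_div_mul_cancel he'.ne'] at h
    have h2 := Int.floor_le (y / e)
    rw [le_div_iff₀ he'] at h2
    rw [Int.floor_eq_iff]
    push_cast
    constructor
    · linarith
    · linarith

/-- measurable functions with values in `[0, 1]` -/
private structure Equi_Good (h : ℝ → ℝ) : Prop where
  meas : Measurable h
  lo : ∀ t, 0 ≤ h t
  up : ∀ t, h t ≤ 1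

private theorem Equi_Good.ii {h : ℝ → ℝ} (H : Equi_Good h) (a b : ℝ) :
    IntervalIntegrable h volume a b := by
  rw [intervalIntegrable_iff]
  refine Measure.integrableOn_of_bounded (M := 1) ?_ H.meas.aestronglyMeasurable ?_
  · rw [Set.uIoc]
    exact measure_Ioc_lt_top.ne
  · refine Filter.Eventually.of_forall fun t => ?_
    rw [Real.norm_eq_abs, abs_of_nonneg (H.lo t)]
    exact H.up t

private theorem Equi_Good.int {h : ℝ → ℝ} (H : Equi_Good h) {a b : ℝ} (hab : a ≤ b) :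
    0 ≤ ∫ t in a..b, h t ∧ ∫ t in a..b, h t ≤ b - a := by
  constructor
  · exact intervalIntegral.integral_nonneg hab fun t _ => H.lo t
  · calc ∫ t in a..b, h t ≤ ∫ _t in a..b, (1 : ℝ) :=
          intervalIntegral.integral_mono_on hab (H.ii a b)
            intervalIntegrable_const fun t _ => H.up t
      _ = b - a := by simp

private theorem Equi_Good.mul {h k : ℝ → ℝ} (H : Equi_Good h) (K : Equi_Good k) :
    Equi_Good fun t => h t * k t :=
  ⟨H.meas.mul K.meas, fun t => mul_nonneg (H.lo t) (K.lo t),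
    fun t => mul_le_one₀ (H.up t) (K.lo t) (K.up t)⟩

private theorem Equi_Good.shift {h : ℝ → ℝ} (H : Equi_Good h) (s : ℝ) :
    Equi_Good fun t => h (t + s) :=
  ⟨H.meas.comp (measurable_id.add_const s), fun t => H.lo _, fun t => H.up _⟩

private theorem Equi_shift {h : ℝ → ℝ} (H : Equi_Good h) (a b : ℝ) {s : ℝ} (hs : 0 ≤ s) :
    |(∫ t in a..b, h (t + s)) - ∫ t in a..b, h t| ≤ s := by
  rw [intervalIntegral.integral_comp_add_right (fun t => h t) s]
  have h1 := intervalIntegral.integral_add_adjacent_intervals (H.ii a b) (H.ii b (b + s))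
  have h2 := intervalIntegral.integral_add_adjacent_intervals (H.ii a (a + s))
    (H.ii (a + s) (b + s))
  have h3 := H.int (le_add_of_nonneg_right hs : b ≤ b + s)
  have h4 := H.int (le_add_of_nonneg_right hs : a ≤ a + s)
  rw [abs_le]
  constructor <;> linarith [h3.1, h3.2, h4.1, h4.2]

private theorem Equi_avg {k : ℝ → ℝ} (K : Equi_Good k) (a b : ℝ) {T : ℝ} (hT : 0 ≤ T) (q : ℕ) :
    |(∑ j ∈ Finset.range q, ∫ t in a..b, k (t + j * T)) - q * ∫ t in a..b, k t| ≤
      q * (q * T) := by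
  have h1 : (∑ j ∈ Finset.range q, ∫ t in a..b, k (t + j * T)) - q * ∫ t in a..b, k t =
      ∑ j ∈ Finset.range q, ((∫ t in a..b, k (t + j * T)) - ∫ t in a..b, k t) := by
    rw [Finset.sum_sub_distrib, Finset.sum_const, Finset.card_range, nsmul_eq_mul]
  rw [h1]
  refine (Finset.abs_sum_le_sum_abs _ _).trans ?_
  calc ∑ j ∈ Finset.range q, |(∫ t in a..b, k (t + j * T)) - ∫ t in a..b, k t| ≤
      ∑ _j ∈ Finset.range q, (q : ℝ) * T := by
        refine Finset.sum_le_sum fun j hj => ?_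
        have hj' : (j : ℝ) ≤ q := by exact_mod_cast (Finset.mem_range.1 hj).le
        exact (Equi_shift K a b (by positivity)).trans (mul_le_mul_of_nonneg_right hj' hT)
    _ = q * (q * T) := by rw [Finset.sum_const, Finset.card_range, nsmul_eq_mul]

open Classical in
/-- the indicator of `d ∣ ⌊t m + β⌋` -/
private noncomputable def Equi_f (d m : ℕ) (β : ℝ) (t : ℝ) : ℝ :=
  if (d : ℤ) ∣ ⌊t * m + β⌋ then 1 else 0

private theorem Equi_f_good (d m : ℕ) (β : ℝ) : Equi_Good (Equi_f d m β) := by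
  classical
  refine ⟨?_, fun t => ?_, fun t => ?_⟩
  · unfold Equi_f
    refine Measurable.ite ?_ measurable_const measurable_const
    have h1 : Measurable fun t : ℝ => ⌊t * (m : ℝ) + β⌋ :=
      Int.measurable_floor.comp ((measurable_id.mul_const _).add_const _)
    exact h1 (MeasurableSet.of_discrete (s := {n : ℤ | (d : ℤ) ∣ n}))
  · unfold Equi_f
    split_ifs <;> norm_num
  · unfold Equi_f
    split_ifs <;> norm_num

private theorem Equi_f_period {d m : ℕ} (hm : 0 < m) (β : ℝ) (t : ℝ) (j : ℕ) :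
    Equi_f d m β (t + j * (d / m)) = Equi_f d m β t := by
  classical
  have hm' : (m : ℝ) ≠ 0 := by exact_mod_cast hm.ne'
  have h1 : (t + j * (d / m)) * (m : ℝ) + β = (t * m + β) + ((j * d : ℕ) : ℝ) := by
    push_cast
    field_simp
    ring
  unfold Equi_f
  rw [h1, Int.floor_add_natCast]
  have h2 : (d : ℤ) ∣ ⌊t * (m : ℝ) + β⌋ + ((j * d : ℕ) : ℤ) ↔ (d : ℤ) ∣ ⌊t * (m : ℝ) + β⌋ := by
    refine Int.dvd_add_left ?_
    push_cast
    exact Dvd.intro_left _ rfl
  simp only [h2]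

private theorem Equi_f_sum {d m : ℕ} (hd : 1 ≤ d) (hm : 0 < m) (β : ℝ) (t : ℝ) :
    ∑ j ∈ Finset.range d, Equi_f d m β (t + j * (1 / m)) = 1 := by
  classical
  have hm' : (m : ℝ) ≠ 0 := by exact_mod_cast hm.ne'
  have h1 : ∀ j : ℕ, (t + j * (1 / m)) * (m : ℝ) + β = (t * m + β) + (j : ℝ) := by
    intro j
    field_simp
    ring
  unfold Equi_f
  simp only [h1, Int.floor_add_natCast]
  obtain ⟨n, hn⟩ : ∃ n : ℤ, n = ⌊t * (m : ℝ) + β⌋ := ⟨_, rfl⟩
  rw [← hn]
  have hd' : (0 : ℤ) < d := by exact_mod_cast hd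
  have h2 : 0 ≤ (-n) % (d : ℤ) := Int.emod_nonneg _ hd'.ne'
  have h3 : (-n) % (d : ℤ) < d := Int.emod_lt_of_pos _ hd'
  have h4 : (((-n) % (d : ℤ)).toNat : ℤ) = (-n) % (d : ℤ) := Int.toNat_of_nonneg h2
  rw [Finset.sum_eq_single ((-n) % (d : ℤ)).toNat]
  · rw [if_pos]
    rw [h4]
    have h5 := Int.emod_add_mul_ediv (-n) d
    exact ⟨-((-n) / d), by linear_combination h5⟩
  · intro j hj hne
    rw [if_neg]
    intro h6
    apply hne
    have hj' := Finset.mem_range.1 hj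
    have h5 := Int.emod_add_mul_ediv (-n) d
    have h7 : (d : ℤ) ∣ (j : ℤ) - (((-n) % (d : ℤ)).toNat : ℤ) := by
      rw [h4]
      obtain ⟨c, hc⟩ := h6
      exact ⟨c + (-n) / d, by linear_combination hc - h5⟩
    have h8 := Int.eq_zero_of_abs_lt_dvd h7 (by rw [abs_lt]; constructor <;> omega)
    omega
  · intro h6
    exfalso
    apply h6
    rw [Finset.mem_range]
    omega

private theorem Equi_one {d m : ℕ} (hd : 1 ≤ d) (hm : 0 < m) (β : ℝ) {a b : ℝ} (hab : a ≤ b) :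
    |(∫ t in a..b, Equi_f d m β t) - (b - a) / d| ≤ d / m := by
  have hd' : (0 : ℝ) < d := by exact_mod_cast hd
  have h1 := Equi_avg (Equi_f_good d m β) a b (T := 1 / m) (by positivity) d
  have h2 : (∑ j ∈ Finset.range d, ∫ t in a..b, Equi_f d m β (t + j * (1 / m))) = b - a := by
    have h3 : ∫ t in a..b, ∑ j ∈ Finset.range d, Equi_f d m β (t + (j : ℝ) * (1 / m)) =
        ∑ j ∈ Finset.range d, ∫ t in a..b, Equi_f d m β (t + (j : ℝ) * (1 / m)) :=
      intervalIntegral.integral_finsetSum fun (j : ℕ) _ =>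
        ((Equi_f_good d m β).shift ((j : ℝ) * (1 / m))).ii a b
    rw [← h3]
    simp only [Equi_f_sum hd hm β]
    simp
  rw [h2, abs_le] at h1
  have e1 : (d : ℝ) * (d * (1 / m)) = d * (d / m) := by ring
  rw [e1] at h1
  rw [abs_le]
  constructor
  · rw [neg_le_sub_iff_le_add, div_le_iff₀ hd']
    nlinarith [h1.2]
  · rw [sub_le_iff_le_add, ← sub_le_iff_le_add', le_div_iff₀ hd']
    nlinarith [h1.1]

private theorem Equi_two {d e m m' : ℕ} (hd : 1 ≤ d) (he : 1 ≤ e) (hm : 0 < m) (β : ℝ)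
    {a b : ℝ} (hab : a ≤ b) {q : ℕ} (hq : 0 < q) {r : ℤ} (hc : IsCoprime (q : ℤ) r)
    (hθ : |(d : ℝ) * m' / (e * m) - r / q| ≤ 1 / (q : ℝ) ^ 2) :
    |(∫ t in a..b, Equi_f d m β t * Equi_f e m' β t) - (b - a) / (d * e)| ≤
      3 * (b - a) / q + q * (d / m) + d / m := by
  classical
  have hd' : (0 : ℝ) < d := by exact_mod_cast hd
  have he' : (0 : ℝ) < e := by exact_mod_cast he
  have he1 : (1 : ℝ) ≤ e := by exact_mod_cast he
  have hm' : (0 : ℝ) < m := by exact_mod_cast hm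
  have hq' : (0 : ℝ) < q := by exact_mod_cast hq
  set θ : ℝ := (d : ℝ) * m' / (e * m) with hθd
  have F := Equi_f_good d m β
  have G := Equi_f_good e m' β
  -- pointwise
  have hp : ∀ t : ℝ, |(∑ j ∈ Finset.range q, Equi_f e m' β (t + (j : ℝ) * (d / m))) -
      q * (1 / e)| ≤ 3 := by
    intro t
    have h1 : ∀ j : ℕ, Equi_f e m' β (t + (j : ℝ) * (d / m)) =
        if Int.fract ((t * m' + β) / e + j * θ) < 1 / e then 1 else 0 := by
      intro j
      have h2 : ((t + (j : ℝ) * (d / m)) * (m' : ℝ) + β) / e = (t * m' + β) / e + j * θ := by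
        rw [hθd]
        field_simp
        ring
      have h3 := Equi_dvd he ((t + (j : ℝ) * (d / m)) * (m' : ℝ) + β)
      rw [h2] at h3
      unfold Equi_f
      simp only [h3]
    simp only [h1]
    rw [Finset.sum_boole]
    exact Equi_count hq hc hθ _ _ (by positivity) ((div_le_one he').2 he1)
  -- the average
  have h1 := Equi_avg (F.mul G) a b (T := d / m) (by positivity) q
  have h2 : (∑ j ∈ Finset.range q, ∫ t in a..b,
      Equi_f d m β (t + (j : ℝ) * (d / m)) * Equi_f e m' β (t + (j : ℝ) * (d / m))) =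
      ∫ t in a..b, Equi_f d m β t *
        ∑ j ∈ Finset.range q, Equi_f e m' β (t + (j : ℝ) * (d / m)) := by
    simp only [Equi_f_period hm β, Finset.mul_sum]
    exact (intervalIntegral.integral_finsetSum fun (j : ℕ) _ =>
      (F.mul (G.shift ((j : ℝ) * (d / m)))).ii a b).symm
  rw [h2] at h1
  have hI : IntervalIntegrable (fun t => Equi_f d m β t *
      ∑ j ∈ Finset.range q, Equi_f e m' β (t + (j : ℝ) * (d / m))) volume a b := by
    have h8 := IntervalIntegrable.sum (Finset.range q) fun (j : ℕ) _ =>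
      (F.mul (G.shift ((j : ℝ) * (d / m)))).ii a b
    refine h8.congr fun t _ => ?_
    simp only [Finset.sum_apply, Finset.mul_sum]
  have h3 : |(∫ t in a..b, Equi_f d m β t *
      ∑ j ∈ Finset.range q, Equi_f e m' β (t + (j : ℝ) * (d / m))) -
        q * (1 / e) * ∫ t in a..b, Equi_f d m β t| ≤ 3 * (b - a) := by
    rw [← intervalIntegral.integral_const_mul,
      ← intervalIntegral.integral_sub hI ((F.ii a b).const_mul _), ← Real.norm_eq_abs]
    have h4 := intervalIntegral.norm_integral_le_of_norm_le_const (a := a) (b := b) (C := 3)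
      (f := fun t => Equi_f d m β t *
        (∑ j ∈ Finset.range q, Equi_f e m' β (t + (j : ℝ) * (d / m))) -
          q * (1 / e) * Equi_f d m β t) (fun t _ => by
        have h5 : Equi_f d m β t *
            (∑ j ∈ Finset.range q, Equi_f e m' β (t + (j : ℝ) * (d / m))) -
            q * (1 / e) * Equi_f d m β t = Equi_f d m β t *
            ((∑ j ∈ Finset.range q, Equi_f e m' β (t + (j : ℝ) * (d / m))) -
              q * (1 / e)) := by ring
        rw [h5, norm_mul, Real.norm_eq_abs, Real.norm_eq_abs, abs_of_nonneg (F.lo t)]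
        calc Equi_f d m β t * _ ≤ 1 * 3 :=
              mul_le_mul (F.up t) (hp t) (abs_nonneg _) zero_le_one
          _ = 3 := by norm_num)
    rwa [abs_of_nonneg (sub_nonneg.2 hab)] at h4
  have h4 := Equi_one hd hm β hab
  set I := ∫ t in a..b, Equi_f d m β t * Equi_f e m' β t with hIdef
  set J := ∫ t in a..b, Equi_f d m β t with hJdef
  have h5 : |q * I - q * (1 / e) * J| ≤ 3 * (b - a) + q * (q * (d / m)) := by
    rw [abs_le] at h1 h3 ⊢
    constructor <;> linarith [h1.1, h1.2, h3.1, h3.2]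
  have h6 : |I - 1 / e * J| ≤ 3 * (b - a) / q + q * (d / m) := by
    have e1 : q * I - q * (1 / e) * J = q * (I - 1 / e * J) := by ring
    rw [e1, abs_mul, abs_of_pos hq'] at h5
    have e2 : 3 * (b - a) + q * (q * (d / m)) = q * (3 * (b - a) / q + q * (d / m)) := by
      field_simp
    rw [e2] at h5
    exact le_of_mul_le_mul_left h5 hq'
  have h7 : |1 / e * J - (b - a) / (d * e)| ≤ d / m := by
    have e1 : 1 / e * J - (b - a) / (d * e) = 1 / e * (J - (b - a) / d) := by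
      field_simp
    rw [e1, abs_mul, abs_of_pos (by positivity)]
    calc 1 / (e : ℝ) * |J - (b - a) / d| ≤ 1 * (d / m) :=
          mul_le_mul ((div_le_one he').2 he1) h4 (abs_nonneg _) zero_le_one
      _ = d / m := one_mul _
  calc |I - (b - a) / (d * e)| = |(I - 1 / e * J) + (1 / e * J - (b - a) / (d * e))| := by
        congr 1
        ring
    _ ≤ |I - 1 / e * J| + |1 / e * J - (b - a) / (d * e)| := abs_add_le _ _
    _ ≤ _ := add_le_add h6 h7

private theorem Equi_vol {d e m m' : ℕ} {β a b : ℝ} (hab : a ≤ b)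
    (h1 : ∀ t, a ≤ t → 0 ≤ t * m + β) (h2 : ∀ t, a ≤ t → 0 ≤ t * m' + β) :
    (volume {t : ℝ | t ∈ Set.Icc a b ∧ d ∣ ⌊t * (m : ℝ) + β⌋₊ ∧
          e ∣ ⌊t * (m' : ℝ) + β⌋₊}).toReal = ∫ t in a..b, Equi_f d m β t * Equi_f e m' β t := by
  classical
  have F := Equi_f_good d m β
  have G := Equi_f_good e m' β
  have h3 : ∀ (k n : ℕ) (y : ℝ), 0 ≤ y → (k ∣ ⌊y⌋₊ ↔ (k : ℤ) ∣ ⌊y⌋) := by
    intro k n y hy
    rw [← Int.natCast_floor_eq_floor hy]
    exact Int.natCast_dvd_natCast.symm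
  set A : Set ℝ := {t : ℝ | (d : ℤ) ∣ ⌊t * (m : ℝ) + β⌋ ∧ (e : ℤ) ∣ ⌊t * (m' : ℝ) + β⌋} with hA
  have hAm : MeasurableSet A := by
    have h4 : ∀ k : ℕ, Measurable fun t : ℝ => ⌊t * (k : ℝ) + β⌋ := fun k =>
      Int.measurable_floor.comp ((measurable_id.mul_const _).add_const _)
    exact (h4 m (MeasurableSet.of_discrete (s := {n : ℤ | (d : ℤ) ∣ n}))).inter
      (h4 m' (MeasurableSet.of_discrete (s := {n : ℤ | (e : ℤ) ∣ n})))
  have h4 : {t : ℝ | t ∈ Set.Icc a b ∧ d ∣ ⌊t * (m : ℝ) + β⌋₊ ∧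
      e ∣ ⌊t * (m' : ℝ) + β⌋₊} = A ∩ Set.Icc a b := by
    ext t
    constructor
    · rintro ⟨h5, h6, h7⟩
      exact ⟨⟨(h3 d 0 _ (h1 t h5.1)).1 h6, (h3 e 0 _ (h2 t h5.1)).1 h7⟩, h5⟩
    · rintro ⟨⟨h6, h7⟩, h5⟩
      exact ⟨h5, (h3 d 0 _ (h1 t h5.1)).2 h6, (h3 e 0 _ (h2 t h5.1)).2 h7⟩
  have h5 : ∀ t, Equi_f d m β t * Equi_f e m' β t = A.indicator 1 t := by
    intro t
    by_cases h6 : (d : ℤ) ∣ ⌊t * (m : ℝ) + β⌋
    · by_cases h7 : (e : ℤ) ∣ ⌊t * (m' : ℝ) + β⌋
      · have h8 : t ∈ A := ⟨h6, h7⟩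
        rw [Set.indicator_of_mem h8]
        unfold Equi_f
        rw [if_pos h6, if_pos h7]
        simp
      · have h8 : t ∉ A := fun h => h7 h.2
        rw [Set.indicator_of_notMem h8]
        unfold Equi_f
        rw [if_neg h7, mul_zero]
    · have h8 : t ∉ A := fun h => h6 h.1
      rw [Set.indicator_of_notMem h8]
      unfold Equi_f
      rw [if_neg h6, zero_mul]
  rw [h4]
  simp only [h5]
  rw [intervalIntegral.integral_of_le hab, ← integral_Icc_eq_integral_Ioc,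
    integral_indicator_one hAm, measureReal_restrict_apply hAm]
  rfl

theorem equi {η : ℝ} (hη : 0 < η) (hη1 : η ≤ 1 / 20) {a b κ1 κ2 : ℝ} (β : ℝ) (ha : 0 < a)
    (hab : a < b) (hκ : 0 < κ1) :
    ∃ X0 : ℝ, ∀ X : ℝ, X0 ≤ X → ∀ m m' : ℕ, κ1 * X ≤ (m : ℝ) → (m : ℝ) ≤ κ2 * X →
      κ1 * X ≤ (m' : ℝ) → (m' : ℝ) ≤ κ2 * X → NE X η m m' → ∀ d e : ℕ, 1 ≤ d → 1 ≤ e →
      (d : ℝ) ≤ X ^ (η / 16) → (e : ℝ) ≤ X ^ (η / 16) →
      |(volume {t : ℝ | t ∈ Set.Icc a b ∧ d ∣ ⌊t * (m : ℝ) + β⌋₊ ∧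
          e ∣ ⌊t * (m' : ℝ) + β⌋₊}).toReal - (b - a) / ((d : ℝ) * e)| ≤ X ^ (-(η / 5)) := by
  have hev : ∀ (c s : ℝ), 0 < s → ∀ᶠ X : ℝ in atTop, c ≤ X ^ s := fun c s hs =>
    (tendsto_rpow_atTop hs).eventually_ge_atTop c
  have h1 : ∀ᶠ X : ℝ in atTop, 1 ≤ X := eventually_ge_atTop 1
  have h2 : ∀ᶠ X : ℝ in atTop, |β| / (a * κ1) ≤ X := eventually_ge_atTop _
  have h3 := hev (2 * κ2 / κ1 + κ2 + 2) (7 * η / 16) (by positivity)
  have h4 := hev (9 * (b - a)) (η / 2 - η / 5) (by linarith)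
  have h5 := hev (6 / κ1) (1 - 6 * η - η / 16 - η / 5) (by linarith)
  obtain ⟨X0, hX0⟩ := eventually_atTop.1 (h1.and (h2.and (h3.and (h4.and h5))))
  refine ⟨X0, fun X hX m m' hm1 hm2 hm1' hm2' hNE d e hd he hdX heX => ?_⟩
  obtain ⟨g1, g2, g3, g4, g5⟩ := hX0 X hX
  have hXp : 0 < X := by linarith
  have hκX : 0 < κ1 * X := by positivity
  have hmr : (0 : ℝ) < m := by linarith
  have hmr' : (0 : ℝ) < m' := by linarith
  have hm : 0 < m := by exact_mod_cast hmr
  have hm' : 0 < m' := by exact_mod_cast hmr'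
  have hd' : (1 : ℝ) ≤ d := by exact_mod_cast hd
  have he' : (1 : ℝ) ≤ e := by exact_mod_cast he
  have hκ12 : κ1 ≤ κ2 := le_of_mul_le_mul_right (hm1.trans hm2) hXp
  have hκ2 : 0 < κ2 := by linarith
  have hβ : -β ≤ a * (κ1 * X) := by
    have h6 : |β| ≤ X * (a * κ1) := (div_le_iff₀ (by positivity)).1 g2
    have h7 := neg_abs_le β
    nlinarith
  have hpos : ∀ n : ℕ, κ1 * X ≤ (n : ℝ) → ∀ t, a ≤ t → 0 ≤ t * n + β := by
    intro n hn t ht
    have h6 : a * (κ1 * X) ≤ t * n := mul_le_mul ht hn hκX.le (by linarith)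
    linarith
  rw [Equi_vol hab.le (hpos m hm1) (hpos m' hm1')]
  -- Dirichlet
  have hY1 : (1 : ℝ) ≤ X ^ (6 * η) := Real.one_le_rpow g1 (by positivity)
  set n : ℕ := ⌊X ^ (6 * η)⌋₊ with hn
  have hn0 : 0 < n := Nat.floor_pos.2 hY1
  have hn1 : (n : ℝ) ≤ X ^ (6 * η) := Nat.floor_le (by positivity)
  have hn2 : X ^ (6 * η) < n + 1 := Nat.lt_floor_add_one _
  obtain ⟨ρ, hρ1, hρ2⟩ := Real.exists_rat_abs_sub_le_and_den_le ((d : ℝ) * m' / (e * m)) hn0
  have hq0 : 0 < ρ.den := ρ.den_pos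
  have hqr : (0 : ℝ) < ρ.den := by exact_mod_cast hq0
  have hq1 : (1 : ℝ) ≤ ρ.den := by exact_mod_cast hq0
  have hqn : (ρ.den : ℝ) ≤ n := by exact_mod_cast hρ2
  have hρc : (ρ : ℝ) = ρ.num / ρ.den := by
    exact_mod_cast (Rat.num_div_den ρ).symm
  have hcop : IsCoprime ((ρ.den : ℕ) : ℤ) ρ.num := by
    have h6 := ρ.reduced
    exact (Int.isCoprime_iff_nat_coprime.2 (by simpa using h6)).symm
  rw [hρc] at hρ1
  have hθ : |(d : ℝ) * m' / (e * m) - ρ.num / ρ.den| ≤ 1 / (ρ.den : ℝ) ^ 2 := by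
    refine hρ1.trans ?_
    rw [pow_two]
    refine one_div_le_one_div_of_le (by positivity) ?_
    refine mul_le_mul_of_nonneg_right ?_ hqr.le
    linarith
  -- the denominator is large
  have hbig : X ^ (η / 2) ≤ ρ.den := by
    by_contra hcon
    push Not at hcon
    have hkey : |(ρ.den : ℝ) * (d * m') - ρ.num * (e * m)| ≤ e * m / (n + 1) := by
      have h6 : (ρ.den : ℝ) * (d * m') - ρ.num * (e * m) =
          ((d : ℝ) * m' / (e * m) - ρ.num / ρ.den) * (ρ.den * (e * m)) := by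
        field_simp
      rw [h6, abs_mul, abs_of_pos (by positivity : (0 : ℝ) < ρ.den * (e * m))]
      calc |(d : ℝ) * m' / (e * m) - ρ.num / ρ.den| * (ρ.den * (e * m)) ≤
          1 / ((n + 1) * ρ.den) * (ρ.den * (e * m)) :=
            mul_le_mul_of_nonneg_right hρ1 (by positivity)
        _ = e * m / (n + 1) := by field_simp
    have hup : (e : ℝ) * m / (n + 1) < κ2 * X ^ (1 + η / 16 - 6 * η) := by
      have h6 : (e : ℝ) * m ≤ X ^ (η / 16) * (κ2 * X) :=
        mul_le_mul heX hm2 hmr.le (by positivity)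
      have h7 : κ2 * X ^ (1 + η / 16 - 6 * η) * X ^ (6 * η) = X ^ (η / 16) * (κ2 * X) := by
        rw [mul_assoc, ← Real.rpow_add hXp]
        have h8 : 1 + η / 16 - 6 * η + 6 * η = η / 16 + 1 := by ring
        rw [h8, Real.rpow_add hXp, Real.rpow_one]
        ring
      rw [div_lt_iff₀ (by positivity)]
      calc (e : ℝ) * m ≤ X ^ (η / 16) * (κ2 * X) := h6
        _ = κ2 * X ^ (1 + η / 16 - 6 * η) * X ^ (6 * η) := h7.symm
        _ < κ2 * X ^ (1 + η / 16 - 6 * η) * (n + 1) :=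
          mul_lt_mul_of_pos_left hn2 (by positivity)
    have hpow1 : X ^ (7 * η / 16) ≤ X ^ (6 * η - η / 16) :=
      Real.rpow_le_rpow_of_exponent_le g1 (by linarith)
    have hpow2 : X ^ (7 * η / 16) ≤ X ^ (η - η / 16) :=
      Real.rpow_le_rpow_of_exponent_le g1 (by linarith)
    have hr0 : 0 < κ2 / κ1 := by positivity
    have hr1 : κ2 / κ1 + 1 ≤ X ^ (7 * η / 16) := by
      have : 2 * κ2 / κ1 = 2 * (κ2 / κ1) := by ring
      linarith
    have hr2 : κ2 ≤ X ^ (7 * η / 16) := by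
      have : 2 * κ2 / κ1 = 2 * (κ2 / κ1) := by ring
      linarith
    have hqd : (ρ.den : ℝ) * d ≤ X ^ (9 * η / 16) := by
      have h6 : X ^ (9 * η / 16) = X ^ (η / 2) * X ^ (η / 16) := by
        rw [← Real.rpow_add hXp]
        congr 1
        ring
      rw [h6]
      exact mul_le_mul hcon.le hdX (by positivity) (by positivity)
    rcases le_or_gt ρ.num 0 with hr | hr
    · have h6 : (ρ.num : ℝ) ≤ 0 := by exact_mod_cast hr
      have h7 : κ1 * X ≤ (ρ.den : ℝ) * (d * m') := by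
        calc κ1 * X ≤ m' := hm1'
          _ = 1 * (1 * m') := by ring
          _ ≤ (ρ.den : ℝ) * (d * m') := by gcongr
      have h8 : 0 ≤ -((ρ.num : ℝ) * (e * m)) := by
        have : (ρ.num : ℝ) * (e * m) ≤ 0 := mul_nonpos_of_nonpos_of_nonneg h6 (by positivity)
        linarith
      have h9 := le_abs_self ((ρ.den : ℝ) * (d * m') - ρ.num * (e * m))
      have h10 : κ1 * X < κ2 * X ^ (1 + η / 16 - 6 * η) := by linarith
      have h11 : κ2 * X ^ (1 + η / 16 - 6 * η) * X ^ (6 * η - η / 16) = κ2 * X := by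
        rw [mul_assoc, ← Real.rpow_add hXp]
        have h12 : 1 + η / 16 - 6 * η + (6 * η - η / 16) = 1 := by ring
        rw [h12, Real.rpow_one]
      have h12 : κ1 * X * X ^ (6 * η - η / 16) < κ2 * X := by
        rw [← h11]
        exact mul_lt_mul_of_pos_right h10 (by positivity)
      have h13 : κ2 / κ1 ≤ X ^ (6 * η - η / 16) := by linarith
      have h14 : κ2 * X ≤ κ1 * X * X ^ (6 * η - η / 16) := by
        calc κ2 * X = κ1 * X * (κ2 / κ1) := by field_simp
          _ ≤ κ1 * X * X ^ (6 * η - η / 16) := mul_le_mul_of_nonneg_left h13 hκX.le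
      linarith
    · have hnum : ((ρ.num.toNat : ℕ) : ℝ) = ρ.num := by
        have h6 : ((ρ.num.toNat : ℕ) : ℤ) = ρ.num := Int.toNat_of_nonneg hr.le
        exact_mod_cast h6
      have hnum1 : 1 ≤ ρ.num.toNat := by omega
      have hmm : (m' : ℝ) ≤ κ2 / κ1 * m := by
        calc (m' : ℝ) ≤ κ2 * X := hm2'
          _ = κ2 / κ1 * (κ1 * X) := by field_simp
          _ ≤ κ2 / κ1 * m := mul_le_mul_of_nonneg_left hm1 hr0.le
      have h6 : (ρ.num : ℝ) * e * m ≤ (ρ.den * d * (κ2 / κ1) + e) * m := by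
        have h7 := (abs_le.1 hkey).1
        have h8 : (e : ℝ) * m / (n + 1) ≤ e * m :=
          div_le_self (by positivity) (by linarith [(Nat.cast_nonneg n : (0 : ℝ) ≤ n)])
        have h9 : (ρ.den : ℝ) * d * m' ≤ ρ.den * d * (κ2 / κ1 * m) :=
          mul_le_mul_of_nonneg_left hmm (by positivity)
        linarith
      have h7 : (ρ.num : ℝ) * e ≤ ρ.den * d * (κ2 / κ1) + e := le_of_mul_le_mul_right h6 hmr
      have h8 : (e : ℝ) ≤ X ^ (9 * η / 16) :=
        heX.trans (Real.rpow_le_rpow_of_exponent_le g1 (by linarith))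
      have h9 : X ^ (9 * η / 16) * X ^ (7 * η / 16) = X ^ η := by
        rw [← Real.rpow_add hXp]
        congr 1
        ring
      have hu : ((ρ.num.toNat * e : ℕ) : ℝ) ≤ X ^ η := by
        push_cast
        rw [hnum]
        calc (ρ.num : ℝ) * e ≤ ρ.den * d * (κ2 / κ1) + e := h7
          _ ≤ X ^ (9 * η / 16) * (κ2 / κ1) + X ^ (9 * η / 16) := by gcongr
          _ = X ^ (9 * η / 16) * (κ2 / κ1 + 1) := by ring
          _ ≤ X ^ (9 * η / 16) * X ^ (7 * η / 16) :=
            mul_le_mul_of_nonneg_left hr1 (by positivity)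
          _ = X ^ η := h9
      have hv : ((ρ.den * d : ℕ) : ℝ) ≤ X ^ η := by
        push_cast
        exact hqd.trans (Real.rpow_le_rpow_of_exponent_le g1 (by linarith))
      have h10 := hNE (ρ.num.toNat * e) (ρ.den * d) (Nat.mul_pos hnum1 he)
        (Nat.mul_pos hq0 hd) hu hv
      have h11 : |((ρ.num.toNat * e : ℕ) : ℝ) * m - ((ρ.den * d : ℕ) : ℝ) * m'| =
          |(ρ.den : ℝ) * (d * m') - ρ.num * (e * m)| := by
        push_cast
        rw [hnum, abs_sub_comm]
        congr 1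
        ring
      rw [h11] at h10
      have h12 : X ^ (1 - 5 * η) < κ2 * X ^ (1 + η / 16 - 6 * η) := by linarith
      have h13 : κ2 * X ^ (1 + η / 16 - 6 * η) ≤ X ^ (1 - 5 * η) := by
        calc κ2 * X ^ (1 + η / 16 - 6 * η) ≤ X ^ (η - η / 16) * X ^ (1 + η / 16 - 6 * η) := by
              gcongr
              exact hr2.trans hpow2
          _ = X ^ (1 - 5 * η) := by
              rw [← Real.rpow_add hXp]
              congr 1
              ring
      linarith
  have hmain := Equi_two hd he hm β hab.le hq0 hcop hθ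
  refine hmain.trans ?_
  have hX5 : 0 < X ^ (-(η / 5)) := by positivity
  have e1 : 3 * (b - a) / ρ.den ≤ X ^ (-(η / 5)) / 3 := by
    have h6 : X ^ (η / 2) * X ^ (-(η / 5)) = X ^ (η / 2 - η / 5) := by
      rw [← Real.rpow_add hXp]
      congr 1
    have h7 : 9 * (b - a) ≤ ρ.den * X ^ (-(η / 5)) := by
      calc 9 * (b - a) ≤ X ^ (η / 2 - η / 5) := g4
        _ = X ^ (η / 2) * X ^ (-(η / 5)) := h6.symm
        _ ≤ ρ.den * X ^ (-(η / 5)) := mul_le_mul_of_nonneg_right hbig hX5.le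
    rw [div_le_iff₀ hqr]
    linarith
  have e2 : (ρ.den : ℝ) * (d / m) + d / m ≤ X ^ (-(η / 5)) / 3 := by
    have h6 : (ρ.den : ℝ) * (d / m) + d / m ≤ 2 * (ρ.den * (d / m)) := by
      have : (0 : ℝ) ≤ (ρ.den - 1) * (d / m) := mul_nonneg (by linarith) (by positivity)
      linarith
    have h7 : (ρ.den : ℝ) * (d / m) ≤ X ^ (6 * η) * (X ^ (η / 16) / (κ1 * X)) := by
      have : (d : ℝ) / m ≤ X ^ (η / 16) / (κ1 * X) :=
        div_le_div₀ (by positivity) hdX hκX hm1
      exact mul_le_mul (hqn.trans hn1) this (by positivity) (by positivity)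
    have h8 : X ^ (6 * η) * X ^ (η / 16) * X ^ (1 - 6 * η - η / 16 - η / 5) =
        X ^ (-(η / 5)) * X := by
      rw [← Real.rpow_add hXp, ← Real.rpow_add hXp]
      have h9 : 6 * η + η / 16 + (1 - 6 * η - η / 16 - η / 5) = -(η / 5) + 1 := by ring
      rw [h9, Real.rpow_add hXp, Real.rpow_one]
    have h9 : X ^ (6 * η) * X ^ (η / 16) * (6 / κ1) ≤ X ^ (-(η / 5)) * X := by
      rw [← h8]
      exact mul_le_mul_of_nonneg_left g5 (by positivity)
    have h10 : X ^ (6 * η) * (X ^ (η / 16) / (κ1 * X)) ≤ X ^ (-(η / 5)) / 6 := by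
      rw [← mul_div_assoc, div_le_iff₀ hκX]
      have h11 : X ^ (6 * η) * X ^ (η / 16) * (6 / κ1) * κ1 =
          6 * (X ^ (6 * η) * X ^ (η / 16)) := by
        field_simp
      have h12 : X ^ (6 * η) * X ^ (η / 16) * (6 / κ1) * κ1 ≤ X ^ (-(η / 5)) * X * κ1 :=
        mul_le_mul_of_nonneg_right h9 hκ.le
      rw [h11] at h12
      linarith
    linarith
  linarith

end MCC
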