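import Pool.Agent.MCC.BoxP
import Pool.Agent.MCC.Dens

/-!
# MCC.FinK: almost every finite sequence of multipliers

PROOF. Let `S` be the set of `x` with `(1/2)^(k+2) 2^r/(log 2^r)^k ≤ NS β r x` for infinitely many `r`
(measurable: `NS_meas`, `limsup` of measurable sets). For every box `B` the sets
`A_r = {x ∈ B : ..}` have measure `≥ c vol B` for `r ≥ r0` (`box_pos`) and lie in a set of finite measure,
so their limsup has measure `≥ c vol B` (`∩_n ∪_{r≥n} A_r`, continuity from above; e.g.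
`MeasureTheory.tendsto_measure_iInter_atTop`). `dens`.
-/

namespace MCC

open MeasureTheory Filter

private theorem FinK_limsup {α : Type*} [MeasurableSpace α] {μ : Measure α} {A : ℕ → Set α}
    (hA : ∀ n, MeasurableSet (A n)) {B : Set α} (hB : μ B ≠ ⊤) (hAB : ∀ n, A n ⊆ B) {c : ENNReal}
    {r0 : ℕ} (h : ∀ r, r0 ≤ r → c ≤ μ (A r)) : c ≤ μ (⋂ n : ℕ, ⋃ r : ℕ, ⋃ _ : n ≤ r, A r) := by
  have hanti : Antitone fun n : ℕ => ⋃ r : ℕ, ⋃ _ : n ≤ r, A r := by
    intro m n hmn x hx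
    simp only [Set.mem_iUnion] at hx ⊢
    obtain ⟨r, hr, hx⟩ := hx
    exact ⟨r, hmn.trans hr, hx⟩
  have hmeas : ∀ n : ℕ, MeasurableSet (⋃ r : ℕ, ⋃ _ : n ≤ r, A r) := fun n =>
    MeasurableSet.iUnion fun r => MeasurableSet.iUnion fun _ => hA r
  have hfin : ∃ n : ℕ, μ (⋃ r : ℕ, ⋃ _ : n ≤ r, A r) ≠ ⊤ := by
    refine ⟨0, ne_top_of_le_ne_top hB (measure_mono ?_)⟩
    exact Set.iUnion_subset fun r => Set.iUnion_subset fun _ => hAB r
  have ht := tendsto_measure_iInter_atTop (fun n => (hmeas n).nullMeasurableSet) hanti hfin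
  refine ge_of_tendsto' ht fun n => ?_
  refine (h (max n r0) (le_max_right _ _)).trans (measure_mono ?_)
  intro x hx
  simp only [Set.mem_iUnion]
  exact ⟨max n r0, le_max_left _ _, hx⟩

theorem fin_ae {k : ℕ} (hk : 1 ≤ k) (β : ℕ → ℝ) :
    ∀ᵐ x : Fin k → ℝ, (∀ i, 0 < x i) → ∃ᶠ r : ℕ in atTop,
      (1 / 2) ^ (k + 2) * (2 ^ r / Real.log (2 ^ r) ^ k) ≤ (NS β r x : ℝ) := by
  obtain ⟨c, hc, hbox⟩ := box_pos hk
  obtain ⟨T, hT⟩ : ∃ T : ℕ → Set (Fin k → ℝ), T = fun r =>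
    {x | (1 / 2) ^ (k + 2) * (2 ^ r / Real.log (2 ^ r) ^ k) ≤ (NS β r x : ℝ)} := ⟨_, rfl⟩
  have hTm : ∀ r, MeasurableSet (T r) := by
    intro r
    rw [hT]
    refine measurableSet_le measurable_const ?_
    exact (measurable_of_countable (fun n : ℕ => (n : ℝ))).comp (NS_meas β r)
  obtain ⟨S, hS⟩ : ∃ S : Set (Fin k → ℝ), S = ⋂ n : ℕ, ⋃ r : ℕ, ⋃ _ : n ≤ r, T r := ⟨_, rfl⟩
  have hSm : MeasurableSet S := by
    rw [hS]
    exact MeasurableSet.iInter fun n => MeasurableSet.iUnion fun r =>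
      MeasurableSet.iUnion fun _ => hTm r
  have hd := dens hSm hc (fun a b ha hab => by
    obtain ⟨r0, hr0⟩ := hbox β a b ha hab
    have h1 := FinK_limsup (μ := (volume : Measure (Fin k → ℝ)))
      (A := fun r => T r ∩ Set.Icc a b) (fun n => (hTm n).inter measurableSet_Icc)
      (B := Set.Icc a b) (isCompact_Icc.measure_lt_top.ne) (fun n => Set.inter_subset_right)
      (c := ENNReal.ofReal (c * ∏ i, (b i - a i))) (r0 := r0) (fun r hr => by
        refine (hr0 r hr).trans (measure_mono ?_)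
        rintro x ⟨hx1, hx2⟩
        refine ⟨?_, hx1⟩
        rw [hT]
        exact hx2)
    refine h1.trans (measure_mono ?_)
    intro x hx
    rw [hS]
    simp only [Set.mem_iInter, Set.mem_iUnion, Set.mem_inter_iff] at hx ⊢
    refine ⟨fun n => ?_, ?_⟩
    · obtain ⟨r, hr, h2, _⟩ := hx n
      exact ⟨r, hr, h2⟩
    · obtain ⟨r, hr, _, h2⟩ := hx 0
      exact h2)
  filter_upwards [hd] with x hx hpos
  have h2 := hx hpos
  rw [hS] at h2
  simp only [Set.mem_iInter, Set.mem_iUnion] at h2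
  rw [frequently_atTop]
  intro n
  obtain ⟨r, hr, h3⟩ := h2 n
  rw [hT] at h3
  exact ⟨r, hr, h3⟩

end MCC
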