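import Pool.Agent.MCC.FinK

/-!
# MCC.InfP: almost every sequence of multipliers

PROOF. There are countably many pairs `(k, b)`, `k ≥ 1`, `b : Fin k → ℚ`; fix one of them and put
`β n = b n` for `n < k` and `β n = 0` for `n ≥ k` (`starts_congr`: only the first `k` terms matter). The map `α ↦ (α i)_(i<k)` sends `Measure.infinitePi μ` to
`Measure.pi (fun i : Fin k => μ i)` (`Measure.infinitePi_map_restrict` and reindexing
`Finset.range k ≃ Fin k`, or `Measure.infinitePi_map_restrict'`; one can also use that the coordinates are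
independent: `iIndepFun_iff_map_fun_eq_pi_map`), which is absolutely continuous with respect to `volume`
(`volume_pi`; product of absolutely continuous finite measures, e.g. by induction with
`Measure.AbsolutelyContinuous.prod`, or by Radon-Nikodym), and almost every `α` has positive coordinates.
So by `fin_ae` (null sets are transported back) for almost every `α` there are infinitely many `r` with
`NS β r (fun i : Fin k => α i) ≥ (1/2)^(k+2) 2^r/(log 2^r)^k`. By `starts_congr`
`StartsExact (ext fun i : Fin k => α i) β p k ↔ StartsExact α β p k`. So with `X = 2^(r+1)`: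
`#{p ≤ X : StartsExact α β p k} ≥ (1/2)^(k+2) 2^r/(log 2^r)^k ≥ (1/2)^(k+3) X/(log X)^k`.
-/

namespace MCC

open MeasureTheory Filter

private theorem infP_pi_ac : ∀ {k : ℕ} (μ ν : Fin k → Measure ℝ) [∀ i, SigmaFinite (μ i)]
    [∀ i, SigmaFinite (ν i)], (∀ i, μ i ≪ ν i) → Measure.pi μ ≪ Measure.pi ν
  | 0, μ, ν, _, _, _ => by
    rw [Measure.pi_of_empty, Measure.pi_of_empty]
  | k + 1, μ, ν, _, _, h => by
    have h1 := (measurePreserving_piFinSuccAbove μ 0).symm
    have h2 := (measurePreserving_piFinSuccAbove ν 0).symm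
    rw [← h1.map_eq, ← h2.map_eq]
    refine Measure.AbsolutelyContinuous.map ?_ (MeasurableEquiv.measurable _)
    refine Measure.AbsolutelyContinuous.prod (h 0) ?_
    exact infP_pi_ac (fun j => μ (Fin.succAbove 0 j)) (fun j => ν (Fin.succAbove 0 j))
      (fun j => h _)

private theorem infP_map (μ : ℕ → Measure ℝ) [∀ n, IsProbabilityMeasure (μ n)] (k : ℕ) :
    (Measure.infinitePi μ).map (fun (α : ℕ → ℝ) (i : Fin k) => α i) =
      Measure.pi (fun i : Fin k => μ i) := by
  have hf : Measurable (fun (α : ℕ → ℝ) (i : Fin k) => α i) :=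
    measurable_pi_lambda _ fun i => measurable_pi_apply _
  symm
  refine Measure.pi_eq fun s hs => ?_
  rw [Measure.map_apply hf (MeasurableSet.univ_pi hs)]
  have h1 : (fun (α : ℕ → ℝ) (i : Fin k) => α i) ⁻¹' (Set.univ.pi s) =
      Set.pi (Finset.range k) (fun n => if h : n < k then s ⟨n, h⟩ else Set.univ) := by
    ext α
    simp only [Set.mem_preimage, Set.mem_pi, Set.mem_univ, true_implies, Finset.coe_range,
      Set.mem_Iio]
    constructor
    · intro h n hn
      rw [dif_pos hn]
      exact h ⟨n, hn⟩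
    · intro h i
      have := h i i.2
      rwa [dif_pos i.2] at this
  rw [h1, Measure.infinitePi_pi]
  · rw [Finset.prod_range]
    refine Finset.prod_congr rfl fun i _ => ?_
    rw [dif_pos i.2]
  · intro n hn
    rw [dif_pos (Finset.mem_range.1 hn)]
    exact hs _

open Classical in
private theorem infP_one (μ : ℕ → Measure ℝ) [∀ n, IsProbabilityMeasure (μ n)]
    (hac : ∀ n, μ n ≪ volume) (hpos : ∀ n, μ n (Set.Iic 0) = 0) (k : ℕ) (hk : 1 ≤ k)
    (β : ℕ → ℝ) :
    ∀ᵐ α ∂(Measure.infinitePi μ), ∃ᶠ X : ℕ in atTop,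
      (1 / 2) ^ (k + 3) * (X / Real.log X ^ k) ≤
        (((Finset.Icc 1 X).filter fun p => StartsExact α β p k).card : ℝ) := by
  have hf : Measurable (fun (α : ℕ → ℝ) (i : Fin k) => α i) :=
    measurable_pi_lambda _ fun i => measurable_pi_apply _
  have h1 := fin_ae hk β
  have hac' : Measure.pi (fun i : Fin k => μ i) ≪ (volume : Measure (Fin k → ℝ)) := by
    rw [volume_pi]
    exact infP_pi_ac _ _ fun i => hac i
  have h2 := hac'.ae_le h1
  rw [← infP_map μ k] at h2
  have h3 := ae_of_ae_map hf.aemeasurable h2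
  have h4 : ∀ᵐ α ∂(Measure.infinitePi μ), ∀ n : ℕ, 0 < α n := by
    rw [ae_all_iff]
    intro n
    have h5 : ∀ᵐ x ∂(μ n), 0 < x := by
      rw [ae_iff]
      have h6 : {a : ℝ | ¬ 0 < a} = Set.Iic 0 := by
        ext a
        simp
      rw [h6]
      exact hpos n
    have h6 := (measurePreserving_eval_infinitePi μ n).map_eq
    rw [← h6] at h5
    exact ae_of_ae_map (measurable_pi_apply n).aemeasurable h5
  filter_upwards [h3, h4] with α hα hα0
  have h5 := hα (fun i => hα0 i)
  have hst : ∀ p, StartsExact (ext fun i : Fin k => α i) β p k ↔ StartsExact α β p k := by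
    intro p
    refine starts_congr (fun i hi => ?_) (fun i _ => rfl)
    simp only [ext]
    rw [dif_pos hi]
  -- transfer the frequency
  rw [frequently_atTop] at h5 ⊢
  intro N
  obtain ⟨r, hr, hb⟩ := h5 (max N 1)
  have hr1 : N ≤ r := le_trans (le_max_left _ _) hr
  have hr2 : 1 ≤ r := le_trans (le_max_right _ _) hr
  refine ⟨2 ^ (r + 1), ?_, ?_⟩
  · have : r < 2 ^ r := Nat.lt_two_pow_self
    have h6 : 2 ^ r ≤ 2 ^ (r + 1) := Nat.pow_le_pow_right (by norm_num) (Nat.le_succ r)
    omega
  · have hcard : NS β r (fun i : Fin k => α i) ≤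
        ((Finset.Icc 1 (2 ^ (r + 1))).filter fun p => StartsExact α β p k).card := by
      unfold NS
      refine Finset.card_le_card ?_
      intro p hp
      rw [Finset.mem_filter, Finset.mem_Ioc] at hp
      rw [Finset.mem_filter, Finset.mem_Icc]
      refine ⟨⟨?_, hp.1.2⟩, (hst p).1 hp.2⟩
      exact Nat.one_le_iff_ne_zero.2 (by omega)
    refine le_trans ?_ (le_trans hb (by exact_mod_cast hcard))
    have hl2 : 0 < Real.log 2 := Real.log_pos (by norm_num)
    have hrpos : (0 : ℝ) < r := by exact_mod_cast hr2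
    have hlog1 : Real.log (2 ^ r) = r * Real.log 2 := Real.log_pow _ _
    have hlog2 : Real.log (((2 ^ (r + 1) : ℕ) : ℝ)) = (r + 1) * Real.log 2 := by
      push_cast
      rw [Real.log_pow]
      push_cast
      ring
    rw [hlog1, hlog2]
    have hA : (0 : ℝ) < ((r : ℝ) * Real.log 2) ^ k := by positivity
    have hB : (0 : ℝ) < (((r : ℝ) + 1) * Real.log 2) ^ k := by positivity
    have hAB : ((r : ℝ) * Real.log 2) ^ k ≤ (((r : ℝ) + 1) * Real.log 2) ^ k := by
      refine pow_le_pow_left₀ (by positivity) ?_ _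
      nlinarith
    have hX : ((2 ^ (r + 1) : ℕ) : ℝ) = 2 * 2 ^ r := by
      push_cast
      ring
    rw [hX]
    have h7 : (2 : ℝ) * 2 ^ r / (((r : ℝ) + 1) * Real.log 2) ^ k ≤
        2 * (2 ^ r / ((r : ℝ) * Real.log 2) ^ k) := by
      rw [mul_div_assoc]
      refine mul_le_mul_of_nonneg_left ?_ (by norm_num)
      exact div_le_div_of_nonneg_left (by positivity) hA hAB
    calc (1 / 2 : ℝ) ^ (k + 3) * (2 * 2 ^ r / (((r : ℝ) + 1) * Real.log 2) ^ k)
        ≤ (1 / 2 : ℝ) ^ (k + 3) * (2 * (2 ^ r / ((r : ℝ) * Real.log 2) ^ k)) :=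
          mul_le_mul_of_nonneg_left h7 (by positivity)
      _ = (1 / 2) ^ (k + 2) * (2 ^ r / ((r : ℝ) * Real.log 2) ^ k) := by
          rw [show k + 3 = (k + 2) + 1 from rfl, pow_succ]
          ring

open Classical in
theorem inf_ae (μ : ℕ → Measure ℝ) [∀ n, IsProbabilityMeasure (μ n)]
    (hac : ∀ n, μ n ≪ volume) (hpos : ∀ n, μ n (Set.Iic 0) = 0) :
    ∀ᵐ α ∂(Measure.infinitePi μ), ∀ β : ℕ → ℚ, ∀ k : ℕ, 1 ≤ k → ∃ᶠ X : ℕ in atTop,
      (1 / 2) ^ (k + 3) * (X / Real.log X ^ k) ≤
        (((Finset.Icc 1 X).filter fun p => StartsExact α (fun n => (β n : ℝ)) p k).card : ℝ) := by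
  have h1 : ∀ᵐ α ∂(Measure.infinitePi μ), ∀ q : (k : ℕ) × (Fin k → ℚ), 1 ≤ q.1 →
      ∃ᶠ X : ℕ in atTop, (1 / 2) ^ (q.1 + 3) * (X / Real.log X ^ q.1) ≤
        (((Finset.Icc 1 X).filter fun p => StartsExact α
          (fun n => if h : n < q.1 then ((q.2 ⟨n, h⟩ : ℚ) : ℝ) else 0) p q.1).card : ℝ) := by
    rw [ae_all_iff]
    rintro ⟨k, b⟩
    by_cases hk : 1 ≤ k
    · have h2 := infP_one μ hac hpos k hk
        (fun n => if h : n < k then ((b ⟨n, h⟩ : ℚ) : ℝ) else 0)
      filter_upwards [h2] with α hα _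
      exact hα
    · filter_upwards with α h
      exact absurd h hk
  filter_upwards [h1] with α hα β k hk
  have h2 := hα ⟨k, fun i => β i⟩ hk
  refine h2.mono fun X hX => ?_
  refine le_trans hX (le_of_eq ?_)
  congr 2
  refine Finset.filter_congr fun p _ => ?_
  refine starts_congr (fun i _ => rfl) (fun i hi => ?_)
  show (if h : i < k then _ else _) = _
  rw [dif_pos hi]

end MCC
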