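import Pool.Agent.MCC.Equi
import Pool.Agent.MRZ.SelMaj

/-!
# MCC.Pair: two members are rarely prime at the same time

PROOF. Let `C0` be the constant of `Pool.MRZ.sel_maj`, `D = ⌊X^(η/80)⌋₊ ≥ 2`, `l` the weights for `D`,
`S n = ∑_{d ∣ n, d ≤ D²} l d ≥ 0` for `n ≥ 1`, `≥ 1` for primes `n > D`. For `t ∈ [a,b]` and large `X` the
numbers `c = ⌊t m + β⌋₊`, `c' = ⌊t m' + β⌋₊` are `> D`, so `1[c, c' prime] ≤ S c * S c'`. Integrate over
`[a,b]`: `∑_{d,e ≤ D²} l_d l_e vol {t ∈ [a,b] : d ∣ c, e ∣ c'} ≤ (b-a) (∑ l_d/d)² + (∑ |l_d|)² X^(-η/5)` by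
`equi` (`D² ≤ X^(η/16)`), `∑ |l_d| ≤ D² D⁴`, so the error is `≤ D^12 X^(-η/5) ≤ X^(-η/20)`, and
`|∑ l_d/d| ≤ C0/log D`, `log D ≥ (η/160) log X`. So `C = 2 (160 C0/η)²` works for large `X`.
-/

namespace MCC

open MeasureTheory Filter

private theorem Pair_meas_floor (m : ℕ) (β : ℝ) (P : ℕ → Prop) :
    MeasurableSet {t : ℝ | P ⌊t * (m : ℝ) + β⌋₊} := by
  have h : Measurable fun t : ℝ => ⌊t * (m : ℝ) + β⌋₊ :=
    Nat.measurable_floor.comp ((measurable_id.mul_const _).add_const _)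
  exact h (MeasurableSet.of_discrete (s := {n | P n}))

/-- the analytic part: integration of the majorant -/
private theorem Pair_core {a b : ℝ} (β : ℝ) (m m' : ℕ) (D : ℕ) (l : ℕ → ℝ)
    (hl1 : ∀ n, 1 ≤ n → 0 ≤ ∑ d ∈ (Finset.Icc 1 (D ^ 2)).filter (· ∣ n), l d)
    (hl2 : ∀ p, p.Prime → D < p → 1 ≤ ∑ d ∈ (Finset.Icc 1 (D ^ 2)).filter (· ∣ p), l d)
    (hc : ∀ t ∈ Set.Icc a b, D < ⌊t * (m : ℝ) + β⌋₊)
    (hc' : ∀ t ∈ Set.Icc a b, D < ⌊t * (m' : ℝ) + β⌋₊) :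
    (volume {t : ℝ | t ∈ Set.Icc a b ∧ (⌊t * (m : ℝ) + β⌋₊).Prime ∧
          (⌊t * (m' : ℝ) + β⌋₊).Prime}).toReal ≤
      ∑ d ∈ Finset.Icc 1 (D ^ 2), ∑ e ∈ Finset.Icc 1 (D ^ 2), l d * l e *
        (volume {t : ℝ | t ∈ Set.Icc a b ∧ d ∣ ⌊t * (m : ℝ) + β⌋₊ ∧
          e ∣ ⌊t * (m' : ℝ) + β⌋₊}).toReal := by
  classical
  set E : ℕ → ℕ → Set ℝ := fun d e => {t : ℝ | t ∈ Set.Icc a b ∧ d ∣ ⌊t * (m : ℝ) + β⌋₊ ∧
          e ∣ ⌊t * (m' : ℝ) + β⌋₊} with hE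
  set A : Set ℝ := {t : ℝ | t ∈ Set.Icc a b ∧ (⌊t * (m : ℝ) + β⌋₊).Prime ∧
          (⌊t * (m' : ℝ) + β⌋₊).Prime} with hA
  have hEm : ∀ d e, MeasurableSet (E d e) := fun d e =>
    measurableSet_Icc.inter ((Pair_meas_floor m β (d ∣ ·)).inter (Pair_meas_floor m' β (e ∣ ·)))
  have hAm : MeasurableSet A :=
    measurableSet_Icc.inter ((Pair_meas_floor m β Nat.Prime).inter
      (Pair_meas_floor m' β Nat.Prime))
  have hfin : volume (Set.Icc a b) < ⊤ := by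
    rw [Real.volume_Icc]; exact ENNReal.ofReal_lt_top
  have hEf : ∀ d e, volume (E d e) < ⊤ := fun d e =>
    lt_of_le_of_lt (measure_mono fun t ht => ht.1) hfin
  have hAf : volume A < ⊤ := lt_of_le_of_lt (measure_mono fun t ht => ht.1) hfin
  have hint : ∀ d e, Integrable ((E d e).indicator (1 : ℝ → ℝ)) volume := fun d e =>
    (integrable_indicator_iff (hEm d e)).2 (integrableOn_const (hEf d e).ne)
  have hintA : Integrable (A.indicator (1 : ℝ → ℝ)) volume :=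
    (integrable_indicator_iff hAm).2 (integrableOn_const hAf.ne)
  have hval : ∀ d e, ∫ t, (E d e).indicator (1 : ℝ → ℝ) t = (volume (E d e)).toReal := by
    intro d e
    rw [integral_indicator_one (hEm d e)]
    rfl
  have hvalA : ∫ t, A.indicator (1 : ℝ → ℝ) t = (volume A).toReal := by
    rw [integral_indicator_one hAm]
    rfl
  have hF : Integrable (fun t => ∑ d ∈ Finset.Icc 1 (D ^ 2), ∑ e ∈ Finset.Icc 1 (D ^ 2),
      l d * l e * (E d e).indicator (1 : ℝ → ℝ) t) volume :=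
    integrable_finsetSum _ fun d _ => integrable_finsetSum _ fun e _ => (hint d e).const_mul _
  have hle : ∀ t, A.indicator (1 : ℝ → ℝ) t ≤ ∑ d ∈ Finset.Icc 1 (D ^ 2),
      ∑ e ∈ Finset.Icc 1 (D ^ 2), l d * l e * (E d e).indicator (1 : ℝ → ℝ) t := by
    intro t
    by_cases ht : t ∈ Set.Icc a b
    · have h1 : ∑ d ∈ Finset.Icc 1 (D ^ 2),
          ∑ e ∈ Finset.Icc 1 (D ^ 2), l d * l e * (E d e).indicator (1 : ℝ → ℝ) t =
          (∑ d ∈ (Finset.Icc 1 (D ^ 2)).filter (· ∣ ⌊t * (m : ℝ) + β⌋₊), l d) *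
          (∑ d ∈ (Finset.Icc 1 (D ^ 2)).filter (· ∣ ⌊t * (m' : ℝ) + β⌋₊), l d) := by
        rw [Finset.sum_filter, Finset.sum_filter, Finset.sum_mul_sum]
        refine Finset.sum_congr rfl fun d _ => Finset.sum_congr rfl fun e _ => ?_
        by_cases hd : d ∣ ⌊t * (m : ℝ) + β⌋₊
        · by_cases he : e ∣ ⌊t * (m' : ℝ) + β⌋₊
          · rw [Set.indicator_of_mem (show t ∈ E d e from ⟨ht, hd, he⟩), if_pos hd, if_pos he]
            simp
          · rw [Set.indicator_of_notMem (fun h : t ∈ E d e => he h.2.2), if_neg he]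
            simp
        · rw [Set.indicator_of_notMem (fun h : t ∈ E d e => hd h.2.1), if_neg hd]
          simp
      rw [h1]
      have hg := hl1 ⌊t * (m : ℝ) + β⌋₊ (by have := hc t ht; omega)
      have hg' := hl1 ⌊t * (m' : ℝ) + β⌋₊ (by have := hc' t ht; omega)
      by_cases hA' : t ∈ A
      · rw [Set.indicator_of_mem hA']
        have h2 := hl2 _ hA'.2.1 (hc t ht)
        have h3 := hl2 _ hA'.2.2 (hc' t ht)
        simp only [Pi.one_apply]
        nlinarith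
      · rw [Set.indicator_of_notMem hA']
        exact mul_nonneg hg hg'
    · rw [Set.indicator_of_notMem (fun h : t ∈ A => ht h.1)]
      refine (Finset.sum_eq_zero fun d _ => Finset.sum_eq_zero fun e _ => ?_).ge
      rw [Set.indicator_of_notMem (fun h : t ∈ E d e => ht h.1), mul_zero]
  calc (volume A).toReal = ∫ t, A.indicator (1 : ℝ → ℝ) t := hvalA.symm
    _ ≤ ∫ t, ∑ d ∈ Finset.Icc 1 (D ^ 2), ∑ e ∈ Finset.Icc 1 (D ^ 2),
      l d * l e * (E d e).indicator (1 : ℝ → ℝ) t := integral_mono hintA hF hle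
    _ = _ := by
      rw [integral_finsetSum _ fun d _ => integrable_finsetSum _ fun e _ =>
        (hint d e).const_mul _]
      refine Finset.sum_congr rfl fun d _ => ?_
      rw [integral_finsetSum _ fun e _ => (hint d e).const_mul _]
      refine Finset.sum_congr rfl fun e _ => ?_
      rw [integral_const_mul, hval]

/-- the arithmetic part -/
private theorem Pair_sum {D : ℕ} {l : ℕ → ℝ} {V : ℕ → ℕ → ℝ} {w ε : ℝ} (hw : 0 ≤ w)
    (hε : 0 ≤ ε) (hl : ∀ d, |l d| ≤ (d : ℝ) ^ 2)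
    (hV : ∀ d ∈ Finset.Icc 1 (D ^ 2), ∀ e ∈ Finset.Icc 1 (D ^ 2),
      |V d e - w / ((d : ℝ) * e)| ≤ ε) :
    ∑ d ∈ Finset.Icc 1 (D ^ 2), ∑ e ∈ Finset.Icc 1 (D ^ 2), l d * l e * V d e ≤
      w * |∑ d ∈ Finset.Icc 1 (D ^ 2), l d / d| ^ 2 + (D : ℝ) ^ 12 * ε := by
  have h1 : ∀ d ∈ Finset.Icc 1 (D ^ 2), ∀ e ∈ Finset.Icc 1 (D ^ 2),
      l d * l e * V d e ≤ w * ((l d / d) * (l e / e)) + (D : ℝ) ^ 8 * ε := by
    intro d hd e he
    have hd' := Finset.mem_Icc.1 hd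
    have he' := Finset.mem_Icc.1 he
    have hbd : ∀ d : ℕ, d ≤ D ^ 2 → |l d| ≤ (D : ℝ) ^ 4 := by
      intro d hd
      refine (hl d).trans ?_
      have : (d : ℝ) ≤ (D : ℝ) ^ 2 := by exact_mod_cast hd
      calc (d : ℝ) ^ 2 ≤ ((D : ℝ) ^ 2) ^ 2 := by gcongr
        _ = (D : ℝ) ^ 4 := by ring
    have h2 : l d * l e * (V d e - w / ((d : ℝ) * e)) ≤ (D : ℝ) ^ 8 * ε := by
      refine (le_abs_self _).trans ?_
      rw [abs_mul, abs_mul]
      calc |l d| * |l e| * |V d e - w / ((d : ℝ) * e)| ≤ (D : ℝ) ^ 4 * (D : ℝ) ^ 4 * ε := by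
            gcongr
            · exact hbd d hd'.2
            · exact hbd e he'.2
            · exact hV d hd e he
        _ = (D : ℝ) ^ 8 * ε := by ring
    have h3 : l d * l e * V d e = l d * l e * (V d e - w / ((d : ℝ) * e)) +
        w * ((l d / d) * (l e / e)) := by
      have hd0 : (d : ℝ) ≠ 0 := by
        have : 0 < d := hd'.1
        positivity
      have he0 : (e : ℝ) ≠ 0 := by
        have : 0 < e := he'.1
        positivity
      field_simp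
      ring
    rw [h3]
    linarith
  calc ∑ d ∈ Finset.Icc 1 (D ^ 2), ∑ e ∈ Finset.Icc 1 (D ^ 2), l d * l e * V d e
      ≤ ∑ d ∈ Finset.Icc 1 (D ^ 2), ∑ e ∈ Finset.Icc 1 (D ^ 2),
        (w * ((l d / d) * (l e / e)) + (D : ℝ) ^ 8 * ε) :=
      Finset.sum_le_sum fun d hd => Finset.sum_le_sum fun e he => h1 d hd e he
    _ = w * |∑ d ∈ Finset.Icc 1 (D ^ 2), l d / d| ^ 2 + (D : ℝ) ^ 12 * ε := by
      rw [sq_abs, pow_two (∑ d ∈ Finset.Icc 1 (D ^ 2), l d / (d : ℝ)), Finset.sum_mul_sum,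
        Finset.mul_sum]
      simp_rw [Finset.sum_add_distrib, Finset.mul_sum]
      rw [Finset.sum_const, Finset.sum_const, Nat.card_Icc]
      simp only [nsmul_eq_mul, Nat.add_sub_cancel]
      push_cast
      ring

theorem pair_bound {η : ℝ} (hη : 0 < η) (hη1 : η ≤ 1 / 20) :
    ∃ C : ℝ, 0 < C ∧ ∀ a b κ1 κ2 β : ℝ, 0 < a → a < b → 0 < κ1 →
      ∃ X0 : ℝ, ∀ X : ℝ, X0 ≤ X → ∀ m m' : ℕ, κ1 * X ≤ (m : ℝ) → (m : ℝ) ≤ κ2 * X →
        κ1 * X ≤ (m' : ℝ) → (m' : ℝ) ≤ κ2 * X → NE X η m m' →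
        volume {t : ℝ | t ∈ Set.Icc a b ∧ (⌊t * (m : ℝ) + β⌋₊).Prime ∧
          (⌊t * (m' : ℝ) + β⌋₊).Prime} ≤ ENNReal.ofReal (C * (b - a) / Real.log X ^ 2) := by
  obtain ⟨C0, hC0, hsel⟩ := Pool.MRZ.sel_maj
  refine ⟨2 * (160 * C0 / η) ^ 2, by positivity, ?_⟩
  intro a b κ1 κ2 β ha hab hκ
  obtain ⟨X1, hX1⟩ := equi (κ2 := κ2) hη hη1 β ha hab hκ
  -- eventual inequalities
  have e1 : ∀ᶠ X : ℝ in atTop, 2 ≤ X ^ (η / 160) :=
    (tendsto_rpow_atTop (by positivity)).eventually_ge_atTop 2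
  have e2 : ∀ᶠ X : ℝ in atTop, X ^ (η / 80) ≤ (a * κ1 / 2) * X := by
    have h : ∀ᶠ X : ℝ in atTop, 2 / (a * κ1) ≤ X ^ (1 - η / 80) :=
      (tendsto_rpow_atTop (by linarith)).eventually_ge_atTop _
    filter_upwards [h, eventually_gt_atTop (0 : ℝ)] with X hX hX0
    have h1 : X = X ^ (η / 80) * X ^ (1 - η / 80) := by
      rw [← Real.rpow_add hX0]
      simp
    have h2 : 1 ≤ (a * κ1 / 2) * X ^ (1 - η / 80) := by
      rw [div_le_iff₀ (by positivity)] at hX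
      linarith
    have h3 : 0 ≤ X ^ (η / 80) := by positivity
    calc X ^ (η / 80) = X ^ (η / 80) * 1 := (mul_one _).symm
      _ ≤ X ^ (η / 80) * ((a * κ1 / 2) * X ^ (1 - η / 80)) := by gcongr
      _ = (a * κ1 / 2) * (X ^ (η / 80) * X ^ (1 - η / 80)) := by ring
      _ = (a * κ1 / 2) * X := by rw [← h1]
  have e3 : ∀ᶠ X : ℝ in atTop, 1 - β < (a * κ1 / 2) * X :=
    (tendsto_id.const_mul_atTop (by positivity)).eventually_gt_atTop _
  have e4 : ∀ᶠ X : ℝ in atTop, X ^ (-(η / 20)) * Real.log X ^ 2 ≤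
      (160 * C0 / η) ^ 2 * (b - a) := by
    have h : Tendsto (fun X : ℝ => Real.log X ^ 2 / X ^ (η / 20)) atTop (nhds 0) := by
      have h := (isLittleO_log_rpow_rpow_atTop (s := η / 20) (2 : ℝ)
        (by positivity)).tendsto_div_nhds_zero
      refine h.congr fun X => ?_
      rw [Real.rpow_two]
    have hpos : 0 < (160 * C0 / η) ^ 2 * (b - a) := by
      have : 0 < b - a := by linarith
      positivity
    filter_upwards [h.eventually_le_const hpos, eventually_gt_atTop (0 : ℝ)] with X hX hX0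
    rw [Real.rpow_neg hX0.le, inv_mul_eq_div]
    exact hX
  obtain ⟨X2, hX2⟩ := (((e1.and e2).and (e3.and e4)).and (eventually_gt_atTop (1 : ℝ))).exists_forall_of_atTop
  refine ⟨max X1 X2, fun X hX m m' hm1 hm2 hm1' hm2' hNE => ?_⟩
  obtain ⟨⟨⟨f1, f2⟩, f3, f4⟩, f5⟩ := hX2 X ((le_max_right _ _).trans hX)
  have hXpos : 0 < X := by linarith
  set D : ℕ := ⌊X ^ (η / 80)⌋₊ with hD
  have hsq : X ^ (η / 80) = (X ^ (η / 160)) ^ 2 := by
    rw [← Real.rpow_natCast, ← Real.rpow_mul hXpos.le]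
    congr 1
    push_cast
    ring
  have hDle : (D : ℝ) ≤ X ^ (η / 80) := Nat.floor_le (by positivity)
  have hDge : X ^ (η / 160) ≤ (D : ℝ) := by
    have h1 : X ^ (η / 80) < (D : ℝ) + 1 := Nat.lt_floor_add_one _
    rw [hsq] at h1
    nlinarith
  have hD2 : 2 ≤ D := by
    have : (2 : ℝ) ≤ D := f1.trans hDge
    exact_mod_cast this
  obtain ⟨l, hl0, hl1, hl2, hl3⟩ := hsel D hD2
  have hbig : ∀ n : ℕ, κ1 * X ≤ (n : ℝ) → ∀ t ∈ Set.Icc a b, D < ⌊t * (n : ℝ) + β⌋₊ := by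
    intro n hn t ht
    rw [Nat.lt_iff_add_one_le]
    refine Nat.le_floor ?_
    push_cast
    have h1 : a * (κ1 * X) ≤ t * (n : ℝ) := by
      have : 0 ≤ κ1 * X := by positivity
      exact mul_le_mul ht.1 hn this (ha.le.trans ht.1)
    nlinarith
  have hcore := Pair_core (a := a) (b := b) β m m' D l hl1 hl2 (hbig m hm1) (hbig m' hm1')
  have hDX : ∀ d : ℕ, d ≤ D ^ 2 → (d : ℝ) ≤ X ^ (η / 16) := by
    intro d hd
    have h1 : (d : ℝ) ≤ (D : ℝ) ^ 2 := by exact_mod_cast hd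
    refine h1.trans ?_
    calc (D : ℝ) ^ 2 ≤ (X ^ (η / 80)) ^ 2 := by gcongr
      _ = X ^ (η / 40) := by
        rw [← Real.rpow_natCast, ← Real.rpow_mul hXpos.le]
        congr 1
        push_cast
        ring
      _ ≤ X ^ (η / 16) := Real.rpow_le_rpow_of_exponent_le f5.le (by linarith)
  have hsum := Pair_sum (D := D) (l := l)
    (V := fun d e => (volume {t : ℝ | t ∈ Set.Icc a b ∧ d ∣ ⌊t * (m : ℝ) + β⌋₊ ∧
          e ∣ ⌊t * (m' : ℝ) + β⌋₊}).toReal) (w := b - a) (ε := X ^ (-(η / 5))) (by linarith)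
    (by positivity) hl0 (by
      intro d hd e he
      have hd' := Finset.mem_Icc.1 hd
      have he' := Finset.mem_Icc.1 he
      exact hX1 X ((le_max_left _ _).trans hX) m m' hm1 hm2 hm1' hm2' hNE d e hd'.1 he'.1
        (hDX d hd'.2) (hDX e he'.2))
  have hlogX : 0 < Real.log X := Real.log_pos f5
  have hlogD : η / 160 * Real.log X ≤ Real.log D := by
    rw [← Real.log_rpow hXpos]
    exact Real.log_le_log (by positivity) hDge
  have hmain : |∑ d ∈ Finset.Icc 1 (D ^ 2), l d / d| ≤ (160 * C0 / η) / Real.log X := by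
    refine hl3.trans ?_
    calc C0 / Real.log D ≤ C0 / (η / 160 * Real.log X) := by
          gcongr
      _ = (160 * C0 / η) / Real.log X := by
          field_simp
  have hD12 : (D : ℝ) ^ 12 * X ^ (-(η / 5)) ≤ X ^ (-(η / 20)) := by
    calc (D : ℝ) ^ 12 * X ^ (-(η / 5)) ≤ (X ^ (η / 80)) ^ 12 * X ^ (-(η / 5)) := by gcongr
      _ = X ^ (-(η / 20)) := by
        rw [← Real.rpow_natCast, ← Real.rpow_mul hXpos.le, ← Real.rpow_add hXpos]
        congr 1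
        push_cast
        ring
  have hfin : volume {t : ℝ | t ∈ Set.Icc a b ∧ (⌊t * (m : ℝ) + β⌋₊).Prime ∧
          (⌊t * (m' : ℝ) + β⌋₊).Prime} ≠ ⊤ := by
    refine ne_top_of_le_ne_top ?_ (measure_mono (fun t ht => ht.1 : _ ⊆ Set.Icc a b))
    rw [Real.volume_Icc]
    exact ENNReal.ofReal_ne_top
  rw [← ENNReal.ofReal_toReal hfin]
  refine ENNReal.ofReal_le_ofReal ?_
  refine (hcore.trans hsum).trans ?_
  have h1 : (b - a) * |∑ d ∈ Finset.Icc 1 (D ^ 2), l d / d| ^ 2 ≤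
      (b - a) * ((160 * C0 / η) / Real.log X) ^ 2 := by
    have : 0 ≤ b - a := by linarith
    gcongr
  have h2 : X ^ (-(η / 20)) ≤ (160 * C0 / η) ^ 2 * (b - a) / Real.log X ^ 2 := by
    rw [le_div_iff₀ (by positivity)]
    exact f4
  calc (b - a) * |∑ d ∈ Finset.Icc 1 (D ^ 2), l d / d| ^ 2 + (D : ℝ) ^ 12 * X ^ (-(η / 5))
      ≤ (b - a) * ((160 * C0 / η) / Real.log X) ^ 2 +
        (160 * C0 / η) ^ 2 * (b - a) / Real.log X ^ 2 := by
        linarith [hD12.trans h2]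
    _ = 2 * (160 * C0 / η) ^ 2 * (b - a) / Real.log X ^ 2 := by
        field_simp
        ring

end MCC
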