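import Pool.Agent.MCC.Basic
import Pool.Agent.MCC.Pair

/-!
# MCC.VolP: the volume of the multipliers for which two chains consist of primes

PROOF. Induction on `j` as in `MCC.VolS`, with `pair_bound` for `m = c_j`, `m' = c'_j` (sizes: `chain_size`; general
position: `ne_step`, as `NE4` holds for `(p, p')`). In the second statement the last coordinate is free.
-/

namespace MCC

open MeasureTheory Filter

/-- Fubini for the last coordinate. -/
private theorem VolP_fub {j : ℕ} {S : Set (Fin (j + 1) → ℝ)} (hS : MeasurableSet S)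
    (A : Set (Fin j → ℝ)) (B : ENNReal)
    (hA : ∀ x ∈ S, (fun i : Fin j => x i.castSucc) ∈ A)
    (hB : ∀ y ∈ A, volume {t : ℝ | ∃ x ∈ S, (∀ i : Fin j, x i.castSucc = y i) ∧
      x (Fin.last j) = t} ≤ B) : volume S ≤ volume A * B := by
  let e := MeasurableEquiv.piFinSuccAbove (fun _ : Fin (j + 1) => ℝ) (Fin.last j)
  have he : MeasurePreserving e volume volume :=
    volume_preserving_piFinSuccAbove (fun _ : Fin (j + 1) => ℝ) (Fin.last j)
  have hsym : MeasurePreserving e.symm volume volume := he.symm e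
  have hS' : MeasurableSet (e.symm ⁻¹' S) := e.symm.measurable hS
  have h1 : volume S = volume (e.symm ⁻¹' S) :=
    (hsym.measure_preimage_equiv S).symm
  rw [h1]
  have h2 : volume (e.symm ⁻¹' S) =
      ∫⁻ y : Fin j → ℝ, volume ((fun t : ℝ => (t, y)) ⁻¹' (e.symm ⁻¹' S)) := by
    have h3 := Measure.prod_apply_symm (μ := (volume : Measure ℝ))
      (ν := (volume : Measure (Fin j → ℝ))) hS'
    exact h3
  rw [h2]
  have hcs : ∀ (t : ℝ) (y : Fin j → ℝ) (i : Fin j), e.symm (t, y) i.castSucc = y i := by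
    intro t y i
    have h4 : e (e.symm (t, y)) = (t, y) := e.apply_symm_apply _
    have h5 := congrFun (congrArg Prod.snd h4) i
    have h6 : (e (e.symm (t, y))).2 i = e.symm (t, y) ((Fin.last j).succAbove i) := rfl
    rw [h6, Fin.succAbove_last] at h5
    exact h5
  have hl : ∀ (t : ℝ) (y : Fin j → ℝ), e.symm (t, y) (Fin.last j) = t := by
    intro t y
    have h4 : e (e.symm (t, y)) = (t, y) := e.apply_symm_apply _
    exact congrArg Prod.fst h4
  calc ∫⁻ y : Fin j → ℝ, volume ((fun t : ℝ => (t, y)) ⁻¹' (e.symm ⁻¹' S))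
      ≤ ∫⁻ y : Fin j → ℝ, A.indicator (fun _ => B) y := by
        refine lintegral_mono fun y => ?_
        by_cases hy : y ∈ A
        · rw [Set.indicator_of_mem hy]
          refine le_trans (measure_mono ?_) (hB y hy)
          intro t ht
          exact ⟨e.symm (t, y), ht, hcs t y, hl t y⟩
        · rw [Set.indicator_of_notMem hy]
          have h7 : (fun t : ℝ => (t, y)) ⁻¹' (e.symm ⁻¹' S) = ∅ := by
            rw [Set.eq_empty_iff_forall_notMem]
            intro t ht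
            apply hy
            have h8 := hA _ ht
            have h9 : (fun i : Fin j => e.symm (t, y) i.castSucc) = y := funext (hcs t y)
            rwa [h9] at h8
          rw [h7, measure_empty]
    _ ≤ B * volume A := lintegral_indicator_const_le _ _
    _ = volume A * B := mul_comm _ _

private theorem VolP_meas_prime {k : ℕ} (β : ℕ → ℝ) (p i : ℕ) :
    MeasurableSet {x : Fin k → ℝ | (chain (ext x) β p i).Prime} :=
  chain_meas β p i (MeasurableSet.of_discrete (s := {m : ℕ | m.Prime}))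

private theorem VolP_meas {k : ℕ} (β : ℕ → ℝ) (a b : Fin k → ℝ) (p p' j : ℕ) :
    MeasurableSet {x : Fin k → ℝ | x ∈ Set.Icc a b ∧ ∀ i, 1 ≤ i → i ≤ j →
      (chain (ext x) β p i).Prime ∧ (chain (ext x) β p' i).Prime} := by
  have h : {x : Fin k → ℝ | x ∈ Set.Icc a b ∧ ∀ i, 1 ≤ i → i ≤ j →
      (chain (ext x) β p i).Prime ∧ (chain (ext x) β p' i).Prime} =
      Set.Icc a b ∩ ⋂ i : ℕ, ⋂ (_ : 1 ≤ i), ⋂ (_ : i ≤ j),
        ({x : Fin k → ℝ | (chain (ext x) β p i).Prime} ∩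
          {x : Fin k → ℝ | (chain (ext x) β p' i).Prime}) := by
    ext x
    simp only [Set.mem_ofPred_eq, Set.mem_inter_iff, Set.mem_iInter]
  rw [h]
  refine measurableSet_Icc.inter (MeasurableSet.iInter fun i => MeasurableSet.iInter fun _ =>
    MeasurableSet.iInter fun _ => (VolP_meas_prime β p i).inter (VolP_meas_prime β p' i))

private theorem VolP_Icc {j : ℕ} {a b x : Fin (j + 1) → ℝ} (hx : x ∈ Set.Icc a b) :
    (fun i : Fin j => x i.castSucc) ∈
      Set.Icc (fun i : Fin j => a i.castSucc) (fun i : Fin j => b i.castSucc) ∧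
    x (Fin.last j) ∈ Set.Icc (a (Fin.last j)) (b (Fin.last j)) :=
  ⟨⟨fun i => hx.1 i.castSucc, fun i => hx.2 i.castSucc⟩, ⟨hx.1 _, hx.2 _⟩⟩

private theorem VolP_aux {η : ℝ} (hη : 0 < η) (hη1 : η ≤ 1 / 20) {C : ℝ} (hC : 0 < C)
    (hpair : ∀ a b κ1 κ2 β : ℝ, 0 < a → a < b → 0 < κ1 →
      ∃ X0 : ℝ, ∀ X : ℝ, X0 ≤ X → ∀ m m' : ℕ, κ1 * X ≤ (m : ℝ) → (m : ℝ) ≤ κ2 * X →
        κ1 * X ≤ (m' : ℝ) → (m' : ℝ) ≤ κ2 * X → NE X η m m' →
        volume {t : ℝ | t ∈ Set.Icc a b ∧ (⌊t * (m : ℝ) + β⌋₊).Prime ∧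
          (⌊t * (m' : ℝ) + β⌋₊).Prime} ≤ ENNReal.ofReal (C * (b - a) / Real.log X ^ 2)) :
    ∀ (j : ℕ) (β : ℕ → ℝ) (a b : Fin j → ℝ), (∀ i, 0 < a i) → (∀ i, a i < b i) →
    ∃ X0 : ℝ, ∀ X : ℝ, X0 ≤ X → ∀ p p' : ℕ, X < (p : ℝ) → (p : ℝ) ≤ 2 * X →
      X < (p' : ℝ) → (p' : ℝ) ≤ 2 * X → NE4 X η p p' →
      volume {x : Fin j → ℝ | x ∈ Set.Icc a b ∧ ∀ i, 1 ≤ i → i ≤ j →
          (chain (ext x) β p i).Prime ∧ (chain (ext x) β p' i).Prime} ≤
        ENNReal.ofReal ((∏ i, (b i - a i)) * (C / Real.log X ^ 2) ^ j) := by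
  intro j
  induction j with
  | zero =>
    intro β a b _ _
    refine ⟨0, fun X _ p p' _ _ _ _ _ => ?_⟩
    refine le_trans (measure_mono (Set.subset_univ _)) ?_
    rw [volume_pi, Measure.pi_empty_univ, pow_zero, mul_one, Finset.univ_eq_empty,
      Finset.prod_empty, ENNReal.ofReal_one]
  | succ j ih =>
    intro β a b ha hab
    obtain ⟨X1, hX1⟩ := ih β (fun i => a i.castSucc) (fun i => b i.castSucc) (fun i => ha _)
      (fun i => hab _)
    obtain ⟨κ1, κ2, X2, hκ1, -, hX2⟩ := chain_size β (a := fun i : Fin j => a i.castSucc)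
      (b := fun i : Fin j => b i.castSucc) (fun i => ha _) (fun i => (hab _).le)
    obtain ⟨X3, hX3⟩ := ne_step β (a := fun i : Fin j => a i.castSucc)
      (b := fun i : Fin j => b i.castSucc) (fun i => ha _) (fun i => (hab _).le) hη hη1
    obtain ⟨X4, hX4⟩ := hpair (a (Fin.last j)) (b (Fin.last j)) κ1 κ2 (β j) (ha _) (hab _) hκ1
    refine ⟨max (max X1 X2) (max X3 X4), fun X hX p p' hp hp2 hp' hp2' hne => ?_⟩
    rw [max_le_iff, max_le_iff, max_le_iff] at hX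
    obtain ⟨⟨h1, h2⟩, h3, h4⟩ := hX
    refine le_trans (VolP_fub (VolP_meas β a b p p' (j + 1))
      {x : Fin j → ℝ | x ∈ Set.Icc (fun i : Fin j => a i.castSucc)
        (fun i : Fin j => b i.castSucc) ∧ ∀ i, 1 ≤ i → i ≤ j →
          (chain (ext x) β p i).Prime ∧ (chain (ext x) β p' i).Prime}
      (ENNReal.ofReal (C * (b (Fin.last j) - a (Fin.last j)) / Real.log X ^ 2)) ?_ ?_) ?_
    · rintro x ⟨hx, hx2⟩
      refine ⟨(VolP_Icc hx).1, fun i hi hij => ?_⟩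
      have h5 := hx2 i hi (by omega)
      rwa [chain_snoc x β p hij, chain_snoc x β p' hij] at h5
    · rintro y ⟨hy, hy2⟩
      have h5 := hX2 X h2 y hy p hp hp2 j le_rfl
      have h6 := hX2 X h2 y hy p' hp' hp2' j le_rfl
      refine le_trans (measure_mono ?_) (hX4 X h4 (chain (ext y) β p j) (chain (ext y) β p' j)
        h5.1 h5.2 h6.1 h6.2 (hX3 X h3 y hy p p' hp hp2 hp' hp2' hne j le_rfl))
      rintro t ⟨x, ⟨hx, hx2⟩, hxy, rfl⟩
      have h7 := hx2 (j + 1) (by omega) le_rfl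
      rw [chain_last x β p, chain_last x β p', funext hxy] at h7
      exact ⟨(VolP_Icc hx).2, h7.1, h7.2⟩
    · refine le_trans (mul_le_mul_left (hX1 X h1 p p' hp hp2 hp' hp2' hne) _) ?_
      rw [← ENNReal.ofReal_mul' (div_nonneg (mul_nonneg hC.le (sub_nonneg.2 (hab _).le))
        (sq_nonneg _)), Fin.prod_univ_castSucc, pow_succ]
      apply le_of_eq
      congr 1
      ring

theorem vol_pair_le {η : ℝ} (hη : 0 < η) (hη1 : η ≤ 1 / 20) : ∃ C : ℝ, 0 < C ∧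
    ∀ (j : ℕ) (β : ℕ → ℝ) (a b : Fin j → ℝ), (∀ i, 0 < a i) → (∀ i, a i < b i) →
    ∃ X0 : ℝ, ∀ X : ℝ, X0 ≤ X → ∀ p p' : ℕ, X < (p : ℝ) → (p : ℝ) ≤ 2 * X →
      X < (p' : ℝ) → (p' : ℝ) ≤ 2 * X → NE4 X η p p' →
      volume {x : Fin j → ℝ | x ∈ Set.Icc a b ∧ ∀ i, 1 ≤ i → i ≤ j →
          (chain (ext x) β p i).Prime ∧ (chain (ext x) β p' i).Prime} ≤
        ENNReal.ofReal ((∏ i, (b i - a i)) * (C / Real.log X ^ 2) ^ j) := by
  obtain ⟨C, hC, hpair⟩ := pair_bound hη hη1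
  exact ⟨C, hC, VolP_aux hη hη1 hC hpair⟩

theorem vol_exact_le {η : ℝ} (hη : 0 < η) (hη1 : η ≤ 1 / 20) : ∃ C : ℝ, 0 < C ∧
    ∀ (k : ℕ), 1 ≤ k → ∀ (β : ℕ → ℝ) (a b : Fin k → ℝ), (∀ i, 0 < a i) → (∀ i, a i < b i) →
    ∃ X0 : ℝ, ∀ X : ℝ, X0 ≤ X → ∀ p p' : ℕ, X < (p : ℝ) → (p : ℝ) ≤ 2 * X →
      X < (p' : ℝ) → (p' : ℝ) ≤ 2 * X → NE4 X η p p' →
      volume {x : Fin k → ℝ | x ∈ Set.Icc a b ∧ StartsExact (ext x) β p k ∧
          StartsExact (ext x) β p' k} ≤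
        ENNReal.ofReal ((∏ i, (b i - a i)) * (C / Real.log X ^ 2) ^ (k - 1)) := by
  obtain ⟨C, hC, hpair⟩ := pair_bound hη hη1
  refine ⟨C, hC, fun k hk => ?_⟩
  obtain ⟨j, rfl⟩ : ∃ j, k = j + 1 := ⟨k - 1, by omega⟩
  intro β a b ha hab
  obtain ⟨X1, hX1⟩ := VolP_aux hη hη1 hC hpair j β (fun i => a i.castSucc)
    (fun i => b i.castSucc) (fun i => ha _) (fun i => hab _)
  refine ⟨X1, fun X hX p p' hp hp2 hp' hp2' hne => ?_⟩
  refine le_trans (measure_mono (t := {x : Fin (j + 1) → ℝ | x ∈ Set.Icc a b ∧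
    ∀ i, 1 ≤ i → i ≤ j → (chain (ext x) β p i).Prime ∧ (chain (ext x) β p' i).Prime}) ?_) ?_
  · rintro x ⟨hx, h1, h2⟩
    exact ⟨hx, fun i _ hij => ⟨h1.1 i (by omega), h2.1 i (by omega)⟩⟩
  refine le_trans (VolP_fub (VolP_meas β a b p p' j)
      {x : Fin j → ℝ | x ∈ Set.Icc (fun i : Fin j => a i.castSucc)
        (fun i : Fin j => b i.castSucc) ∧ ∀ i, 1 ≤ i → i ≤ j →
          (chain (ext x) β p i).Prime ∧ (chain (ext x) β p' i).Prime}
      (ENNReal.ofReal (b (Fin.last j) - a (Fin.last j))) ?_ ?_) ?_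
  · rintro x ⟨hx, hx2⟩
    refine ⟨(VolP_Icc hx).1, fun i hi hij => ?_⟩
    have h5 := hx2 i hi (by omega)
    rwa [chain_snoc x β p hij, chain_snoc x β p' hij] at h5
  · rintro y ⟨hy, hy2⟩
    rw [← Real.volume_Icc]
    refine measure_mono ?_
    rintro t ⟨x, ⟨hx, hx2⟩, hxy, rfl⟩
    exact (VolP_Icc hx).2
  · refine le_trans (mul_le_mul_left (hX1 X hX p p' hp hp2 hp' hp2' hne) _) ?_
    rw [← ENNReal.ofReal_mul' (sub_nonneg.2 (hab _).le), Fin.prod_univ_castSucc,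
      Nat.add_sub_cancel]
    apply le_of_eq
    congr 1
    ring

end MCC
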