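import Pool.Agent.MCC.VolS
import Pool.Agent.MCC.VolP
import Pool.Agent.MCC.ExcP

/-!
# MCC.Moments: the first and the second moment of the number of chains

PROOF. `X = 2^r`, `V = ∏ (b i - a i)`. `NS β r x = ∑_p 1[StartsExact (ext x) β p k]` over `p ∈ (X, 2X]`.
First moment: `vol_exact_ge` and `primes_dyadic`: at least
`(X/(2 log X)) V/(2 (2 log X)^(k-1)) ≥ V X/(2 (2 log X)^k)`; so `c = 2^(-k-1)`.
Second moment: `NS² = ∑_{p,p'} 1[..] 1[..]` (`p`, `p'` prime). Pairs for which `NE4 X η p p'` fails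
(`η = 1/20`), at most `X^(2-η)` by `card_exc`, contribute at most `V X^(2-η)`; the other ones at most
`(2X/log X)² V (C/(log X)²)^(k-1)` by `vol_exact_le` and `primes_dyadic`. As `X^(-η) (log X)^(2k) → 0`, the sum is
at most `(4 C^(k-1) + 1) V (X/(log X)^k)²` for large `r`.
-/

namespace MCC

open MeasureTheory Filter

private theorem Moments_NS_eq {k : ℕ} (β : ℕ → ℝ) (r : ℕ) (x : Fin k → ℝ) :
    (NS β r x : ENNReal) = ∑ p ∈ Finset.Ioc (2 ^ r) (2 ^ (r + 1)),
      Set.indicator {x : Fin k → ℝ | StartsExact (ext x) β p k} (1 : (Fin k → ℝ) → ENNReal) x := by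
  unfold NS
  rw [Finset.card_filter]
  push_cast
  refine Finset.sum_congr rfl fun p _ => ?_
  by_cases h : StartsExact (ext x) β p k
  · rw [if_pos h, Set.indicator_of_mem (by exact h)]
    rfl
  · rw [if_neg h, Set.indicator_of_notMem (by exact h)]

private theorem Moments_lint {k : ℕ} (β : ℕ → ℝ) (a b : Fin k → ℝ) (r : ℕ) :
    ∫⁻ x in Set.Icc a b, (NS β r x : ENNReal) = ∑ p ∈ Finset.Ioc (2 ^ r) (2 ^ (r + 1)),
      volume {x : Fin k → ℝ | x ∈ Set.Icc a b ∧ StartsExact (ext x) β p k} := by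
  simp_rw [Moments_NS_eq]
  rw [lintegral_finsetSum _ (fun p _ => measurable_one.indicator (starts_meas β p))]
  refine Finset.sum_congr rfl fun p _ => ?_
  rw [lintegral_indicator_one (starts_meas β p), Measure.restrict_apply (starts_meas β p)]
  congr 1
  ext x
  simp only [Set.mem_inter_iff, Set.mem_ofPred_eq]
  tauto

private theorem Moments_lint2 {k : ℕ} (β : ℕ → ℝ) (a b : Fin k → ℝ) (r : ℕ) :
    ∫⁻ x in Set.Icc a b, (NS β r x : ENNReal) ^ 2 =
      ∑ y ∈ (Finset.Ioc (2 ^ r) (2 ^ (r + 1))) ×ˢ (Finset.Ioc (2 ^ r) (2 ^ (r + 1))),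
      volume {x : Fin k → ℝ | x ∈ Set.Icc a b ∧ StartsExact (ext x) β y.1 k ∧
        StartsExact (ext x) β y.2 k} := by
  have h1 : ∀ x : Fin k → ℝ, (NS β r x : ENNReal) ^ 2 =
      ∑ y ∈ (Finset.Ioc (2 ^ r) (2 ^ (r + 1))) ×ˢ (Finset.Ioc (2 ^ r) (2 ^ (r + 1))),
      Set.indicator ({x : Fin k → ℝ | StartsExact (ext x) β y.1 k} ∩
        {x : Fin k → ℝ | StartsExact (ext x) β y.2 k}) (1 : (Fin k → ℝ) → ENNReal) x := by
    intro x
    rw [Moments_NS_eq, sq, Finset.sum_mul_sum, ← Finset.sum_product']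
    refine Finset.sum_congr rfl fun y _ => ?_
    by_cases h1 : StartsExact (ext x) β y.1 k
    · by_cases h2 : StartsExact (ext x) β y.2 k
      · simp [Set.indicator, h1, h2]
      · simp [Set.indicator, h1, h2]
    · simp [Set.indicator, h1]
  simp_rw [h1]
  rw [lintegral_finsetSum _ (fun y _ => measurable_one.indicator
    ((starts_meas β y.1).inter (starts_meas β y.2)))]
  refine Finset.sum_congr rfl fun y _ => ?_
  rw [lintegral_indicator_one ((starts_meas β y.1).inter (starts_meas β y.2)),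
    Measure.restrict_apply ((starts_meas β y.1).inter (starts_meas β y.2))]
  congr 1
  ext x
  simp only [Set.mem_inter_iff, Set.mem_ofPred_eq]
  tauto

private theorem Moments_mem {r p : ℕ} (hp : p ∈ Finset.Ioc (2 ^ r) (2 ^ (r + 1))) :
    (2 : ℝ) ^ r < (p : ℝ) ∧ (p : ℝ) ≤ 2 * (2 : ℝ) ^ r := by
  rw [Finset.mem_Ioc] at hp
  refine ⟨by exact_mod_cast hp.1, ?_⟩
  have h := hp.2
  rw [pow_succ] at h
  have h2 : (p : ℝ) ≤ (2 : ℝ) ^ r * 2 := by exact_mod_cast h
  linarith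

private theorem Moments_ge (Y : ℝ) : ∃ r0 : ℕ, ∀ r : ℕ, r0 ≤ r → Y ≤ (2 : ℝ) ^ r := by
  obtain ⟨n, hn⟩ := pow_unbounded_of_one_lt Y (one_lt_two)
  exact ⟨n, fun r hr => hn.le.trans (pow_le_pow_right₀ one_le_two hr)⟩

theorem first_moment {k : ℕ} (hk : 1 ≤ k) (β : ℕ → ℝ) {a b : Fin k → ℝ} (ha : ∀ i, 0 < a i)
    (hab : ∀ i, a i < b i) : ∃ r0 : ℕ, ∀ r : ℕ, r0 ≤ r →
    ENNReal.ofReal ((1 / 2) ^ (k + 1) * (∏ i, (b i - a i)) * (2 ^ r / Real.log (2 ^ r) ^ k)) ≤
      ∫⁻ x in Set.Icc a b, (NS β r x : ENNReal) := by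
  obtain ⟨X0, hX0⟩ := vol_exact_ge hk β ha hab
  obtain ⟨r1, hr1⟩ := primes_dyadic
  obtain ⟨r2, hr2⟩ := Moments_ge X0
  refine ⟨max (max r1 r2) 1, fun r hr => ?_⟩
  have hra : r1 ≤ r := le_trans (le_trans (le_max_left _ _) (le_max_left _ _)) hr
  have hrb : r2 ≤ r := le_trans (le_trans (le_max_right _ _) (le_max_left _ _)) hr
  have hrc : 1 ≤ r := le_trans (le_max_right _ _) hr
  have hL : 0 < Real.log ((2 : ℝ) ^ r) := by
    apply Real.log_pos
    exact one_lt_pow₀ one_lt_two (by omega)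
  have hV : 0 < ∏ i, (b i - a i) := Finset.prod_pos fun i _ => sub_pos.2 (hab i)
  rw [Moments_lint]
  set V := ∏ i, (b i - a i) with hVdef
  set L := Real.log ((2 : ℝ) ^ r) with hLdef
  calc ENNReal.ofReal ((1 / 2) ^ (k + 1) * V * (2 ^ r / L ^ k))
      = ENNReal.ofReal ((2 : ℝ) ^ r / (2 * L)) * ENNReal.ofReal (V / (2 * (2 * L) ^ (k - 1))) := by
        rw [← ENNReal.ofReal_mul (by positivity)]
        congr 1
        obtain ⟨m, rfl⟩ : ∃ m, k = m + 1 := ⟨k - 1, by omega⟩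
        simp only [Nat.add_sub_cancel, one_div, inv_pow, mul_pow]
        field_simp
        try ring
    _ ≤ ENNReal.ofReal ((((Finset.Ioc (2 ^ r) (2 ^ (r + 1))).filter Nat.Prime).card : ℝ)) *
          ENNReal.ofReal (V / (2 * (2 * L) ^ (k - 1))) := by
        gcongr
        exact (hr1 r hra).1
    _ = ∑ p ∈ (Finset.Ioc (2 ^ r) (2 ^ (r + 1))).filter Nat.Prime,
          ENNReal.ofReal (V / (2 * (2 * L) ^ (k - 1))) := by
        rw [Finset.sum_const, nsmul_eq_mul, ENNReal.ofReal_natCast]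
    _ ≤ ∑ p ∈ (Finset.Ioc (2 ^ r) (2 ^ (r + 1))).filter Nat.Prime,
          volume {x : Fin k → ℝ | x ∈ Set.Icc a b ∧ StartsExact (ext x) β p k} := by
        refine Finset.sum_le_sum fun p hp => ?_
        rw [Finset.mem_filter] at hp
        obtain ⟨h1, h2⟩ := Moments_mem hp.1
        exact hX0 _ (hr2 r hrb) p hp.2 h1 h2
    _ ≤ ∑ p ∈ Finset.Ioc (2 ^ r) (2 ^ (r + 1)),
          volume {x : Fin k → ℝ | x ∈ Set.Icc a b ∧ StartsExact (ext x) β p k} :=
        Finset.sum_le_sum_of_subset (Finset.filter_subset _ _)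

private theorem Moments_small {η : ℝ} (hη : 0 < η) (k : ℕ) : ∃ r0 : ℕ, ∀ r : ℕ, r0 ≤ r →
    ((2 : ℝ) ^ r) ^ (2 - η) ≤ ((2 : ℝ) ^ r / Real.log (2 ^ r) ^ k) ^ 2 := by
  have h1 : ∀ᶠ x : ℝ in atTop, Real.log x ^ (2 * k) ≤ x ^ η := by
    have h := (isLittleO_log_rpow_rpow_atTop (s := η) ((2 * k : ℕ) : ℝ) hη).bound one_pos
    filter_upwards [h, eventually_gt_atTop 1] with x hx hx1
    have hl : 0 ≤ Real.log x := Real.log_nonneg hx1.le
    rw [one_mul, Real.rpow_natCast, Real.norm_of_nonneg (pow_nonneg hl _),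
      Real.norm_of_nonneg (Real.rpow_nonneg (by linarith) _)] at hx
    exact hx
  obtain ⟨Y, hY⟩ := eventually_atTop.1 h1
  obtain ⟨r1, hr1⟩ := Moments_ge Y
  refine ⟨max r1 1, fun r hr => ?_⟩
  have hra : r1 ≤ r := le_trans (le_max_left _ _) hr
  have hrc : 1 ≤ r := le_trans (le_max_right _ _) hr
  have hX1 : 1 < (2 : ℝ) ^ r := one_lt_pow₀ one_lt_two (by omega)
  have hL : 0 < Real.log ((2 : ℝ) ^ r) := Real.log_pos hX1
  have h2 := hY _ (hr1 r hra)
  set X := (2 : ℝ) ^ r with hX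
  have hX0 : 0 < X := by linarith
  rw [div_pow, ← pow_mul (Real.log X) k 2, le_div_iff₀ (by positivity), mul_comm k 2]
  calc X ^ (2 - η) * Real.log X ^ (2 * k) ≤ X ^ (2 - η) * X ^ η := by gcongr
    _ = X ^ (2 : ℝ) := by
        rw [← Real.rpow_add hX0]
        congr 1
        ring
    _ = X ^ 2 := by
        rw [← Real.rpow_natCast]
        norm_num

theorem second_moment {k : ℕ} (hk : 1 ≤ k) : ∃ C : ℝ, 0 < C ∧ ∀ (β : ℕ → ℝ) (a b : Fin k → ℝ),
    (∀ i, 0 < a i) → (∀ i, a i < b i) → ∃ r0 : ℕ, ∀ r : ℕ, r0 ≤ r →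
    ∫⁻ x in Set.Icc a b, (NS β r x : ENNReal) ^ 2 ≤
      ENNReal.ofReal (C * (∏ i, (b i - a i)) * (2 ^ r / Real.log (2 ^ r) ^ k) ^ 2) := by
  classical
  have hη : (0 : ℝ) < 1 / 20 := by norm_num
  obtain ⟨C, hC, hvol⟩ := vol_exact_le hη le_rfl
  refine ⟨4 * C ^ (k - 1) + 1, by positivity, fun β a b ha hab => ?_⟩
  obtain ⟨X0, hX0⟩ := hvol k hk β a b ha hab
  obtain ⟨r1, hr1⟩ := primes_dyadic
  obtain ⟨r2, hr2⟩ := Moments_ge X0
  obtain ⟨r3, hr3⟩ := card_exc hη le_rfl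
  obtain ⟨r4, hr4⟩ := Moments_small hη k
  refine ⟨max (max (max r1 r2) (max r3 r4)) 1, fun r hr => ?_⟩
  have hra : r1 ≤ r := le_trans (by simp) hr
  have hrb : r2 ≤ r := le_trans (by simp) hr
  have hrd : r3 ≤ r := le_trans (by simp) hr
  have hre : r4 ≤ r := le_trans (by simp) hr
  have hrc : 1 ≤ r := le_trans (le_max_right _ _) hr
  have hX1 : 1 < (2 : ℝ) ^ r := one_lt_pow₀ one_lt_two (by omega)
  have hL : 0 < Real.log ((2 : ℝ) ^ r) := Real.log_pos hX1
  have hV : 0 < ∏ i, (b i - a i) := Finset.prod_pos fun i _ => sub_pos.2 (hab i)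
  have hpd := (hr1 r hra).2
  have hexc := hr3 r hrd
  have hsm := hr4 r hre
  have hXX := hr2 r hrb
  have hvolI : volume (Set.Icc a b) = ENNReal.ofReal (∏ i, (b i - a i)) := by
    rw [Real.volume_Icc_pi, ENNReal.ofReal_prod_of_nonneg fun i _ => (sub_pos.2 (hab i)).le]
  rw [Moments_lint2]
  set V := ∏ i, (b i - a i) with hVdef
  set L := Real.log ((2 : ℝ) ^ r) with hLdef
  set S := Finset.Ioc (2 ^ r) (2 ^ (r + 1)) with hS
  set X := (2 : ℝ) ^ r with hXdef
  set E := (S ×ˢ S).filter fun x : ℕ × ℕ => ¬ NE4 X (1 / 20) x.1 x.2 with hE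
  set P := S.filter Nat.Prime with hP
  -- every term is bounded
  have hterm : ∀ y ∈ S ×ˢ S,
      volume {x : Fin k → ℝ | x ∈ Set.Icc a b ∧ StartsExact (ext x) β y.1 k ∧
        StartsExact (ext x) β y.2 k} ≤
      (if y ∈ E then ENNReal.ofReal V else 0) +
      (if y ∈ P ×ˢ P then ENNReal.ofReal (V * (C / L ^ 2) ^ (k - 1)) else 0) := by
    intro y hy
    rw [Finset.mem_product] at hy
    by_cases hyE : y ∈ E
    · rw [if_pos hyE, ← hvolI]
      refine le_trans (measure_mono fun x hx => hx.1) (le_add_of_nonneg_right zero_le)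
    · have hne : NE4 X (1 / 20) y.1 y.2 := by
        by_contra hcon
        exact hyE (Finset.mem_filter.2 ⟨Finset.mem_product.2 hy, hcon⟩)
      by_cases hyP : y ∈ P ×ˢ P
      · rw [if_pos hyP, if_neg hyE, zero_add]
        obtain ⟨h1, h2⟩ := Moments_mem hy.1
        obtain ⟨h3, h4⟩ := Moments_mem hy.2
        exact hX0 _ hXX y.1 y.2 h1 h2 h3 h4 hne
      · have hem : {x : Fin k → ℝ | x ∈ Set.Icc a b ∧ StartsExact (ext x) β y.1 k ∧
            StartsExact (ext x) β y.2 k} = ∅ := by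
          ext x
          simp only [Set.mem_ofPred_eq, Set.mem_empty_iff_false, iff_false]
          rintro ⟨-, h1, h2⟩
          apply hyP
          rw [Finset.mem_product]
          exact ⟨Finset.mem_filter.2 ⟨hy.1, h1.1 0 (by omega)⟩,
            Finset.mem_filter.2 ⟨hy.2, h2.1 0 (by omega)⟩⟩
        rw [hem, measure_empty]
        exact zero_le
  calc ∑ y ∈ S ×ˢ S, volume {x : Fin k → ℝ | x ∈ Set.Icc a b ∧ StartsExact (ext x) β y.1 k ∧
        StartsExact (ext x) β y.2 k}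
      ≤ ∑ y ∈ S ×ˢ S, ((if y ∈ E then ENNReal.ofReal V else 0) +
      (if y ∈ P ×ˢ P then ENNReal.ofReal (V * (C / L ^ 2) ^ (k - 1)) else 0)) :=
        Finset.sum_le_sum hterm
    _ = (E.card : ENNReal) * ENNReal.ofReal V +
        ((P ×ˢ P).card : ENNReal) * ENNReal.ofReal (V * (C / L ^ 2) ^ (k - 1)) := by
        rw [Finset.sum_add_distrib, ← Finset.sum_filter, ← Finset.sum_filter, Finset.sum_const,
          Finset.sum_const, nsmul_eq_mul, nsmul_eq_mul]
        congr 3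
        · congr 1
          ext y
          simp only [hE, Finset.mem_filter]
          tauto
        · congr 1
          ext y
          simp only [hP, Finset.mem_filter, Finset.mem_product]
          tauto
    _ ≤ ENNReal.ofReal (X ^ (2 - 1 / 20 : ℝ)) * ENNReal.ofReal V +
        ENNReal.ofReal ((2 * X / L) ^ 2) * ENNReal.ofReal (V * (C / L ^ 2) ^ (k - 1)) := by
        gcongr
        · rw [← ENNReal.ofReal_natCast]
          exact ENNReal.ofReal_le_ofReal hexc
        · rw [← ENNReal.ofReal_natCast, Finset.card_product]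
          apply ENNReal.ofReal_le_ofReal
          push_cast
          rw [sq]
          gcongr
    _ = ENNReal.ofReal (X ^ (2 - 1 / 20 : ℝ) * V + (2 * X / L) ^ 2 * (V * (C / L ^ 2) ^ (k - 1))) := by
        rw [← ENNReal.ofReal_mul (by positivity), ← ENNReal.ofReal_mul (by positivity),
          ← ENNReal.ofReal_add (by positivity) (by positivity)]
    _ ≤ ENNReal.ofReal ((4 * C ^ (k - 1) + 1) * V * (X / L ^ k) ^ 2) := by
        apply ENNReal.ofReal_le_ofReal
        have h1 : (2 * X / L) ^ 2 * (V * (C / L ^ 2) ^ (k - 1)) =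
            4 * C ^ (k - 1) * V * (X / L ^ k) ^ 2 := by
          obtain ⟨m, rfl⟩ : ∃ m, k = m + 1 := ⟨k - 1, by omega⟩
          simp only [Nat.add_sub_cancel, div_pow, mul_pow]
          field_simp
          ring
        rw [h1]
        nlinarith [mul_le_mul_of_nonneg_right hsm hV.le]

end MCC
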