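import Pool.Agent.MCC.Defs
import Pool.Agent.Lib.PNT

/-!
# MCC.Single: how often is one member prime

PROOF. For a prime (or any natural) `q ≥ 1` the set `{t : ⌊t m + β⌋₊ = q}` is the interval
`[(q-β)/m, (q+1-β)/m)` of length `1/m`. So the volume is at least `1/m` times the number of primes
`q ∈ [a m + β, b m + β - 1]` and at most `1/m` times the number of primes in `[a m + β - 1, b m + β]`.
By the prime number theorem (`Pool/Agent/Lib/PNT.lean`, `pi_real`: `π(y) log y/y → 1`), as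
`m ∈ [κ1 X, κ2 X]`, these numbers are `(1 + o(1)) (b-a) m/log X` uniformly in `m` (`log (b m) = log X + O(1)`).
-/

namespace MCC

open MeasureTheory Filter

open Topology in
private theorem single_log_ratio (c d : ℝ) (hc : 0 < c) :
    Tendsto (fun m : ℕ => Real.log (m : ℝ) / Real.log (c * (m : ℝ) + d)) atTop (𝓝 1) := by
  have hm : Tendsto (fun m : ℕ => (m : ℝ)) atTop atTop := tendsto_natCast_atTop_atTop
  have hlm : Tendsto (fun m : ℕ => Real.log (m : ℝ)) atTop atTop := Real.tendsto_log_atTop.comp hm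
  have h1 : Tendsto (fun m : ℕ => c + d / (m : ℝ)) atTop (𝓝 (c + 0)) :=
    tendsto_const_nhds.add (tendsto_const_nhds.div_atTop hm)
  rw [add_zero] at h1
  have h2 : Tendsto (fun m : ℕ => Real.log (c + d / (m : ℝ))) atTop (𝓝 (Real.log c)) :=
    h1.log hc.ne'
  have h3 : Tendsto (fun m : ℕ => 1 + Real.log (c + d / (m : ℝ)) / Real.log (m : ℝ)) atTop
      (𝓝 (1 + 0)) := tendsto_const_nhds.add (h2.div_atTop hlm)
  rw [add_zero] at h3
  have h4 := h3.inv₀ one_ne_zero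
  rw [inv_one] at h4
  refine h4.congr' ?_
  have hpos : ∀ᶠ m : ℕ in atTop, 0 < c + d / (m : ℝ) := h1.eventually (lt_mem_nhds hc)
  filter_upwards [hpos, eventually_ge_atTop 2] with m hm1 hm2
  have hm0 : (0 : ℝ) < m := by
    have : (2 : ℝ) ≤ m := by exact_mod_cast hm2
    linarith
  have hl : 0 < Real.log (m : ℝ) := Real.log_pos (by
    have : (2 : ℝ) ≤ m := by exact_mod_cast hm2
    linarith)
  have e1 : c * (m : ℝ) + d = (m : ℝ) * (c + d / m) := by field_simp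
  rw [e1, Real.log_mul hm0.ne' hm1.ne']
  rw [← inv_div]
  congr 1
  field_simp

open Topology in
private theorem single_pi (c d : ℝ) (hc : 0 < c) :
    Tendsto (fun m : ℕ => (Nat.primeCounting ⌊c * (m : ℝ) + d⌋₊ : ℝ) * Real.log (m : ℝ) / (m : ℝ))
      atTop (𝓝 c) := by
  have hm : Tendsto (fun m : ℕ => (m : ℝ)) atTop atTop := tendsto_natCast_atTop_atTop
  have hcm : Tendsto (fun m : ℕ => c * (m : ℝ) + d) atTop atTop :=
    tendsto_atTop_add_const_right _ _ (hm.const_mul_atTop hc)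
  have h1 := Pool.Agent.Lib.PNT.pi_real.comp hcm
  have h2 := single_log_ratio c d hc
  have h3 : Tendsto (fun m : ℕ => c + d / (m : ℝ)) atTop (𝓝 (c + 0)) :=
    tendsto_const_nhds.add (tendsto_const_nhds.div_atTop hm)
  rw [add_zero] at h3
  have h4 := (h1.mul h2).mul h3
  rw [one_mul, one_mul] at h4
  refine h4.congr' ?_
  have hbig : ∀ᶠ m : ℕ in atTop, 2 ≤ c * (m : ℝ) + d := hcm.eventually_ge_atTop 2
  filter_upwards [hbig, eventually_ge_atTop 2] with m hm1 hm2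
  have hm0 : (0 : ℝ) < m := by
    have : (2 : ℝ) ≤ m := by exact_mod_cast hm2
    linarith
  have hl : Real.log (c * (m : ℝ) + d) ≠ 0 := (Real.log_pos (by linarith)).ne'
  have hy : c * (m : ℝ) + d ≠ 0 := by linarith
  simp only [Function.comp_apply]
  have e1 : c + d / (m : ℝ) = (c * (m : ℝ) + d) / m := by field_simp
  rw [e1]
  field_simp

private theorem single_card (x y : ℕ) (h : x ≤ y) :
    (((Finset.Ioc x y).filter Nat.Prime).card : ℝ) =
      (Nat.primeCounting y : ℝ) - (Nat.primeCounting x : ℝ) := by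
  have h1 : ∀ n, Nat.primeCounting n = ((Finset.range (n + 1)).filter Nat.Prime).card := by
    intro n
    rw [Nat.primeCounting, Nat.primeCounting', Nat.count_eq_card_filter_range]
  have h2 : (Finset.range (y + 1)).filter Nat.Prime =
      (Finset.range (x + 1)).filter Nat.Prime ∪ (Finset.Ioc x y).filter Nat.Prime := by
    ext q
    simp only [Finset.mem_union, Finset.mem_filter, Finset.mem_range, Finset.mem_Ioc]
    constructor
    · rintro ⟨h3, h4⟩
      by_cases h5 : q < x + 1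
      · exact Or.inl ⟨h5, h4⟩
      · exact Or.inr ⟨⟨by omega, by omega⟩, h4⟩
    · rintro (⟨h3, h4⟩ | ⟨⟨h3, h5⟩, h4⟩)
      · exact ⟨by omega, h4⟩
      · exact ⟨by omega, h4⟩
  have h3 : Disjoint ((Finset.range (x + 1)).filter Nat.Prime) ((Finset.Ioc x y).filter Nat.Prime) := by
    rw [Finset.disjoint_left]
    intro q hq hq'
    simp only [Finset.mem_filter, Finset.mem_range, Finset.mem_Ioc] at hq hq'
    omega
  rw [h1, h1, h2, Finset.card_union_of_disjoint h3]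
  push_cast
  ring

private theorem single_disj (m : ℕ) (hm : 0 < m) (β : ℝ) (F : Finset ℕ) :
    Set.PairwiseDisjoint (F : Set ℕ)
      (fun q : ℕ => Set.Ico (((q : ℝ) - β) / m) (((q : ℝ) + 1 - β) / m)) := by
  have hm0 : (0 : ℝ) < m := by exact_mod_cast hm
  intro q _ q' _ hne
  rw [Function.onFun, Set.disjoint_left]
  rintro t ⟨h1, h2⟩ ⟨h3, h4⟩
  rw [div_le_iff₀ hm0] at h1 h3
  rw [lt_div_iff₀ hm0] at h2 h4
  apply hne
  have h5 : (q : ℝ) < (q' : ℝ) + 1 := by linarith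
  have h6 : (q' : ℝ) < (q : ℝ) + 1 := by linarith
  have h7 : q < q' + 1 := by exact_mod_cast h5
  have h8 : q' < q + 1 := by exact_mod_cast h6
  omega

private theorem single_vol (m : ℕ) (hm : 0 < m) (β : ℝ) (q : ℕ) :
    volume (Set.Ico (((q : ℝ) - β) / m) (((q : ℝ) + 1 - β) / m)) = ENNReal.ofReal (1 / (m : ℝ)) := by
  have hm0 : (0 : ℝ) < m := by exact_mod_cast hm
  rw [Real.volume_Ico]
  congr 1
  field_simp
  ring

private theorem single_lower (m : ℕ) (hm : 0 < m) (β a b : ℝ) (F : Finset ℕ)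
    (hF : ∀ q ∈ F, q.Prime ∧ a * m + β ≤ (q : ℝ) ∧ (q : ℝ) + 1 ≤ b * m + β) :
    ENNReal.ofReal ((F.card : ℝ) / m) ≤
      volume {t : ℝ | t ∈ Set.Icc a b ∧ (⌊t * (m : ℝ) + β⌋₊).Prime} := by
  have hm0 : (0 : ℝ) < m := by exact_mod_cast hm
  have h1 : volume (⋃ q ∈ F, Set.Ico (((q : ℝ) - β) / m) (((q : ℝ) + 1 - β) / m)) =
      ENNReal.ofReal ((F.card : ℝ) / m) := by
    rw [measure_biUnion_finset (single_disj m hm β F) (fun q _ => measurableSet_Ico)]
    rw [Finset.sum_congr rfl (fun q _ => single_vol m hm β q)]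
    rw [Finset.sum_const, nsmul_eq_mul, ← ENNReal.ofReal_natCast, ← ENNReal.ofReal_mul (by positivity)]
    congr 1
    field_simp
  rw [← h1]
  apply measure_mono
  intro t ht
  simp only [Set.mem_iUnion, Set.mem_Ico, exists_prop] at ht
  obtain ⟨q, hq, h2, h3⟩ := ht
  obtain ⟨hp, h4, h5⟩ := hF q hq
  rw [div_le_iff₀ hm0] at h2
  rw [lt_div_iff₀ hm0] at h3
  refine ⟨⟨?_, ?_⟩, ?_⟩
  · by_contra hcon
    push Not at hcon
    have := mul_lt_mul_of_pos_right hcon hm0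
    linarith
  · by_contra hcon
    push Not at hcon
    have := mul_lt_mul_of_pos_right hcon hm0
    linarith
  · have h6 : ⌊t * (m : ℝ) + β⌋₊ = q := by
      rw [Nat.floor_eq_iff (by
        have : (0 : ℝ) ≤ q := Nat.cast_nonneg q
        linarith)]
      constructor <;> linarith
    rw [h6]
    exact hp

private theorem single_upper (m : ℕ) (hm : 0 < m) (β a b : ℝ) (F : Finset ℕ)
    (hF : ∀ q : ℕ, q.Prime → a * m + β < (q : ℝ) + 1 → (q : ℝ) ≤ b * m + β → q ∈ F) :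
    volume {t : ℝ | t ∈ Set.Icc a b ∧ (⌊t * (m : ℝ) + β⌋₊).Prime} ≤
      ENNReal.ofReal ((F.card : ℝ) / m) := by
  have hm0 : (0 : ℝ) < m := by exact_mod_cast hm
  have h1 : volume (⋃ q ∈ F, Set.Ico (((q : ℝ) - β) / m) (((q : ℝ) + 1 - β) / m)) =
      ENNReal.ofReal ((F.card : ℝ) / m) := by
    rw [measure_biUnion_finset (single_disj m hm β F) (fun q _ => measurableSet_Ico)]
    rw [Finset.sum_congr rfl (fun q _ => single_vol m hm β q)]
    rw [Finset.sum_const, nsmul_eq_mul, ← ENNReal.ofReal_natCast, ← ENNReal.ofReal_mul (by positivity)]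
    congr 1
    field_simp
  rw [← h1]
  apply measure_mono
  rintro t ⟨⟨hta, htb⟩, hp⟩
  have hq1 : 1 ≤ ⌊t * (m : ℝ) + β⌋₊ := hp.one_lt.le
  have hpos : 0 ≤ t * (m : ℝ) + β := by
    by_contra hcon
    push Not at hcon
    rw [Nat.floor_of_nonpos hcon.le] at hq1
    omega
  have h2 : ((⌊t * (m : ℝ) + β⌋₊ : ℕ) : ℝ) ≤ t * m + β := Nat.floor_le hpos
  have h3 : t * m + β < ((⌊t * (m : ℝ) + β⌋₊ : ℕ) : ℝ) + 1 := Nat.lt_floor_add_one _
  simp only [Set.mem_iUnion, Set.mem_Ico, exists_prop]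
  refine ⟨⌊t * (m : ℝ) + β⌋₊, hF _ hp ?_ ?_, ?_, ?_⟩
  · have := mul_le_mul_of_nonneg_right hta hm0.le
    linarith
  · have := mul_le_mul_of_nonneg_right htb hm0.le
    linarith
  · rw [div_le_iff₀ hm0]
    linarith
  · rw [lt_div_iff₀ hm0]
    linarith

theorem single_bounds {a b κ1 κ2 : ℝ} (β : ℝ) (ha : 0 < a) (hab : a < b) (hκ : 0 < κ1) :
    ∃ X0 : ℝ, ∀ X : ℝ, X0 ≤ X → ∀ m : ℕ, κ1 * X ≤ (m : ℝ) → (m : ℝ) ≤ κ2 * X →
      ENNReal.ofReal ((b - a) / (2 * Real.log X)) ≤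
        volume {t : ℝ | t ∈ Set.Icc a b ∧ (⌊t * (m : ℝ) + β⌋₊).Prime} ∧
      volume {t : ℝ | t ∈ Set.Icc a b ∧ (⌊t * (m : ℝ) + β⌋₊).Prime} ≤
        ENNReal.ofReal (2 * (b - a) / Real.log X) := by
  classical
  have hb : 0 < b := ha.trans hab
  have hba : 0 < b - a := by linarith
  -- the two counts
  have hL := (single_pi b (β - 1) hb).sub (single_pi a β ha)
  have hU := (single_pi b β hb).sub (single_pi a (β - 1) ha)
  have hL' : ∀ᶠ m : ℕ in atTop, (b - a) * (3 / 4) <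
      (Nat.primeCounting ⌊b * (m : ℝ) + (β - 1)⌋₊ : ℝ) * Real.log (m : ℝ) / (m : ℝ) -
      (Nat.primeCounting ⌊a * (m : ℝ) + β⌋₊ : ℝ) * Real.log (m : ℝ) / (m : ℝ) :=
    hL.eventually (lt_mem_nhds (by linarith))
  have hU' : ∀ᶠ m : ℕ in atTop,
      (Nat.primeCounting ⌊b * (m : ℝ) + β⌋₊ : ℝ) * Real.log (m : ℝ) / (m : ℝ) -
      (Nat.primeCounting ⌊a * (m : ℝ) + (β - 1)⌋₊ : ℝ) * Real.log (m : ℝ) / (m : ℝ) <
        (b - a) * (5 / 4) :=
    hU.eventually (gt_mem_nhds (by linarith))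
  have hm : Tendsto (fun m : ℕ => (m : ℝ)) atTop atTop := tendsto_natCast_atTop_atTop
  have ham : Tendsto (fun m : ℕ => a * (m : ℝ) + (β - 1)) atTop atTop :=
    tendsto_atTop_add_const_right _ _ (hm.const_mul_atTop ha)
  have hd : Tendsto (fun m : ℕ => (b - a) * (m : ℝ)) atTop atTop := hm.const_mul_atTop hba
  obtain ⟨m0, hm0⟩ := eventually_atTop.1 (((hL'.and hU').and (ham.eventually_ge_atTop 0)).and
    (hd.eventually_ge_atTop 1))
  -- the logarithms
  have hlog : ∀ᶠ X : ℝ in atTop, 4 * |Real.log κ1| + 4 * |Real.log κ2| + 1 ≤ Real.log X :=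
    Real.tendsto_log_atTop.eventually_ge_atTop _
  have hX : ∀ᶠ X : ℝ in atTop, (m0 : ℝ) + 2 ≤ κ1 * X :=
    (tendsto_id.const_mul_atTop hκ).eventually_ge_atTop _
  obtain ⟨X0, hX0⟩ := eventually_atTop.1 ((hlog.and hX).and (eventually_gt_atTop (0 : ℝ)))
  refine ⟨X0, fun X hXX m hm1 hm2 => ?_⟩
  obtain ⟨⟨hlX, hXm⟩, hXpos⟩ := hX0 X hXX
  have hmbig : (m0 : ℝ) + 2 ≤ m := hXm.trans hm1
  have hm0m : m0 ≤ m := by
    have : (m0 : ℝ) ≤ m := by linarith
    exact_mod_cast this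
  obtain ⟨⟨⟨h1, h2⟩, h3⟩, h4⟩ := hm0 m hm0m
  have hmpos : (0 : ℝ) < m := by
    have : (0 : ℝ) ≤ m0 := Nat.cast_nonneg m0
    linarith
  have hmpos' : 0 < m := by exact_mod_cast hmpos
  have hκ2 : 0 < κ2 := by
    by_contra hcon
    push Not at hcon
    have := mul_nonpos_of_nonpos_of_nonneg hcon hXpos.le
    linarith
  have hlXpos : 0 < Real.log X := by
    have h5 := abs_nonneg (Real.log κ1)
    have h6 := abs_nonneg (Real.log κ2)
    linarith
  have hlm1 : Real.log κ1 + Real.log X ≤ Real.log m := by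
    rw [← Real.log_mul hκ.ne' hXpos.ne']
    exact Real.log_le_log (by positivity) hm1
  have hlm2 : Real.log m ≤ Real.log κ2 + Real.log X := by
    rw [← Real.log_mul hκ2.ne' hXpos.ne']
    exact Real.log_le_log hmpos hm2
  have hl1 : (3 / 4) * Real.log X ≤ Real.log m := by
    have h5 := neg_abs_le (Real.log κ1)
    have h6 := abs_nonneg (Real.log κ2)
    linarith
  have hl2 : Real.log m ≤ (5 / 4) * Real.log X := by
    have h5 := le_abs_self (Real.log κ2)
    have h6 := abs_nonneg (Real.log κ1)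
    linarith
  have hlm : 0 < Real.log (m : ℝ) := by linarith
  have hbm : a * (m : ℝ) + β ≤ b * (m : ℝ) + (β - 1) := by linarith
  constructor
  · have hc := single_card ⌊a * (m : ℝ) + β⌋₊ ⌊b * (m : ℝ) + (β - 1)⌋₊ (Nat.floor_le_floor hbm)
    refine le_trans ?_ (single_lower m hmpos' β a b
      ((Finset.Ioc ⌊a * (m : ℝ) + β⌋₊ ⌊b * (m : ℝ) + (β - 1)⌋₊).filter Nat.Prime) ?_)
    · apply ENNReal.ofReal_le_ofReal
      rw [hc]
      rw [← sub_div, ← sub_mul, lt_div_iff₀ hmpos] at h1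
      rw [div_le_div_iff₀ (by positivity) hmpos]
      set N := (Nat.primeCounting ⌊b * (m : ℝ) + (β - 1)⌋₊ : ℝ) -
        (Nat.primeCounting ⌊a * (m : ℝ) + β⌋₊ : ℝ) with hN
      have hNpos : 0 ≤ N := by
        by_contra hcon
        push Not at hcon
        have h5 := mul_neg_of_neg_of_pos hcon hlm
        have h6 : 0 < (b - a) * (3 / 4) * (m : ℝ) := by positivity
        linarith
      have h5 : N * Real.log m ≤ N * ((5 / 4) * Real.log X) := mul_le_mul_of_nonneg_left hl2 hNpos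
      nlinarith [mul_nonneg hNpos hlXpos.le]
    · intro q hq
      rw [Finset.mem_filter, Finset.mem_Ioc] at hq
      obtain ⟨⟨h5, h6⟩, h7⟩ := hq
      refine ⟨h7, (Nat.lt_of_floor_lt h5).le, ?_⟩
      have h8 : (q : ℝ) ≤ b * (m : ℝ) + (β - 1) := by
        refine le_trans (by exact_mod_cast h6) (Nat.floor_le ?_)
        linarith
      linarith
  · have hc := single_card ⌊a * (m : ℝ) + (β - 1)⌋₊ ⌊b * (m : ℝ) + β⌋₊
      (Nat.floor_le_floor (by linarith))
    refine le_trans (single_upper m hmpos' β a b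
      ((Finset.Ioc ⌊a * (m : ℝ) + (β - 1)⌋₊ ⌊b * (m : ℝ) + β⌋₊).filter Nat.Prime) ?_) ?_
    · intro q hq h5 h6
      rw [Finset.mem_filter, Finset.mem_Ioc]
      refine ⟨⟨?_, Nat.le_floor h6⟩, hq⟩
      rw [Nat.floor_lt h3]
      linarith
    · apply ENNReal.ofReal_le_ofReal
      rw [hc]
      rw [← sub_div, ← sub_mul, div_lt_iff₀ hmpos] at h2
      rw [div_le_div_iff₀ hmpos hlXpos]
      set N := (Nat.primeCounting ⌊b * (m : ℝ) + β⌋₊ : ℝ) -
        (Nat.primeCounting ⌊a * (m : ℝ) + (β - 1)⌋₊ : ℝ) with hN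
      have hNpos : 0 ≤ N := by
        rw [← hc]
        positivity
      have h5 : N * ((3 / 4) * Real.log X) ≤ N * Real.log m := mul_le_mul_of_nonneg_left hl1 hNpos
      nlinarith [mul_pos hba hmpos]

/-- The number of primes in `(X, 2X]`. -/
theorem primes_dyadic : ∃ r0 : ℕ, ∀ r : ℕ, r0 ≤ r →
    (2 : ℝ) ^ r / (2 * Real.log (2 ^ r)) ≤
      (((Finset.Ioc (2 ^ r) (2 ^ (r + 1))).filter Nat.Prime).card : ℝ) ∧
    (((Finset.Ioc (2 ^ r) (2 ^ (r + 1))).filter Nat.Prime).card : ℝ) ≤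
      2 * (2 : ℝ) ^ r / Real.log (2 ^ r) := by
  have h1 := single_pi 2 0 (by norm_num)
  have h2 := single_pi 1 0 (by norm_num)
  have h3 := h1.sub h2
  have h4 : ∀ᶠ m : ℕ in atTop, 1 / 2 <
      (Nat.primeCounting ⌊2 * (m : ℝ) + 0⌋₊ : ℝ) * Real.log (m : ℝ) / (m : ℝ) -
      (Nat.primeCounting ⌊1 * (m : ℝ) + 0⌋₊ : ℝ) * Real.log (m : ℝ) / (m : ℝ) :=
    h3.eventually (lt_mem_nhds (by norm_num))
  have h5 : ∀ᶠ m : ℕ in atTop,
      (Nat.primeCounting ⌊2 * (m : ℝ) + 0⌋₊ : ℝ) * Real.log (m : ℝ) / (m : ℝ) -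
      (Nat.primeCounting ⌊1 * (m : ℝ) + 0⌋₊ : ℝ) * Real.log (m : ℝ) / (m : ℝ) < 2 :=
    h3.eventually (gt_mem_nhds (by norm_num))
  obtain ⟨m0, hm0⟩ := eventually_atTop.1 (h4.and h5)
  refine ⟨max m0 1, fun r hr => ?_⟩
  have hr1 : 1 ≤ r := le_trans (le_max_right _ _) hr
  have hmr : m0 ≤ 2 ^ r := (le_trans (le_max_left _ _) hr).trans r.lt_two_pow_self.le
  obtain ⟨h6, h7⟩ := hm0 (2 ^ r) hmr
  have e1 : ⌊2 * (((2 ^ r : ℕ) : ℝ)) + 0⌋₊ = 2 ^ (r + 1) := by
    have : 2 * (((2 ^ r : ℕ) : ℝ)) + 0 = ((2 ^ (r + 1) : ℕ) : ℝ) := by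
      push_cast
      ring
    rw [this, Nat.floor_natCast]
  have e2 : ⌊1 * (((2 ^ r : ℕ) : ℝ)) + 0⌋₊ = 2 ^ r := by
    rw [one_mul, add_zero, Nat.floor_natCast]
  rw [e1, e2] at h6 h7
  have hc := single_card (2 ^ r) (2 ^ (r + 1)) (Nat.pow_le_pow_right (by norm_num) (by omega))
  have hcast : ((2 ^ r : ℕ) : ℝ) = (2 : ℝ) ^ r := by push_cast; ring
  rw [hcast] at h6 h7
  have hpos : (0 : ℝ) < (2 : ℝ) ^ r := by positivity
  have hlog : 0 < Real.log ((2 : ℝ) ^ r) := by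
    apply Real.log_pos
    exact one_lt_pow₀ (by norm_num) (by omega)
  rw [← sub_div, ← sub_mul] at h6 h7
  rw [lt_div_iff₀ hpos] at h6
  rw [div_lt_iff₀ hpos] at h7
  rw [hc]
  constructor
  · rw [div_le_iff₀ (by positivity)]
    linarith
  · rw [le_div_iff₀ hlog]
    linarith

end MCC
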