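import Pool.Agent.MCC.Basic
import Pool.Agent.MCC.Single

/-!
# MCC.VolS: the volume of the multipliers for which one chain consists of primes

PROOF. Induction on `j`: `Fin (j+1) → ℝ` is `(Fin j → ℝ) × ℝ` (`MeasurableEquiv.piFinSuccAbove` with the last
coordinate, `MeasureTheory.volume_preserving_piFinSuccAbove`), the box is a product, `c_i` for `i ≤ j` depends
on the first `j` coordinates (`chain_snoc`), `c_(j+1) = ⌊x_j c_j + β_j⌋₊` (`chain_last`). For fixed first
coordinates in the box use `single_bounds` with `m = c_j ∈ [κ1 X, κ2 X]` (`chain_size`) and integrate.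
`vol_exact_ge`: the same, for the last step the volume of the `t ∈ [a,b]` with `⌊t m + β⌋₊` not prime is at
least `(b-a) - 2(b-a)/log X ≥ (b-a)/2` (and `c_k ≥ κ1 X > 1`).
-/

namespace MCC

open MeasureTheory Filter

/-- Fubini for the last coordinate, lower bound. -/
private theorem VolS_fub {j : ℕ} {S : Set (Fin (j + 1) → ℝ)} (hS : MeasurableSet S)
    {A : Set (Fin j → ℝ)} (hA : MeasurableSet A) (B : ENNReal)
    (hB : ∀ y ∈ A, B ≤ volume {t : ℝ | ∀ x : Fin (j + 1) → ℝ, (∀ i : Fin j, x i.castSucc = y i) →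
      x (Fin.last j) = t → x ∈ S}) : volume A * B ≤ volume S := by
  let e := MeasurableEquiv.piFinSuccAbove (fun _ : Fin (j + 1) => ℝ) (Fin.last j)
  have he : MeasurePreserving e volume volume :=
    volume_preserving_piFinSuccAbove (fun _ : Fin (j + 1) => ℝ) (Fin.last j)
  have hsym : MeasurePreserving e.symm volume volume := he.symm e
  have hS' : MeasurableSet (e.symm ⁻¹' S) := e.symm.measurable hS
  have h1 : volume S = volume (e.symm ⁻¹' S) :=
    (hsym.measure_preimage_equiv S).symm
  rw [h1]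
  have h2 : volume (e.symm ⁻¹' S) =
      ∫⁻ y : Fin j → ℝ, volume ((fun t : ℝ => (t, y)) ⁻¹' (e.symm ⁻¹' S)) := by
    have h3 := Measure.prod_apply_symm (μ := (volume : Measure ℝ))
      (ν := (volume : Measure (Fin j → ℝ))) hS'
    exact h3
  rw [h2]
  have hcs : ∀ (t : ℝ) (y : Fin j → ℝ) (i : Fin j), e.symm (t, y) i.castSucc = y i := by
    intro t y i
    have h4 : e (e.symm (t, y)) = (t, y) := e.apply_symm_apply _
    have h5 := congrFun (congrArg Prod.snd h4) i
    have h6 : (e (e.symm (t, y))).2 i = e.symm (t, y) ((Fin.last j).succAbove i) := rfl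
    rw [h6, Fin.succAbove_last] at h5
    exact h5
  have hl : ∀ (t : ℝ) (y : Fin j → ℝ), e.symm (t, y) (Fin.last j) = t := by
    intro t y
    have h4 : e (e.symm (t, y)) = (t, y) := e.apply_symm_apply _
    exact congrArg Prod.fst h4
  calc volume A * B = ∫⁻ y : Fin j → ℝ, A.indicator (fun _ => B) y := by
        rw [lintegral_indicator_const hA B, mul_comm]
    _ ≤ _ := by
        refine lintegral_mono fun y => ?_
        by_cases hy : y ∈ A
        · rw [Set.indicator_of_mem hy]
          refine le_trans (hB y hy) (measure_mono ?_)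
          intro t ht
          exact ht _ (hcs t y) (hl t y)
        · rw [Set.indicator_of_notMem hy]
          exact bot_le

private theorem VolS_meas {j : ℕ} (β : ℕ → ℝ) (a b : Fin j → ℝ) (p : ℕ) :
    MeasurableSet {x : Fin j → ℝ | x ∈ Set.Icc a b ∧
      ∀ i, 1 ≤ i → i ≤ j → (chain (ext x) β p i).Prime} := by
  refine MeasurableSet.inter measurableSet_Icc ?_
  have h1 : {x : Fin j → ℝ | ∀ i, 1 ≤ i → i ≤ j → (chain (ext x) β p i).Prime} =
      ⋂ i : ℕ, ⋂ (_ : 1 ≤ i), ⋂ (_ : i ≤ j), {x : Fin j → ℝ | (chain (ext x) β p i).Prime} := by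
    ext x
    simp only [Set.mem_setOf_eq, Set.mem_iInter]
  show MeasurableSet {x : Fin j → ℝ | ∀ i, 1 ≤ i → i ≤ j → (chain (ext x) β p i).Prime}
  rw [h1]
  refine MeasurableSet.iInter fun i => MeasurableSet.iInter fun _ => MeasurableSet.iInter fun _ => ?_
  exact chain_meas β p i (MeasurableSet.of_discrete (s := {n : ℕ | n.Prime}))

theorem vol_prime_ge {j : ℕ} (β : ℕ → ℝ) {a b : Fin j → ℝ} (ha : ∀ i, 0 < a i)
    (hab : ∀ i, a i < b i) :
    ∃ X0 : ℝ, ∀ X : ℝ, X0 ≤ X → ∀ p : ℕ, X < (p : ℝ) → (p : ℝ) ≤ 2 * X →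
      ENNReal.ofReal ((∏ i, (b i - a i)) / (2 * Real.log X) ^ j) ≤
        volume {x : Fin j → ℝ | x ∈ Set.Icc a b ∧
          ∀ i, 1 ≤ i → i ≤ j → (chain (ext x) β p i).Prime} := by
  induction j with
  | zero =>
    refine ⟨0, fun X _ p _ _ => ?_⟩
    have h1 : {x : Fin 0 → ℝ | x ∈ Set.Icc a b ∧
          ∀ i, 1 ≤ i → i ≤ 0 → (chain (ext x) β p i).Prime} = Set.Icc a b := by
      ext x
      simp only [Set.mem_setOf_eq, and_iff_left_iff_imp]
      intro _ i hi hi'
      omega
    rw [h1, Real.volume_Icc_pi]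
    simp
  | succ j ih =>
    have ha' : ∀ i : Fin j, 0 < a i.castSucc := fun i => ha _
    have hab' : ∀ i : Fin j, a i.castSucc < b i.castSucc := fun i => hab _
    obtain ⟨X1, hX1⟩ := ih ha' hab'
    obtain ⟨κ1, κ2, X2, hκ1, _, hX2⟩ := chain_size β (a := fun i : Fin j => a i.castSucc)
      (b := fun i : Fin j => b i.castSucc) ha' (fun i => (hab' i).le)
    obtain ⟨X3, hX3⟩ := single_bounds (κ1 := κ1) (κ2 := κ2) (β j) (ha (Fin.last j))
      (hab (Fin.last j)) hκ1
    refine ⟨max (max X1 X2) (max X3 1), fun X hX p hp hp' => ?_⟩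
    have hXa : X1 ≤ X := le_trans (le_trans (le_max_left _ _) (le_max_left _ _)) hX
    have hXb : X2 ≤ X := le_trans (le_trans (le_max_right _ _) (le_max_left _ _)) hX
    have hXc : X3 ≤ X := le_trans (le_trans (le_max_left _ _) (le_max_right _ _)) hX
    have hXd : 1 ≤ X := le_trans (le_trans (le_max_right _ _) (le_max_right _ _)) hX
    have hlog : 0 ≤ Real.log X := Real.log_nonneg hXd
    have h1 := VolS_fub (VolS_meas β a b p)
      (VolS_meas β (fun i : Fin j => a i.castSucc) (fun i : Fin j => b i.castSucc) p)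
      (ENNReal.ofReal ((b (Fin.last j) - a (Fin.last j)) / (2 * Real.log X))) (by
        intro y hy
        have hs := hX2 X hXb y hy.1 p hp hp' j le_rfl
        refine le_trans (hX3 X hXc _ hs.1 hs.2).1 (measure_mono ?_)
        intro t ht x hx hxt
        have hxy : (fun i : Fin j => x i.castSucc) = y := funext hx
        refine ⟨⟨fun i => ?_, fun i => ?_⟩, fun i hi hi' => ?_⟩
        · refine Fin.lastCases ?_ (fun i => ?_) i
          · rw [hxt]
            exact ht.1.1
          · rw [hx]
            exact hy.1.1 i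
        · refine Fin.lastCases ?_ (fun i => ?_) i
          · rw [hxt]
            exact ht.1.2
          · rw [hx]
            exact hy.1.2 i
        · rcases Nat.lt_or_ge j i with h | h
          · have hij : i = j + 1 := by omega
            rw [hij, chain_last, hxt, hxy]
            exact ht.2
          · rw [chain_snoc x β p h, hxy]
            exact hy.2 i hi h)
    refine le_trans ?_ h1
    have h2 := hX1 X hXa p hp hp'
    refine le_trans ?_ (mul_le_mul_left h2 _)
    rw [← ENNReal.ofReal_mul (div_nonneg (Finset.prod_nonneg fun i _ => by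
      have := hab' i
      linarith) (pow_nonneg (by linarith) _))]
    refine ENNReal.ofReal_le_ofReal (le_of_eq ?_)
    rw [Fin.prod_univ_castSucc, div_mul_div_comm, pow_succ]

theorem vol_exact_ge {k : ℕ} (hk : 1 ≤ k) (β : ℕ → ℝ) {a b : Fin k → ℝ} (ha : ∀ i, 0 < a i)
    (hab : ∀ i, a i < b i) :
    ∃ X0 : ℝ, ∀ X : ℝ, X0 ≤ X → ∀ p : ℕ, p.Prime → X < (p : ℝ) → (p : ℝ) ≤ 2 * X →
      ENNReal.ofReal ((∏ i, (b i - a i)) / (2 * (2 * Real.log X) ^ (k - 1))) ≤
        volume {x : Fin k → ℝ | x ∈ Set.Icc a b ∧ StartsExact (ext x) β p k} := by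
  obtain ⟨j, rfl⟩ : ∃ j, k = j + 1 := ⟨k - 1, by omega⟩
  have ha' : ∀ i : Fin j, 0 < a i.castSucc := fun i => ha _
  have hab' : ∀ i : Fin j, a i.castSucc < b i.castSucc := fun i => hab _
  obtain ⟨X1, hX1⟩ := vol_prime_ge β ha' hab'
  obtain ⟨κ1, κ2, X2, hκ1, _, hX2⟩ := chain_size β (a := fun i : Fin j => a i.castSucc)
    (b := fun i : Fin j => b i.castSucc) ha' (fun i => (hab' i).le)
  obtain ⟨κ3, κ4, X4, hκ3, _, hX4⟩ := chain_size β ha (fun i => (hab i).le)
  obtain ⟨X3, hX3⟩ := single_bounds (κ1 := κ1) (κ2 := κ2) (β j) (ha (Fin.last j))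
    (hab (Fin.last j)) hκ1
  refine ⟨max (max (max X1 X2) (max X3 X4)) (max (Real.exp 4) (2 / κ3)),
    fun X hX p hpp hp hp' => ?_⟩
  have hXa : X1 ≤ X := le_trans (le_trans (le_trans (le_max_left _ _) (le_max_left _ _))
    (le_max_left _ _)) hX
  have hXb : X2 ≤ X := le_trans (le_trans (le_trans (le_max_right _ _) (le_max_left _ _))
    (le_max_left _ _)) hX
  have hXc : X3 ≤ X := le_trans (le_trans (le_trans (le_max_left _ _) (le_max_right _ _))
    (le_max_left _ _)) hX
  have hXd : X4 ≤ X := le_trans (le_trans (le_trans (le_max_right _ _) (le_max_right _ _))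
    (le_max_left _ _)) hX
  have hXe : Real.exp 4 ≤ X := le_trans (le_trans (le_max_left _ _) (le_max_right _ _)) hX
  have hXf : 2 / κ3 ≤ X := le_trans (le_trans (le_max_right _ _) (le_max_right _ _)) hX
  have hX0 : 0 < X := lt_of_lt_of_le (Real.exp_pos 4) hXe
  have hlog : 4 ≤ Real.log X := by
    rw [Real.le_log_iff_exp_le hX0]
    exact hXe
  have hbl : 0 < b (Fin.last j) - a (Fin.last j) := by
    have := hab (Fin.last j)
    linarith
  have hSm : MeasurableSet {x : Fin (j + 1) → ℝ | x ∈ Set.Icc a b ∧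
      StartsExact (ext x) β p (j + 1)} :=
    MeasurableSet.inter measurableSet_Icc (starts_meas β p)
  have h1 := VolS_fub hSm
    (VolS_meas β (fun i : Fin j => a i.castSucc) (fun i : Fin j => b i.castSucc) p)
    (ENNReal.ofReal ((b (Fin.last j) - a (Fin.last j)) / 2)) (by
      intro y hy
      have hs := hX2 X hXb y hy.1 p hp hp' j le_rfl
      have hu := (hX3 X hXc _ hs.1 hs.2).2
      obtain ⟨m, hm⟩ : ∃ m, m = chain (ext y) β p j := ⟨_, rfl⟩
      rw [← hm] at hu
      have h3 : volume (Set.Icc (a (Fin.last j)) (b (Fin.last j))) ≤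
          volume {t : ℝ | t ∈ Set.Icc (a (Fin.last j)) (b (Fin.last j)) ∧
            ¬ (⌊t * (m : ℝ) + β j⌋₊).Prime} +
          volume {t : ℝ | t ∈ Set.Icc (a (Fin.last j)) (b (Fin.last j)) ∧
            (⌊t * (m : ℝ) + β j⌋₊).Prime} := by
        refine le_trans (measure_mono ?_) (measure_union_le _ _)
        intro t ht
        by_cases hq : (⌊t * (m : ℝ) + β j⌋₊).Prime
        · exact Or.inr ⟨ht, hq⟩
        · exact Or.inl ⟨ht, hq⟩
      rw [Real.volume_Icc] at h3
      have h4 : ENNReal.ofReal ((b (Fin.last j) - a (Fin.last j)) / 2) ≤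
          volume {t : ℝ | t ∈ Set.Icc (a (Fin.last j)) (b (Fin.last j)) ∧
            ¬ (⌊t * (m : ℝ) + β j⌋₊).Prime} := by
        have h5 : ENNReal.ofReal (b (Fin.last j) - a (Fin.last j)) -
            ENNReal.ofReal (2 * (b (Fin.last j) - a (Fin.last j)) / Real.log X) ≤
            volume {t : ℝ | t ∈ Set.Icc (a (Fin.last j)) (b (Fin.last j)) ∧
            ¬ (⌊t * (m : ℝ) + β j⌋₊).Prime} := by
          rw [tsub_le_iff_right]
          exact le_trans h3 (by gcongr)
        refine le_trans ?_ h5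
        rw [← ENNReal.ofReal_sub _ (by positivity)]
        refine ENNReal.ofReal_le_ofReal ?_
        have h6 : 2 * (b (Fin.last j) - a (Fin.last j)) / Real.log X ≤
            (b (Fin.last j) - a (Fin.last j)) / 2 := by
          rw [div_le_div_iff₀ (by linarith) (by norm_num)]
          nlinarith
        linarith
      refine le_trans h4 (measure_mono ?_)
      intro t ht x hx hxt
      have hxy : (fun i : Fin j => x i.castSucc) = y := funext hx
      have hxI : x ∈ Set.Icc a b := by
        refine ⟨fun i => ?_, fun i => ?_⟩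
        · refine Fin.lastCases ?_ (fun i => ?_) i
          · rw [hxt]
            exact ht.1.1
          · rw [hx]
            exact hy.1.1 i
        · refine Fin.lastCases ?_ (fun i => ?_) i
          · rw [hxt]
            exact ht.1.2
          · rw [hx]
            exact hy.1.2 i
      refine ⟨hxI, fun i hi => ?_, ?_, ?_⟩
      · rcases Nat.eq_zero_or_pos i with h | h
        · rw [h]
          exact hpp
        · rw [chain_snoc x β p (by omega), hxy]
          exact hy.2 i h (by omega)
      · have h7 := (hX4 X hXd x hxI p hp hp' (j + 1) le_rfl).1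
        have h8 : (1 : ℝ) < (chain (ext x) β p (j + 1) : ℝ) := by
          refine lt_of_lt_of_le ?_ h7
          rw [div_le_iff₀ hκ3] at hXf
          linarith
        exact_mod_cast h8
      · rw [chain_last, hxt, hxy, ← hm]
        exact ht.2)
  refine le_trans ?_ h1
  have h2 := hX1 X hXa p hp hp'
  refine le_trans ?_ (mul_le_mul_left h2 _)
  rw [← ENNReal.ofReal_mul (div_nonneg (Finset.prod_nonneg fun i _ => by
    have := hab' i
    linarith) (pow_nonneg (by linarith) _))]
  refine ENNReal.ofReal_le_ofReal (le_of_eq ?_)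
  rw [Fin.prod_univ_castSucc, div_mul_div_comm, Nat.add_sub_cancel, mul_comm (2 : ℝ) ((2 * _) ^ j)]

end MCC
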